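import Mathlib

/-!
# The commuting conductor of a group: definitions and a witness criterion
-/

namespace MP5fbfc2

open scoped Classical in
/-- The commuting matrix `P` of a group: `P g h = 1` if `g * h = h * g` and `P g h = 0` otherwise. -/
noncomputable def commMatrix (G : Type*) [Group G] (g h : G) : ℤ :=
  if g * h = h * g then 1 else 0

/-- The commuting difference lattice `M(G)`: the subgroup of `ℤ^G` generated by the differences
of two rows of the commuting matrix. -/
noncomputable def diffLattice (G : Type*) [Group G] : AddSubgroup (G → ℤ) :=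
  AddSubgroup.closure {v | ∃ g g' : G, v = fun h => commMatrix G g h - commMatrix G g' h}

/-- The dimension of the `K`-span of the image in `K^G` of a subgroup `L` of `ℤ^G`. For `K = ℚ` it
is the rank of `L`, for `K = F_p` it is the rank of `L` modulo `p`. -/
noncomputable def rankOver (K : Type*) [Field K] {G : Type*} (L : AddSubgroup (G → ℤ)) : ℕ :=
  Module.finrank K (Submodule.span K ((fun (v : G → ℤ) (g : G) => (v g : K)) '' (L : Set (G → ℤ))))

/-- The commuting conductor: the primes `p` for which the rank of `M(G)` modulo `p` is smaller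
than the rank of `M(G)`. -/
def Ccomm (G : Type*) [Group G] : Set ℕ :=
  {p | ∃ hp : p.Prime, haveI : Fact p.Prime := ⟨hp⟩
    rankOver (ZMod p) (diffLattice G) < rankOver ℚ (diffLattice G)}

lemma linearIndependent_of_mod {ι : Type*} [Fintype ι] {G : Type*} (p : ℕ) [Fact p.Prime]
    (v : ι → (G → ℤ))
    (h : LinearIndependent (ZMod p) (fun i => fun g => ((v i g : ℤ) : ZMod p))) :
    LinearIndependent ℤ v := by
  rw [Fintype.linearIndependent_iff] at h ⊢
  have hp : (p : ℤ) ≠ 0 := by exact_mod_cast (Fact.out : p.Prime).ne_zero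
  have key : ∀ k : ℕ, ∀ c : ι → ℤ, ∑ i, c i • v i = 0 → ∀ i, (p : ℤ) ^ k ∣ c i := by
    intro k
    induction k with
    | zero => intro c _ i; simp
    | succ k ih =>
      intro c hc i
      have h1 : ∀ i, (p : ℤ) ∣ c i := by
        intro i
        rw [← ZMod.intCast_zmod_eq_zero_iff_dvd]
        apply h (fun i => ((c i : ℤ) : ZMod p))
        funext g
        have := congrFun hc g
        simp only [Finset.sum_apply, Pi.smul_apply, smul_eq_mul, Pi.zero_apply] at this ⊢
        have h2 := congrArg (fun z : ℤ => (z : ZMod p)) this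
        push_cast at h2
        exact h2
      choose c' hc' using h1
      have h3 : ∑ i, c' i • v i = 0 := by
        have h4 : (p : ℤ) • ∑ i, c' i • v i = 0 := by
          rw [Finset.smul_sum, ← hc]
          apply Finset.sum_congr rfl
          intro i _
          rw [smul_smul, ← hc' i]
        funext g
        have := congrFun h4 g
        simp only [Pi.smul_apply, smul_eq_mul, Pi.zero_apply, mul_eq_zero, hp, false_or] at this
        exact this
      rw [hc' i, pow_succ, mul_comm]
      exact mul_dvd_mul_left _ (ih c' h3 i)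
  intro c hc i
  by_contra hne
  have h5 := key (c i).natAbs c hc i
  have h6 := Int.le_of_dvd (abs_pos.mpr hne) ((dvd_abs _ _).mpr h5)
  have h7 : (c i).natAbs < p ^ (c i).natAbs := Nat.lt_pow_self (Fact.out : p.Prime).one_lt
  have h8 : ((c i).natAbs : ℤ) < (p : ℤ) ^ (c i).natAbs := by exact_mod_cast h7
  rw [Int.natCast_natAbs] at h8
  omega

lemma rank_mod_le {G : Type*} [Finite G] (p : ℕ) [Fact p.Prime] (L : AddSubgroup (G → ℤ)) :
    rankOver (ZMod p) L ≤ rankOver ℚ L := by
  classical
  obtain ⟨b, hb, hspan, hli⟩ := exists_linearIndependent (ZMod p)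
    ((fun (v : G → ℤ) (g : G) => (v g : ZMod p)) '' (L : Set (G → ℤ)))
  have : Finite b := Subtype.finite
  let _ : Fintype b := Fintype.ofFinite b
  unfold rankOver
  rw [← hspan]
  have h1 : Module.finrank (ZMod p) (Submodule.span (ZMod p) b) = Fintype.card b := by
    have := finrank_span_eq_card hli
    rwa [Subtype.range_coe] at this
  rw [h1]
  choose v hvL hv using fun x : b => hb x.2
  have h2 : LinearIndependent ℤ v := by
    apply linearIndependent_of_mod p v
    have : (fun i : b => fun g => ((v i g : ℤ) : ZMod p)) = ((↑) : b → (G → ZMod p)) := by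
      funext x
      exact hv x
    rw [this]
    exact hli
  let f : (G → ℤ) →ₗ[ℤ] (G → ℚ) :=
    { toFun := fun v g => (v g : ℚ)
      map_add' := by intro x y; funext g; simp
      map_smul' := by intro c x; funext g; simp }
  have hf : LinearMap.ker f = ⊥ := by
    rw [LinearMap.ker_eq_bot]
    intro x y hxy
    funext g
    have hg : ((x g : ℤ) : ℚ) = ((y g : ℤ) : ℚ) := congrFun hxy g
    exact_mod_cast hg
  have h3 : LinearIndependent ℤ (f ∘ v) := h2.map' f hf
  have h4 : LinearIndependent ℚ (f ∘ v) := (LinearIndependent.iff_fractionRing ℤ ℚ).mp h3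
  rw [← finrank_span_eq_card h4]
  apply Submodule.finrank_mono
  apply Submodule.span_mono
  rintro _ ⟨x, rfl⟩
  exact ⟨v x, hvL x, rfl⟩

lemma commMatrix_comm {G : Type*} [Group G] (g h : G) : commMatrix G g h = commMatrix G h g := by
  unfold commMatrix
  by_cases h1 : g * h = h * g
  · rw [if_pos h1, if_pos h1.symm]
  · rw [if_neg h1, if_neg (fun h2 => h1 h2.symm)]

lemma commMatrix_one_left {G : Type*} [Group G] (h : G) : commMatrix G 1 h = 1 := by
  simp [commMatrix]

lemma commMatrix_one_right {G : Type*} [Group G] (h : G) : commMatrix G h 1 = 1 := by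
  simp [commMatrix]

/-- Witness criterion. If `e` is orthogonal modulo `p` to all rows of the commuting matrix, if
`t` is an integral vector in the rational row space, and `p` does not divide `e · t`, then `p`
lies in the commuting conductor. -/
theorem mem_Ccomm {G : Type*} [Group G] [Fintype G] {p : ℕ} (hp : p.Prime) (e u t : G → ℤ) (n : ℤ)
    (hn : n ≠ 0) (he : ∀ g, (p : ℤ) ∣ ∑ x, e x * commMatrix G x g)
    (hu : ∀ g, ∑ x, u x * commMatrix G x g = n * t g)
    (het : ¬ (p : ℤ) ∣ ∑ x, e x * t x) : p ∈ Ccomm G := by
  classical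
  have : Fact p.Prime := ⟨hp⟩
  refine ⟨hp, ?_⟩
  by_contra hcon
  rw [not_lt] at hcon
  set L := diffLattice G with hL
  set s : G → ℤ := fun g => t 1 - t g with hs
  -- n s lies in L
  have hns : (fun g => n * s g) ∈ L := by
    have h1 : (fun g => n * s g) = ∑ x, u x • (fun g => commMatrix G 1 g - commMatrix G x g) := by
      funext g
      simp only [Finset.sum_apply, Pi.smul_apply, smul_eq_mul, mul_sub, Finset.sum_sub_distrib, hs]
      rw [hu g, ← hu 1]
      congr 1
      apply Finset.sum_congr rfl
      intro x _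
      rw [commMatrix_one_left, commMatrix_one_right]
    rw [h1]
    apply AddSubgroup.sum_mem
    intro x _
    apply AddSubgroup.zsmul_mem
    exact AddSubgroup.subset_closure ⟨1, x, rfl⟩
  -- the enlarged lattice
  set L' : AddSubgroup (G → ℤ) := L ⊔ AddSubgroup.closure {s} with hL'
  have hle : L ≤ L' := le_sup_left
  have hsL' : s ∈ L' := le_sup_right (a := L) (AddSubgroup.subset_closure rfl)
  -- over ℚ nothing changes
  have hQ : rankOver ℚ L' ≤ rankOver ℚ L := by
    unfold rankOver
    apply Submodule.finrank_mono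
    rw [Submodule.span_le]
    rintro _ ⟨v, hv, rfl⟩
    rw [SetLike.mem_coe] at hv ⊢
    rw [hL', AddSubgroup.mem_sup] at hv
    obtain ⟨y, hy, z, hz, rfl⟩ := hv
    rw [AddSubgroup.mem_closure_singleton] at hz
    obtain ⟨k, rfl⟩ := hz
    have h2 : (fun g => (((y + k • s) g : ℤ) : ℚ)) =
        (fun g => ((y g : ℤ) : ℚ)) + ((k : ℚ) / (n : ℚ)) • (fun g => ((n * s g : ℤ) : ℚ)) := by
      have hn' : (n : ℚ) ≠ 0 := by exact_mod_cast hn
      funext g
      simp only [Pi.add_apply, Pi.smul_apply, smul_eq_mul]
      push_cast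
      field_simp
    show (fun g => (((y + k • s) g : ℤ) : ℚ)) ∈ _
    rw [h2]
    apply Submodule.add_mem
    · exact Submodule.subset_span ⟨y, hy, rfl⟩
    · apply Submodule.smul_mem
      exact Submodule.subset_span ⟨_, hns, rfl⟩
  have h3 : rankOver (ZMod p) L' ≤ rankOver (ZMod p) L :=
    (rank_mod_le p L').trans (hQ.trans hcon)
  -- so the spans modulo p agree
  have h4 : Submodule.span (ZMod p) ((fun (v : G → ℤ) (g : G) => (v g : ZMod p)) ''
      (L : Set (G → ℤ))) = Submodule.span (ZMod p) ((fun (v : G → ℤ) (g : G) => (v g : ZMod p)) ''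
      (L' : Set (G → ℤ))) := by
    apply Submodule.eq_of_le_of_finrank_le
    · exact Submodule.span_mono (Set.image_mono hle)
    · exact h3
  have h5 : (fun g => ((s g : ℤ) : ZMod p)) ∈ Submodule.span (ZMod p)
      ((fun (v : G → ℤ) (g : G) => (v g : ZMod p)) '' (L : Set (G → ℤ))) := by
    rw [h4]
    exact Submodule.subset_span ⟨s, hsL', rfl⟩
  -- the functional given by e
  let φ : (G → ZMod p) →ₗ[ZMod p] ZMod p :=
    { toFun := fun v => ∑ x, (e x : ZMod p) * v x
      map_add' := by intro x y; simp [mul_add, Finset.sum_add_distrib]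
      map_smul' := by
        intro c x
        simp only [Pi.smul_apply, smul_eq_mul, RingHom.id_apply, Finset.mul_sum]
        apply Finset.sum_congr rfl
        intro y _
        ring }
  have hφ : ∀ v : G → ℤ, φ (fun g => ((v g : ℤ) : ZMod p)) = ((∑ x, e x * v x : ℤ) : ZMod p) := by
    intro v
    show ∑ x, (e x : ZMod p) * ((v x : ℤ) : ZMod p) = _
    push_cast
    rfl
  have h6 : ∀ v ∈ L, φ (fun g => ((v g : ℤ) : ZMod p)) = 0 := by
    intro v hv
    rw [hφ, ZMod.intCast_zmod_eq_zero_iff_dvd]
    rw [hL] at hv
    unfold diffLattice at hv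
    induction hv using AddSubgroup.closure_induction with
    | mem x hx =>
      obtain ⟨g, g', rfl⟩ := hx
      simp only [mul_sub, Finset.sum_sub_distrib]
      apply dvd_sub
      · have := he g
        simpa only [commMatrix_comm g] using this
      · have := he g'
        simpa only [commMatrix_comm g'] using this
    | zero => simp
    | add x y _ _ hx hy =>
      simp only [Pi.add_apply, mul_add, Finset.sum_add_distrib]
      exact dvd_add hx hy
    | neg x _ hx =>
      simp only [Pi.neg_apply, mul_neg, Finset.sum_neg_distrib]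
      exact (dvd_neg).mpr hx
  have h7 : Submodule.span (ZMod p) ((fun (v : G → ℤ) (g : G) => (v g : ZMod p)) ''
      (L : Set (G → ℤ))) ≤ LinearMap.ker φ := by
    rw [Submodule.span_le]
    rintro _ ⟨v, hv, rfl⟩
    exact h6 v hv
  have h8 := h7 h5
  rw [LinearMap.mem_ker, hφ, ZMod.intCast_zmod_eq_zero_iff_dvd] at h8
  simp only [hs, mul_sub, Finset.sum_sub_distrib] at h8
  apply het
  have h9 : (p : ℤ) ∣ ∑ x, e x * t 1 := by
    rw [← Finset.sum_mul]
    apply Dvd.dvd.mul_right
    have := he 1
    simpa only [commMatrix_one_right, mul_one] using this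
  have := dvd_sub h9 h8
  simpa using this

end MP5fbfc2
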