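import Mathlib
import Pool.Agent.Lib.MP_5fbfc2_al.LP.Basic

/-!
# Centralisers covered by centralisers
-/

namespace MP5fbfc2

/-- Local partition theorem. -/
theorem mem_Ccomm_of_partition {G : Type*} [Group G] [Finite G] (g₀ : G) (A : Finset G)
    (hA : A.Nonempty)
    (h1 : ∀ a ∈ A, ∀ h, h * a = a * h → h * g₀ = g₀ * h)
    (h2 : ∀ a ∈ A, ∃ b ∈ A, a * b ≠ b * a)
    (h3 : ∀ h, h * g₀ = g₀ * h → (∀ a ∈ A, h * a = a * h) ∨ (∃! a, a ∈ A ∧ h * a = a * h))
    {p : ℕ} (hp : p.Prime) (hpA : p ∣ A.card - 1) : p ∈ Ccomm G := by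
  classical
  let _ : Fintype G := Fintype.ofFinite G
  -- A has at least two elements
  have hA2 : 2 ≤ A.card := by
    obtain ⟨a, ha⟩ := hA
    obtain ⟨b, hb, hab⟩ := h2 a ha
    have hne : a ≠ b := by
      rintro rfl
      exact hab rfl
    exact Finset.one_lt_card.mpr ⟨a, ha, b, hb, hne⟩
  let e : G → ℤ := fun x => (if x ∈ A then 1 else 0) - (if x = g₀ then 1 else 0)
  let t : G → ℤ := fun h => if (h * g₀ = g₀ * h ∧ ∀ a ∈ A, h * a = a * h) then 1 else 0
  have hsum : ∀ F : G → ℤ, ∑ x, e x * F x = ∑ a ∈ A, F a - F g₀ := by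
    intro F
    simp only [e, sub_mul, ite_mul, one_mul, zero_mul, Finset.sum_sub_distrib,
      Finset.sum_ite_mem, Finset.univ_inter, Finset.sum_ite_eq', Finset.mem_univ, if_true]
  have hrow : ∀ g, ∑ x, e x * commMatrix G x g = ((A.card : ℤ) - 1) * t g := by
    intro g
    rw [hsum]
    by_cases hg : g * g₀ = g₀ * g
    · have hg0 : commMatrix G g₀ g = 1 := by
        unfold commMatrix
        rw [if_pos hg.symm]
      rw [hg0]
      rcases h3 g hg with hall | ⟨a, ⟨haA, hag⟩, huniq⟩
      · have ht : t g = 1 := by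
          simp only [t]
          rw [if_pos ⟨hg, hall⟩]
        rw [ht, mul_one]
        have : ∑ a ∈ A, commMatrix G a g = ∑ a ∈ A, (1 : ℤ) := by
          apply Finset.sum_congr rfl
          intro a ha
          unfold commMatrix
          rw [if_pos (hall a ha).symm]
        rw [this]
        simp
      · have ht : t g = 0 := by
          simp only [t]
          rw [if_neg]
          rintro ⟨_, hall⟩
          obtain ⟨b, hb, hab⟩ := h2 a haA
          have := huniq b ⟨hb, hall b hb⟩
          rw [this] at hab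
          exact hab rfl
        rw [ht, mul_zero]
        have : ∑ b ∈ A, commMatrix G b g = 1 := by
          rw [Finset.sum_eq_single_of_mem a haA]
          · unfold commMatrix
            rw [if_pos hag.symm]
          · intro b hb hba
            unfold commMatrix
            rw [if_neg]
            intro h
            exact hba (huniq b ⟨hb, h.symm⟩)
        rw [this]
        norm_num
    · have hg0 : commMatrix G g₀ g = 0 := by
        unfold commMatrix
        rw [if_neg (fun h => hg h.symm)]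
      have ht : t g = 0 := by
        simp only [t]
        rw [if_neg (fun h => hg h.1)]
      rw [hg0, ht, mul_zero, sub_zero]
      apply Finset.sum_eq_zero
      intro a ha
      unfold commMatrix
      rw [if_neg]
      intro h
      exact hg (h1 a ha g h.symm)
  have hn : ((A.card : ℤ) - 1) ≠ 0 := by
    have : (2 : ℤ) ≤ (A.card : ℤ) := by exact_mod_cast hA2
    omega
  have hpd : (p : ℤ) ∣ (A.card : ℤ) - 1 := by
    have h4 : ((A.card - 1 : ℕ) : ℤ) = (A.card : ℤ) - 1 := by
      push_cast [Nat.cast_sub (by omega : 1 ≤ A.card)]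
      rfl
    rw [← h4]
    exact_mod_cast hpA
  apply mem_Ccomm hp e e t _ hn
  · intro g
    rw [hrow]
    exact Dvd.dvd.mul_right hpd _
  · exact hrow
  · rw [hsum]
    have ht1 : ∑ a ∈ A, t a = 0 := by
      apply Finset.sum_eq_zero
      intro a ha
      simp only [t]
      rw [if_neg]
      rintro ⟨_, hall⟩
      obtain ⟨b, hb, hab⟩ := h2 a ha
      exact hab (hall b hb)
    have ht2 : t g₀ = 1 := by
      show (if (g₀ * g₀ = g₀ * g₀ ∧ ∀ a ∈ A, g₀ * a = a * g₀) then (1 : ℤ) else 0) = 1
      rw [if_pos]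
      refine ⟨rfl, ?_⟩
      intro a ha
      exact (h1 a ha a rfl).symm
    rw [ht1, ht2, zero_sub, dvd_neg]
    intro h
    have := Int.natAbs_dvd_natAbs.mpr h
    simp at this
    exact hp.one_lt.ne' this

/-- In the situation of the local partition theorem there are at least three members. -/
lemma three_le_card {G : Type*} [Group G] (g₀ : G) (A : Finset G)
    (hA : A.Nonempty)
    (h1 : ∀ a ∈ A, ∀ h, h * a = a * h → h * g₀ = g₀ * h)
    (h2 : ∀ a ∈ A, ∃ b ∈ A, a * b ≠ b * a)
    (h3 : ∀ h, h * g₀ = g₀ * h → (∀ a ∈ A, h * a = a * h) ∨ (∃! a, a ∈ A ∧ h * a = a * h)) :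
    3 ≤ A.card := by
  classical
  by_contra hlt
  obtain ⟨a, ha⟩ := hA
  obtain ⟨b, hb, hab⟩ := h2 a ha
  have hne : a ≠ b := by
    rintro rfl
    exact hab rfl
  have hsub : {a, b} ⊆ A := by
    intro x hx
    rw [Finset.mem_insert, Finset.mem_singleton] at hx
    rcases hx with rfl | rfl <;> assumption
  have hcard : ({a, b} : Finset G).card = 2 := Finset.card_pair hne
  have hAeq : {a, b} = A := Finset.eq_of_subset_of_card_le hsub (by omega)
  have ha0 : a * g₀ = g₀ * a := h1 a ha a rfl
  have hb0 : b * g₀ = g₀ * b := h1 b hb b rfl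
  have hab0 : (a * b) * g₀ = g₀ * (a * b) := by
    rw [mul_assoc, hb0, ← mul_assoc, ha0, mul_assoc]
  have hex : ∃ c ∈ A, (a * b) * c = c * (a * b) := by
    rcases h3 (a * b) hab0 with hall | ⟨c, ⟨hc, hcc⟩, _⟩
    · exact ⟨a, ha, hall a ha⟩
    · exact ⟨c, hc, hcc⟩
  obtain ⟨c, hc, hcc⟩ := hex
  rw [← hAeq, Finset.mem_insert, Finset.mem_singleton] at hc
  rcases hc with rfl | rfl
  · apply hab
    rw [mul_assoc] at hcc
    exact (mul_left_cancel hcc).symm
  · apply hab
    rw [← mul_assoc] at hcc
    exact mul_right_cancel hcc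

end MP5fbfc2
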