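import Mathlib
import Pool.Agent.Lib.MP_5fbfc2_al.LP.Partition

/-!
# Symmetric groups of degree at least seven
-/

namespace MP5fbfc2

open Equiv Equiv.Perm

/-- The hypotheses of the local partition theorem. -/
def IsPart {G : Type*} [Group G] (g₀ : G) (A : Finset G) : Prop :=
  A.Nonempty ∧ (∀ a ∈ A, ∀ h, h * a = a * h → h * g₀ = g₀ * h) ∧
    (∀ a ∈ A, ∃ b ∈ A, a * b ≠ b * a) ∧
    (∀ h, h * g₀ = g₀ * h → (∀ a ∈ A, h * a = a * h) ∨ (∃! a, a ∈ A ∧ h * a = a * h))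

lemma IsPart.map {G G' : Type*} [Group G] [Group G'] {g₀ : G} {A : Finset G} (h : IsPart g₀ A)
    (φ : G ≃* G') : IsPart (φ g₀) (A.map φ.toEquiv.toEmbedding) := by
  obtain ⟨h0, h1, h2, h3⟩ := h
  have hmem : ∀ b, b ∈ A.map φ.toEquiv.toEmbedding ↔ ∃ a ∈ A, φ a = b := by
    intro b
    rw [Finset.mem_map]
    rfl
  refine ⟨by simpa using h0, ?_, ?_, ?_⟩
  · intro b hb k hk
    obtain ⟨a, ha, rfl⟩ := (hmem b).mp hb
    obtain ⟨x, rfl⟩ := φ.surjective k
    rw [← map_mul, ← map_mul, φ.injective.eq_iff] at hk ⊢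
    exact h1 a ha x hk
  · intro b hb
    obtain ⟨a, ha, rfl⟩ := (hmem b).mp hb
    obtain ⟨c, hc, hac⟩ := h2 a ha
    refine ⟨φ c, (hmem _).mpr ⟨c, hc, rfl⟩, ?_⟩
    rw [← map_mul, ← map_mul]
    intro h
    exact hac (φ.injective h)
  · intro k hk
    obtain ⟨x, rfl⟩ := φ.surjective k
    rw [← map_mul, ← map_mul, φ.injective.eq_iff] at hk
    rcases h3 x hk with hall | ⟨a, ⟨ha, hax⟩, huniq⟩
    · left
      intro b hb
      obtain ⟨a, ha, rfl⟩ := (hmem b).mp hb
      rw [← map_mul, ← map_mul, hall a ha]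
    · right
      refine ⟨φ a, ⟨(hmem _).mpr ⟨a, ha, rfl⟩, ?_⟩, ?_⟩
      · rw [← map_mul, ← map_mul, hax]
      · rintro b ⟨hb, hbx⟩
        obtain ⟨c, hc, rfl⟩ := (hmem b).mp hb
        rw [← map_mul, ← map_mul, φ.injective.eq_iff] at hbx
        rw [huniq c ⟨hc, hbx⟩]

lemma addRight_pow_apply {m : ℕ} (k : ℕ) (i : Fin (m + 1)) :
    ((Equiv.addRight (1 : Fin (m + 1)) : Perm (Fin (m + 1))) ^ k) i = i + k • 1 := by
  induction k generalizing i with
  | zero => simp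
  | succ k ih =>
    rw [pow_succ, Perm.mul_apply, ih, Equiv.coe_addRight, add_assoc, ← succ_nsmul']

lemma val_nsmul_one {m : ℕ} (k : ℕ) : (k • (1 : Fin (m + 1))).val = k % (m + 1) := by
  induction k with
  | zero => simp
  | succ k ih =>
    rw [succ_nsmul, Fin.val_add, ih, Fin.val_one', ← Nat.add_mod]

lemma sumCongr_mul_comm_iff {m : ℕ} (hm : 3 ≤ m) (h : Perm (Fin (m + 1) ⊕ Fin 3))
    (σ : Perm (Fin 3)) :
    h * (Perm.sumCongr (Equiv.addRight (1 : Fin (m + 1))) σ) =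
      (Perm.sumCongr (Equiv.addRight (1 : Fin (m + 1))) σ) * h ↔
    ∃ (u : Perm (Fin (m + 1))) (v : Perm (Fin 3)), h = Perm.sumCongr u v ∧
      u * Equiv.addRight 1 = Equiv.addRight 1 * u ∧ v * σ = σ * v := by
  set ρ : Perm (Fin (m + 1)) := Equiv.addRight (1 : Fin (m + 1)) with hρ
  constructor
  · intro hc
    have hk3 : ∀ (σ : Perm (Fin 3)) (j : Fin 3), ∃ k : ℕ, 1 ≤ k ∧ k ≤ 3 ∧ (σ ^ k) j = j := by
      intro σ j
      have : (σ ^ 1) j = j ∨ (σ ^ 2) j = j ∨ (σ ^ 3) j = j := by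
        revert σ j
        decide
      rcases this with h | h | h
      · exact ⟨1, le_refl _, by norm_num, h⟩
      · exact ⟨2, by norm_num, by norm_num, h⟩
      · exact ⟨3, by norm_num, le_refl _, h⟩
    have hpow : ∀ k : ℕ, (Perm.sumCongr ρ σ) ^ k = Perm.sumCongr (ρ ^ k) (σ ^ k) := by
      intro k
      induction k with
      | zero => ext x; rcases x with x | x <;> simp
      | succ k ih => rw [pow_succ, ih, pow_succ, pow_succ, sumCongr_mul]
    have hrr : ∀ j : Fin 3, ∃ j' : Fin 3, h (Sum.inr j) = Sum.inr j' := by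
      intro j
      rcases hj : h (Sum.inr j) with i | j'
      · exfalso
        obtain ⟨k, hk1, hk2, hk⟩ := hk3 σ j
        have hck : h * (Perm.sumCongr ρ σ) ^ k = (Perm.sumCongr ρ σ) ^ k * h := Commute.pow_right hc k
        rw [hpow] at hck
        have h1 := congrArg (fun f : Perm (Fin (m + 1) ⊕ Fin 3) => f (Sum.inr j)) hck
        simp only [Perm.mul_apply, Equiv.sumCongr_apply, Sum.map_inr, hk, hj, Sum.map_inl,
          Sum.inl.injEq] at h1
        rw [hρ, addRight_pow_apply] at h1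
        have h2 : (k • (1 : Fin (m + 1))) = 0 := by
          have := h1
          rw [eq_comm, add_eq_left] at this
          exact this
        have h3 : (k • (1 : Fin (m + 1))).val = 0 := by rw [h2]; rfl
        rw [val_nsmul_one, Nat.mod_eq_of_lt (by omega)] at h3
        omega
      · exact ⟨j', rfl⟩
    choose f hf using hrr
    have hfinj : Function.Injective f := by
      intro a b hab
      have : h (Sum.inr a) = h (Sum.inr b) := by rw [hf, hf, hab]
      exact Sum.inr_injective (h.injective this)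
    have hfsurj : Function.Surjective f := Finite.injective_iff_surjective.mp hfinj
    have hmaps : Set.MapsTo h (Set.range (Sum.inl : Fin (m + 1) → Fin (m + 1) ⊕ Fin 3))
        (Set.range Sum.inl) := by
      rintro _ ⟨i, rfl⟩
      rcases hi : h (Sum.inl i) with i' | j
      · exact ⟨i', rfl⟩
      · exfalso
        obtain ⟨j', rfl⟩ := hfsurj j
        rw [← hf j'] at hi
        have := h.injective hi
        cases this
    obtain ⟨⟨u, v⟩, huv⟩ := mem_sumCongrHom_range_of_perm_mapsTo_inl hmaps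
    have huv' : Perm.sumCongr u v = h := huv
    refine ⟨u, v, huv'.symm, ?_⟩
    rw [← huv', sumCongr_mul, sumCongr_mul] at hc
    have h5 : sumCongrHom (Fin (m + 1)) (Fin 3) (u * ρ, v * σ) =
        sumCongrHom (Fin (m + 1)) (Fin 3) (ρ * u, σ * v) := hc
    have h6 := sumCongrHom_injective h5
    exact ⟨congrArg Prod.fst h6, congrArg Prod.snd h6⟩
  · rintro ⟨u, v, rfl, h1, h2⟩
    rw [sumCongr_mul, sumCongr_mul, h1, h2]

/-- The four elements of `S_3` used. -/
def S3set : Finset (Perm (Fin 3)) := {swap 0 1, swap 0 2, swap 1 2, finRotate 3}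

theorem isPart_sum {m : ℕ} (hm : 3 ≤ m) :
    ∃ A : Finset (Perm (Fin (m + 1) ⊕ Fin 3)), A.card = 4 ∧
      IsPart (Perm.sumCongr (Equiv.addRight (1 : Fin (m + 1))) 1) A := by
  classical
  set ρ : Perm (Fin (m + 1)) := Equiv.addRight (1 : Fin (m + 1)) with hρ
  have hinj : Function.Injective (fun σ : Perm (Fin 3) => Perm.sumCongr ρ σ) := by
    intro σ τ h
    have h1 : sumCongrHom (Fin (m + 1)) (Fin 3) (ρ, σ) =
        sumCongrHom (Fin (m + 1)) (Fin 3) (ρ, τ) := h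
    exact congrArg Prod.snd (sumCongrHom_injective h1)
  have hdec1 : ∀ v : Perm (Fin 3), (∀ σ ∈ S3set, v * σ = σ * v) ∨
      (∃ σ ∈ S3set, v * σ = σ * v ∧ ∀ τ ∈ S3set, v * τ = τ * v → τ = σ) := by
    unfold S3set
    decide
  have hdec2 : ∀ σ ∈ S3set, ∃ τ ∈ S3set, σ * τ ≠ τ * σ := by
    unfold S3set
    decide
  refine ⟨S3set.map ⟨_, hinj⟩, ?_, ?_, ?_, ?_, ?_⟩
  · rw [Finset.card_map]
    decide
  · rw [Finset.map_nonempty]
    exact ⟨swap 0 1, by decide⟩
  · intro a ha h hc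
    rw [Finset.mem_map] at ha
    obtain ⟨σ, _, rfl⟩ := ha
    obtain ⟨u, v, rfl, h1, _⟩ := (sumCongr_mul_comm_iff hm h σ).mp hc
    rw [sumCongr_mul_comm_iff hm]
    exact ⟨u, v, rfl, h1, by simp⟩
  · intro a ha
    rw [Finset.mem_map] at ha
    obtain ⟨σ, hσ, rfl⟩ := ha
    obtain ⟨τ, hτ, hne⟩ := hdec2 σ hσ
    refine ⟨Perm.sumCongr ρ τ, Finset.mem_map.mpr ⟨τ, hτ, rfl⟩, ?_⟩
    intro h
    apply hne
    have h' : Perm.sumCongr ρ σ * Perm.sumCongr ρ τ = Perm.sumCongr ρ τ * Perm.sumCongr ρ σ := h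
    rw [sumCongr_mul, sumCongr_mul] at h'
    have h1 : sumCongrHom (Fin (m + 1)) (Fin 3) (ρ * ρ, σ * τ) =
        sumCongrHom (Fin (m + 1)) (Fin 3) (ρ * ρ, τ * σ) := h'
    exact congrArg Prod.snd (sumCongrHom_injective h1)
  · intro h hc
    obtain ⟨u, v, rfl, h1, _⟩ := (sumCongr_mul_comm_iff hm h 1).mp hc
    have hcomm : ∀ σ : Perm (Fin 3), (Perm.sumCongr u v * Perm.sumCongr ρ σ = Perm.sumCongr ρ σ * Perm.sumCongr u v) ↔
        v * σ = σ * v := by
      intro σ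
      constructor
      · intro h2
        rw [sumCongr_mul, sumCongr_mul] at h2
        have h3 : sumCongrHom (Fin (m + 1)) (Fin 3) (u * ρ, v * σ) =
            sumCongrHom (Fin (m + 1)) (Fin 3) (ρ * u, σ * v) := h2
        exact congrArg Prod.snd (sumCongrHom_injective h3)
      · intro h2
        rw [sumCongr_mul, sumCongr_mul, h1, h2]
    rcases hdec1 v with hall | ⟨σ, hσ, hσv, huniq⟩
    · left
      intro a ha
      rw [Finset.mem_map] at ha
      obtain ⟨σ, hσ, rfl⟩ := ha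
      exact (hcomm σ).mpr (hall σ hσ)
    · right
      refine ⟨Perm.sumCongr ρ σ, ⟨Finset.mem_map.mpr ⟨σ, hσ, rfl⟩, (hcomm σ).mpr hσv⟩, ?_⟩
      rintro b ⟨hb, hbc⟩
      rw [Finset.mem_map] at hb
      obtain ⟨τ, hτ, rfl⟩ := hb
      have := huniq τ hτ ((hcomm τ).mp hbc)
      rw [this]
      rfl

theorem three_mem_Ccomm {n : ℕ} (hn : 7 ≤ n) : 3 ∈ Ccomm (Perm (Fin n)) := by
  obtain ⟨m, rfl⟩ : ∃ m, n = m + 1 + 3 := ⟨n - 4, by omega⟩
  obtain ⟨A, hA, hP⟩ := isPart_sum (m := m) (by omega)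
  have h1 := hP.map (finSumFinEquiv (m := m + 1) (n := 3)).permCongrHom
  obtain ⟨h2, h3, h4, h5⟩ := h1
  apply mem_Ccomm_of_partition _ _ h2 h3 h4 h5 Nat.prime_three
  rw [Finset.card_map, hA]

end MP5fbfc2
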