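import Mathlib
import Pool.Agent.Lib.MP_5fbfc2_al.LP.SymLarge

/-!
# Alternating groups of large degree
-/

namespace MP5fbfc2

open Equiv Equiv.Perm

lemma exists_pow_fixed {k : ℕ} (σ : Perm (Fin k)) (j : Fin k) :
    ∃ e : ℕ, 1 ≤ e ∧ e ≤ k ∧ (σ ^ e) j = j := by
  have h1 : ¬ Function.Injective (fun i : Fin (k + 1) => (σ ^ (i : ℕ)) j) := by
    intro h
    have := Fintype.card_le_of_injective _ h
    simp at this
  rw [Function.Injective] at h1
  push Not at h1
  obtain ⟨a, b, hab, hne⟩ := h1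
  have key : ∀ a b : ℕ, a < b → b ≤ k → (σ ^ a) j = (σ ^ b) j →
      ∃ e : ℕ, 1 ≤ e ∧ e ≤ k ∧ (σ ^ e) j = j := by
    intro a b hlt hb h
    refine ⟨b - a, by omega, by omega, ?_⟩
    have h2 : σ ^ b = σ ^ a * σ ^ (b - a) := by
      rw [← pow_add]
      congr 1
      omega
    rw [h2, Perm.mul_apply] at h
    exact ((σ ^ a).injective h).symm
  rcases Nat.lt_or_gt_of_ne (fun h => hne (Fin.ext h)) with hlt | hlt
  · exact key a b hlt (by omega) hab
  · exact key b a hlt (by omega) hab.symm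

lemma sumCongr_mul_comm_iff' {m k : ℕ} (hm : k ≤ m) (h : Perm (Fin (m + 1) ⊕ Fin k))
    (σ : Perm (Fin k)) :
    h * (Perm.sumCongr (Equiv.addRight (1 : Fin (m + 1))) σ) =
      (Perm.sumCongr (Equiv.addRight (1 : Fin (m + 1))) σ) * h ↔
    ∃ (u : Perm (Fin (m + 1))) (v : Perm (Fin k)), h = Perm.sumCongr u v ∧
      u * Equiv.addRight 1 = Equiv.addRight 1 * u ∧ v * σ = σ * v := by
  set ρ : Perm (Fin (m + 1)) := Equiv.addRight (1 : Fin (m + 1)) with hρ
  constructor
  · intro hc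
    have hpow : ∀ k : ℕ, (Perm.sumCongr ρ σ) ^ k = Perm.sumCongr (ρ ^ k) (σ ^ k) := by
      intro k
      induction k with
      | zero => ext x; rcases x with x | x <;> simp
      | succ k ih => rw [pow_succ, ih, pow_succ, pow_succ, sumCongr_mul]
    have hrr : ∀ j : Fin k, ∃ j' : Fin k, h (Sum.inr j) = Sum.inr j' := by
      intro j
      rcases hj : h (Sum.inr j) with i | j'
      · exfalso
        obtain ⟨e, hk1, hk2, hk⟩ := exists_pow_fixed σ j
        have hck : h * (Perm.sumCongr ρ σ) ^ e = (Perm.sumCongr ρ σ) ^ e * h := Commute.pow_right hc e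
        rw [hpow] at hck
        have h1 := congrArg (fun f : Perm (Fin (m + 1) ⊕ Fin k) => f (Sum.inr j)) hck
        simp only [Perm.mul_apply, Equiv.sumCongr_apply, Sum.map_inr, hk, hj, Sum.map_inl,
          Sum.inl.injEq] at h1
        rw [hρ, addRight_pow_apply] at h1
        have h2 : (e • (1 : Fin (m + 1))) = 0 := by
          have := h1
          rw [eq_comm, add_eq_left] at this
          exact this
        have h3 : (e • (1 : Fin (m + 1))).val = 0 := by rw [h2]; rfl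
        rw [val_nsmul_one, Nat.mod_eq_of_lt (by omega)] at h3
        omega
      · exact ⟨j', rfl⟩
    choose f hf using hrr
    have hfinj : Function.Injective f := by
      intro a b hab
      have : h (Sum.inr a) = h (Sum.inr b) := by rw [hf, hf, hab]
      exact Sum.inr_injective (h.injective this)
    have hfsurj : Function.Surjective f := Finite.injective_iff_surjective.mp hfinj
    have hmaps : Set.MapsTo h (Set.range (Sum.inl : Fin (m + 1) → Fin (m + 1) ⊕ Fin k))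
        (Set.range Sum.inl) := by
      rintro _ ⟨i, rfl⟩
      rcases hi : h (Sum.inl i) with i' | j
      · exact ⟨i', rfl⟩
      · exfalso
        obtain ⟨j', rfl⟩ := hfsurj j
        rw [← hf j'] at hi
        have := h.injective hi
        cases this
    obtain ⟨⟨u, v⟩, huv⟩ := mem_sumCongrHom_range_of_perm_mapsTo_inl hmaps
    have huv' : Perm.sumCongr u v = h := huv
    refine ⟨u, v, huv'.symm, ?_⟩
    rw [← huv', sumCongr_mul, sumCongr_mul] at hc
    have h5 : sumCongrHom (Fin (m + 1)) (Fin k) (u * ρ, v * σ) =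
        sumCongrHom (Fin (m + 1)) (Fin k) (ρ * u, σ * v) := hc
    have h6 := sumCongrHom_injective h5
    exact ⟨congrArg Prod.fst h6, congrArg Prod.snd h6⟩
  · rintro ⟨u, v, rfl, h1, h2⟩
    rw [sumCongr_mul, sumCongr_mul, h1, h2]

lemma sign_addRight {m : ℕ} (hm : Even m) :
    sign (Equiv.addRight (1 : Fin (m + 1)) : Perm (Fin (m + 1))) = 1 := by
  have h1 : (Equiv.addRight (1 : Fin (m + 1)) : Perm (Fin (m + 1))) = finRotate (m + 1) := by
    ext i
    rw [finRotate_apply]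
    rfl
  rw [h1, sign_finRotate, Nat.add_sub_cancel, hm.neg_one_pow]

lemma sign_of_comm {m : ℕ} (hm : Even m) (u : Perm (Fin (m + 1)))
    (hu : u * Equiv.addRight 1 = Equiv.addRight 1 * u) : sign u = 1 := by
  have h1 : u = (Equiv.addRight (1 : Fin (m + 1)) : Perm (Fin (m + 1))) ^ ((u 0 : Fin (m + 1)) : ℕ) := by
    have hval : ∀ x : Fin (m + 1), (x : ℕ) • (1 : Fin (m + 1)) = x := by
      intro x
      apply Fin.ext
      rw [val_nsmul_one, Nat.mod_eq_of_lt x.2]
    have hpow : ∀ e : ℕ, u * (Equiv.addRight (1 : Fin (m + 1)) : Perm (Fin (m + 1))) ^ e =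
        (Equiv.addRight (1 : Fin (m + 1)) : Perm (Fin (m + 1))) ^ e * u :=
      fun e => Commute.pow_right hu e
    ext i
    have h2 := congrArg (fun f : Perm (Fin (m + 1)) => f 0) (hpow (i : ℕ))
    simp only [Perm.mul_apply, addRight_pow_apply, zero_add, hval] at h2
    rw [addRight_pow_apply, hval, h2, add_comm (u 0) i]
  rw [h1, map_pow, sign_addRight hm, one_pow]

theorem isPart_alt {m k : ℕ} (hkm : k ≤ m) (hm : Even m) (S : Finset (Perm (Fin k)))
    (hS : ∀ σ ∈ S, sign σ = 1) (hne : S.Nonempty)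
    (hdec1 : ∀ v : Perm (Fin k), sign v = 1 → (∀ σ ∈ S, v * σ = σ * v) ∨
      (∃ σ ∈ S, v * σ = σ * v ∧ ∀ τ ∈ S, v * τ = τ * v → τ = σ))
    (hdec2 : ∀ σ ∈ S, ∃ τ ∈ S, σ * τ ≠ τ * σ) :
    ∃ (g₀ : alternatingGroup (Fin (m + 1) ⊕ Fin k))
      (A : Finset (alternatingGroup (Fin (m + 1) ⊕ Fin k))), A.card = S.card ∧ IsPart g₀ A := by
  classical
  set ρ : Perm (Fin (m + 1)) := Equiv.addRight (1 : Fin (m + 1)) with hρ
  have hmem : ∀ σ : Perm (Fin k), sign σ = 1 →
      Perm.sumCongr ρ σ ∈ alternatingGroup (Fin (m + 1) ⊕ Fin k) := by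
    intro σ hσ
    rw [mem_alternatingGroup, sign_sumCongr, hσ, mul_one]
    exact sign_addRight hm
  have hinj : Function.Injective (fun σ : Perm (Fin k) => Perm.sumCongr ρ σ) := by
    intro σ τ h
    have h1 : sumCongrHom (Fin (m + 1)) (Fin k) (ρ, σ) =
        sumCongrHom (Fin (m + 1)) (Fin k) (ρ, τ) := h
    exact congrArg Prod.snd (sumCongrHom_injective h1)
  let f : {σ // σ ∈ S} → alternatingGroup (Fin (m + 1) ⊕ Fin k) :=
    fun σ => ⟨Perm.sumCongr ρ σ.1, hmem σ.1 (hS σ.1 σ.2)⟩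
  have hfinj : Function.Injective f := by
    intro σ τ h
    exact Subtype.ext (hinj (congrArg Subtype.val h))
  have hmemA : ∀ a, a ∈ S.attach.map ⟨f, hfinj⟩ ↔ ∃ σ, ∃ hσ : σ ∈ S, f ⟨σ, hσ⟩ = a := by
    intro a
    simp
  refine ⟨⟨Perm.sumCongr ρ 1, hmem 1 (map_one _)⟩, S.attach.map ⟨f, hfinj⟩, ?_, ?_, ?_, ?_, ?_⟩
  · rw [Finset.card_map, Finset.card_attach]
  · rw [Finset.map_nonempty]
    exact Finset.attach_nonempty_iff.mpr hne
  · intro a ha h hc
    obtain ⟨σ, hσ, rfl⟩ := (hmemA a).mp ha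
    have hc' : h.1 * Perm.sumCongr ρ σ = Perm.sumCongr ρ σ * h.1 :=
      congrArg Subtype.val hc
    obtain ⟨u, v, huv, h1, _⟩ := (sumCongr_mul_comm_iff' hkm h.1 σ).mp hc'
    apply Subtype.ext
    exact (sumCongr_mul_comm_iff' hkm h.1 1).mpr ⟨u, v, huv, h1, by simp⟩
  · intro a ha
    obtain ⟨σ, hσ, rfl⟩ := (hmemA a).mp ha
    obtain ⟨τ, hτ, hne⟩ := hdec2 σ hσ
    refine ⟨f ⟨τ, hτ⟩, (hmemA _).mpr ⟨τ, hτ, rfl⟩, ?_⟩
    intro h
    apply hne
    have h' : Perm.sumCongr ρ σ * Perm.sumCongr ρ τ = Perm.sumCongr ρ τ * Perm.sumCongr ρ σ :=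
      congrArg Subtype.val h
    rw [sumCongr_mul, sumCongr_mul] at h'
    have h1 : sumCongrHom (Fin (m + 1)) (Fin k) (ρ * ρ, σ * τ) =
        sumCongrHom (Fin (m + 1)) (Fin k) (ρ * ρ, τ * σ) := h'
    exact congrArg Prod.snd (sumCongrHom_injective h1)
  · intro h hc
    have hc' : h.1 * Perm.sumCongr ρ 1 = Perm.sumCongr ρ 1 * h.1 :=
      congrArg Subtype.val hc
    obtain ⟨u, v, huv, h1, _⟩ := (sumCongr_mul_comm_iff' hkm h.1 1).mp hc'
    have hsv : sign v = 1 := by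
      have h2 := mem_alternatingGroup.mp h.2
      rw [huv, sign_sumCongr, sign_of_comm hm u h1, one_mul] at h2
      exact h2
    have hcomm : ∀ σ (hσ : σ ∈ S), (h * f ⟨σ, hσ⟩ = f ⟨σ, hσ⟩ * h) ↔ v * σ = σ * v := by
      intro σ hσ
      constructor
      · intro h2
        have h2' : h.1 * Perm.sumCongr ρ σ = Perm.sumCongr ρ σ * h.1 :=
          congrArg Subtype.val h2
        rw [huv, sumCongr_mul, sumCongr_mul] at h2'
        have h3 : sumCongrHom (Fin (m + 1)) (Fin k) (u * ρ, v * σ) =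
            sumCongrHom (Fin (m + 1)) (Fin k) (ρ * u, σ * v) := h2'
        exact congrArg Prod.snd (sumCongrHom_injective h3)
      · intro h2
        apply Subtype.ext
        show h.1 * Perm.sumCongr ρ σ = Perm.sumCongr ρ σ * h.1
        rw [huv, sumCongr_mul, sumCongr_mul, h1, h2]
    rcases hdec1 v hsv with hall | ⟨σ, hσ, hσv, huniq⟩
    · left
      intro a ha
      obtain ⟨σ, hσ, rfl⟩ := (hmemA a).mp ha
      exact (hcomm σ hσ).mpr (hall σ hσ)
    · right
      refine ⟨f ⟨σ, hσ⟩, ⟨(hmemA _).mpr ⟨σ, hσ, rfl⟩, (hcomm σ hσ).mpr hσv⟩, ?_⟩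
      rintro b ⟨hb, hbc⟩
      obtain ⟨τ, hτ, rfl⟩ := (hmemA b).mp hb
      have := huniq τ hτ ((hcomm τ hτ).mp hbc)
      subst this
      rfl

/-- Representatives of the maximal abelian subgroups of the alternating group of degree four. -/
def A4set : Finset (Perm (Fin 4)) :=
  {swap 0 1 * swap 2 3, swap 0 1 * swap 1 2, swap 0 1 * swap 1 3, swap 0 2 * swap 2 3,
    swap 1 2 * swap 2 3}

/-- Representatives of the maximal abelian subgroups of the alternating group of degree five. -/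
def A5set : Finset (Perm (Fin 5)) :=
  {swap 1 2 * swap 3 4, swap 0 2 * swap 3 4, swap 0 1 * swap 3 4, swap 0 1 * swap 2 4,
    swap 0 1 * swap 2 3, swap 0 1 * swap 1 2, swap 0 1 * swap 1 3, swap 0 1 * swap 1 4,
    swap 0 2 * swap 2 3, swap 0 2 * swap 2 4, swap 0 3 * swap 3 4, swap 1 2 * swap 2 3,
    swap 1 2 * swap 2 4, swap 1 3 * swap 3 4, swap 2 3 * swap 3 4,
    swap 0 1 * swap 1 2 * swap 2 3 * swap 3 4, swap 0 1 * swap 1 2 * swap 2 4 * swap 4 3,
    swap 0 1 * swap 1 3 * swap 3 2 * swap 2 4, swap 0 1 * swap 1 3 * swap 3 4 * swap 4 2,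
    swap 0 1 * swap 1 4 * swap 4 2 * swap 2 3, swap 0 1 * swap 1 4 * swap 4 3 * swap 3 2}

lemma A4_card : A4set.card = 5 := by unfold A4set; decide +kernel

lemma A5_card : A5set.card = 21 := by unfold A5set; decide +kernel

lemma A4_sign : ∀ σ ∈ A4set, sign σ = 1 := by unfold A4set; decide +kernel

lemma A5_sign : ∀ σ ∈ A5set, sign σ = 1 := by unfold A5set; decide +kernel

lemma A4_dec2 : ∀ σ ∈ A4set, ∃ τ ∈ A4set, σ * τ ≠ τ * σ := by unfold A4set; decide +kernel

lemma A5_dec2 : ∀ σ ∈ A5set, ∃ τ ∈ A5set, σ * τ ≠ τ * σ := by unfold A5set; decide +kernel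

lemma A4_dec : ∀ v : Perm (Fin 4), sign v = 1 → (∀ σ ∈ A4set, v * σ = σ * v) ∨
      (∃ σ ∈ A4set, v * σ = σ * v ∧ ∀ τ ∈ A4set, v * τ = τ * v → τ = σ) := by
  unfold A4set
  decide +kernel

lemma A5_dec : ∀ v : Perm (Fin 5), sign v = 1 → (∀ σ ∈ A5set, v * σ = σ * v) ∨
      (∃ σ ∈ A5set, v * σ = σ * v ∧ ∀ τ ∈ A5set, v * τ = τ * v → τ = σ) := by
  unfold A5set
  decide +kernel

/-- The prime two lies in the conductor of the alternating groups of degree `9` and `≥ 11`. -/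
theorem two_mem_Ccomm_alt {n : ℕ} (hn : n = 9 ∨ 11 ≤ n) :
    2 ∈ Ccomm (alternatingGroup (Fin n)) := by
  rcases Nat.even_or_odd n with he | ho
  · obtain ⟨m, rfl⟩ : ∃ m, n = m + 1 + 5 := ⟨n - 6, by omega⟩
    rw [Nat.even_iff] at he
    have hm : Even m := by
      rw [Nat.even_iff]
      omega
    obtain ⟨g₀, A, hA, hP⟩ := isPart_alt (m := m) (k := 5) (by omega) hm A5set A5_sign
      (Finset.card_pos.mp (by rw [A5_card]; norm_num)) A5_dec A5_dec2
    have h1 := hP.map (Equiv.altCongrHom (finSumFinEquiv (m := m + 1) (n := 5)))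
    obtain ⟨h2, h3, h4, h5⟩ := h1
    apply mem_Ccomm_of_partition _ _ h2 h3 h4 h5 Nat.prime_two
    rw [Finset.card_map, hA, A5_card]
    norm_num
  · obtain ⟨m, rfl⟩ : ∃ m, n = m + 1 + 4 := ⟨n - 5, by omega⟩
    have hm : Even m := by
      rw [Nat.odd_iff] at ho
      rw [Nat.even_iff]
      omega
    obtain ⟨g₀, A, hA, hP⟩ := isPart_alt (m := m) (k := 4) (by omega) hm A4set A4_sign
      (Finset.card_pos.mp (by rw [A4_card]; norm_num)) A4_dec A4_dec2
    have h1 := hP.map (Equiv.altCongrHom (finSumFinEquiv (m := m + 1) (n := 4)))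
    obtain ⟨h2, h3, h4, h5⟩ := h1
    apply mem_Ccomm_of_partition _ _ h2 h3 h4 h5 Nat.prime_two
    rw [Finset.card_map, hA, A4_card]
    norm_num

end MP5fbfc2
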