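import Mathlib
import Pool.Agent.Lib.MP_5fbfc2_al.LP.Alt

/-!
# Alternating groups of degree 4, 5, 7 and 10
-/

namespace MP5fbfc2

open Equiv Equiv.Perm

/-- An involution exchanging the left summand with its image under an injection. -/
lemma exists_swap {m k : ℕ} (j : Fin (m + 1) → Fin k) (hj : Function.Injective j) :
    ∃ s : Perm (Fin (m + 1) ⊕ Fin k), (∀ i, s (Sum.inl i) = Sum.inr (j i)) ∧
      (∀ i, s (Sum.inr (j i)) = Sum.inl i) ∧
      (∀ y, (∀ i, j i ≠ y) → s (Sum.inr y) = Sum.inr y) ∧ sign s = (-1) ^ (m + 1) := by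
  classical
  let f : Fin (m + 1) ⊕ Fin k → Fin (m + 1) ⊕ Fin k :=
    Sum.elim (fun i => Sum.inr (j i))
      (fun y => if h : ∃ i, j i = y then Sum.inl h.choose else Sum.inr y)
  have f1 : ∀ i, f (Sum.inl i) = Sum.inr (j i) := fun i => rfl
  have f2 : ∀ i, f (Sum.inr (j i)) = Sum.inl i := by
    intro i
    have h : ∃ i', j i' = j i := ⟨i, rfl⟩
    show (if h : ∃ i', j i' = j i then Sum.inl h.choose else Sum.inr (j i)) = Sum.inl i
    rw [dif_pos h]
    exact congrArg Sum.inl (hj h.choose_spec)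
  have f3 : ∀ y, (∀ i, j i ≠ y) → f (Sum.inr y) = Sum.inr y := by
    intro y hy
    have h : ¬ ∃ i', j i' = y := fun ⟨i, hi⟩ => hy i hi
    show (if h : ∃ i', j i' = y then Sum.inl h.choose else Sum.inr y) = Sum.inr y
    rw [dif_neg h]
  have hinv : Function.Involutive f := by
    rintro (i | y)
    · rw [f1, f2]
    · by_cases h : ∃ i, j i = y
      · obtain ⟨i, rfl⟩ := h
        rw [f2, f1]
      · push Not at h
        rw [f3 y h, f3 y h]
  refine ⟨hinv.toPerm f, f1, f2, f3, ?_⟩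
  have hsq : (hinv.toPerm f) ^ 2 = 1 := by
    rw [pow_two]
    apply Equiv.ext
    intro x
    exact hinv x
  have hsupp : (hinv.toPerm f).support =
      (Finset.univ : Finset (Fin (m + 1))).disjSum (Finset.univ.map ⟨j, hj⟩) := by
    ext x
    rw [mem_support]
    rcases x with i | y
    · simp [f1]
    · by_cases h : ∃ i, j i = y
      · obtain ⟨i, rfl⟩ := h
        simp [f2]
      · have h' := h
        push Not at h'
        have h3 := f3 y h'
        simp [h3, h']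
  have hcard : (hinv.toPerm f).support.card = 2 * (m + 1) := by
    rw [hsupp, Finset.card_disjSum, Finset.card_map, Finset.card_univ, Fintype.card_fin]
    ring
  rw [sign_of_pow_two_eq_one hsq, card_fixedPoints, sum_cycleType, hcard]
  have : 2 * (m + 1) ≤ Fintype.card (Fin (m + 1) ⊕ Fin k) := by
    rw [← hcard]
    exact Finset.card_le_univ _
  congr 1
  omega

/-- A permutation mapping the left summand to itself is a sum. -/
lemma exists_sumCongr {m k : ℕ} (h : Perm (Fin (m + 1) ⊕ Fin k))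
    (hb : ∀ i, ∃ i', h (Sum.inl i) = Sum.inl i') : ∃ (u : Perm (Fin (m + 1))) (v : Perm (Fin k)),
      h = Perm.sumCongr u v := by
  have hmaps : Set.MapsTo h (Set.range (Sum.inl : Fin (m + 1) → Fin (m + 1) ⊕ Fin k))
      (Set.range Sum.inl) := by
    rintro _ ⟨i, rfl⟩
    obtain ⟨i', hi⟩ := hb i
    exact ⟨i', hi.symm⟩
  obtain ⟨⟨u, v⟩, huv⟩ := mem_sumCongrHom_range_of_perm_mapsTo_inl hmaps
  exact ⟨u, v, huv.symm⟩

lemma sumCongr_comm_iff {m k : ℕ} (u ρ : Perm (Fin (m + 1))) (v σ : Perm (Fin k)) :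
    Perm.sumCongr u v * Perm.sumCongr ρ σ = Perm.sumCongr ρ σ * Perm.sumCongr u v ↔
      u * ρ = ρ * u ∧ v * σ = σ * v := by
  rw [sumCongr_mul, sumCongr_mul]
  constructor
  · intro h2
    have h3 : sumCongrHom (Fin (m + 1)) (Fin k) (u * ρ, v * σ) =
        sumCongrHom (Fin (m + 1)) (Fin k) (ρ * u, σ * v) := h2
    have h4 := sumCongrHom_injective h3
    exact ⟨congrArg Prod.fst h4, congrArg Prod.snd h4⟩
  · rintro ⟨h1, h2⟩
    rw [h1, h2]

/-- The centraliser of the cycle on the left summand. -/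
lemma sumCongr_one_comm {m k : ℕ} (hm : 1 ≤ m) (h : Perm (Fin (m + 1) ⊕ Fin k))
    (hc : h * (Perm.sumCongr (Equiv.addRight (1 : Fin (m + 1))) (1 : Perm (Fin k))) =
      (Perm.sumCongr (Equiv.addRight (1 : Fin (m + 1))) 1) * h) :
    ∃ (u : Perm (Fin (m + 1))) (v : Perm (Fin k)), h = Perm.sumCongr u v ∧
      u * Equiv.addRight 1 = Equiv.addRight 1 * u := by
  have hrr : ∀ j : Fin k, ∃ j' : Fin k, h (Sum.inr j) = Sum.inr j' := by
    intro j
    rcases hj : h (Sum.inr j) with i | j'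
    · exfalso
      have h1 := congrArg (fun f : Perm (Fin (m + 1) ⊕ Fin k) => f (Sum.inr j)) hc
      simp only [Perm.mul_apply, Equiv.sumCongr_apply, Sum.map_inr, Perm.one_apply, hj, Sum.map_inl,
        Sum.inl.injEq, Equiv.coe_addRight] at h1
      have h2 : (1 : Fin (m + 1)) = 0 := by
        rw [eq_comm, add_eq_left] at h1
        exact h1
      have h3 := congrArg Fin.val h2
      rw [Fin.val_one', Nat.mod_eq_of_lt (by omega)] at h3
      simp at h3
    · exact ⟨j', rfl⟩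
  choose f hf using hrr
  have hfinj : Function.Injective f := by
    intro a b hab
    have : h (Sum.inr a) = h (Sum.inr b) := by rw [hf, hf, hab]
    exact Sum.inr_injective (h.injective this)
  have hfsurj : Function.Surjective f := Finite.injective_iff_surjective.mp hfinj
  obtain ⟨u, v, rfl⟩ := exists_sumCongr h (by
    intro i
    rcases hi : h (Sum.inl i) with i' | j
    · exact ⟨i', rfl⟩
    · exfalso
      obtain ⟨j', rfl⟩ := hfsurj j
      rw [← hf j'] at hi
      have := h.injective hi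
      cases this)
  exact ⟨u, v, rfl, ((sumCongr_comm_iff _ _ _ _).mp hc).1⟩

lemma sumCongr_pow {m k : ℕ} (ρ : Perm (Fin (m + 1))) (σ : Perm (Fin k)) (e : ℕ) :
    (Perm.sumCongr ρ σ) ^ e = Perm.sumCongr (ρ ^ e) (σ ^ e) := by
  induction e with
  | zero => ext x; rcases x with x | x <;> simp
  | succ e ih => rw [pow_succ, ih, pow_succ, pow_succ, sumCongr_mul]

/-- Members whose right component has order prime to the length of the cycle. -/
lemma block_of_pow {m k : ℕ} (σ : Perm (Fin k)) (e : ℕ) (he : σ ^ (1 + e * (m + 1)) = 1)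
    (h : Perm (Fin (m + 1) ⊕ Fin k))
    (hc : h * (Perm.sumCongr (Equiv.addRight (1 : Fin (m + 1))) σ) =
      (Perm.sumCongr (Equiv.addRight (1 : Fin (m + 1))) σ) * h) :
    h * (Perm.sumCongr (Equiv.addRight (1 : Fin (m + 1))) 1) =
      (Perm.sumCongr (Equiv.addRight (1 : Fin (m + 1))) 1) * h := by
  have h1 : (Equiv.addRight (1 : Fin (m + 1)) : Perm (Fin (m + 1))) ^ (1 + e * (m + 1)) =
      Equiv.addRight (1 : Fin (m + 1)) := by
    ext i
    rw [addRight_pow_apply, Equiv.coe_addRight]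
    congr 2
    apply Fin.ext
    rw [val_nsmul_one, Fin.val_one', Nat.add_mul_mod_self_right]
  have h2 : h * (Perm.sumCongr (Equiv.addRight (1 : Fin (m + 1))) σ) ^ (1 + e * (m + 1)) =
      (Perm.sumCongr (Equiv.addRight (1 : Fin (m + 1))) σ) ^ (1 + e * (m + 1)) * h :=
    Commute.pow_right hc _
  rwa [sumCongr_pow, h1, he] at h2

/-- Members whose right component is a cycle of the same length. -/
lemma block_of_cycle {m k : ℕ} (hm : Even m) (σ : Perm (Fin k))
    (hσ : ∀ v : Perm (Fin k), v * σ = σ * v → sign v = 1)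
    (h : Perm (Fin (m + 1) ⊕ Fin k)) (hs : sign h = 1)
    (hc : h * (Perm.sumCongr (Equiv.addRight (1 : Fin (m + 1))) σ) =
      (Perm.sumCongr (Equiv.addRight (1 : Fin (m + 1))) σ) * h) :
    h * (Perm.sumCongr (Equiv.addRight (1 : Fin (m + 1))) 1) =
      (Perm.sumCongr (Equiv.addRight (1 : Fin (m + 1))) 1) * h := by
  set ρ : Perm (Fin (m + 1)) := Equiv.addRight (1 : Fin (m + 1)) with hρ
  by_cases hb : ∃ i₀ j₀, h (Sum.inl i₀) = Sum.inr j₀
  · exfalso
    obtain ⟨i₀, j₀, h₀⟩ := hb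
    have hall : ∀ i, ∃ y, h (Sum.inl i) = Sum.inr y := by
      intro i
      have hck : h * (Perm.sumCongr ρ σ) ^ (i - i₀).val = (Perm.sumCongr ρ σ) ^ (i - i₀).val * h :=
        Commute.pow_right hc _
      rw [sumCongr_pow] at hck
      have h1 := congrArg (fun f : Perm (Fin (m + 1) ⊕ Fin k) => f (Sum.inl i₀)) hck
      simp only [Perm.mul_apply, Equiv.sumCongr_apply, Sum.map_inl, h₀, Sum.map_inr] at h1
      rw [hρ, addRight_pow_apply] at h1
      have h2 : i₀ + (i - i₀).val • (1 : Fin (m + 1)) = i := by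
        have : (i - i₀).val • (1 : Fin (m + 1)) = i - i₀ := by
          apply Fin.ext
          rw [val_nsmul_one, Nat.mod_eq_of_lt (i - i₀).2]
        rw [this]
        abel
      rw [h2] at h1
      exact ⟨_, h1⟩
    choose j hj using hall
    have hjinj : Function.Injective j := by
      intro a b hab
      have : h (Sum.inl a) = h (Sum.inl b) := by rw [hj, hj, hab]
      exact Sum.inl_injective (h.injective this)
    have hjρ : ∀ i, j (ρ i) = σ (j i) := by
      intro i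
      have h1 := congrArg (fun f : Perm (Fin (m + 1) ⊕ Fin k) => f (Sum.inl i)) hc
      simp only [Perm.mul_apply, Equiv.sumCongr_apply, Sum.map_inl, hj, Sum.map_inr,
        Sum.inr.injEq] at h1
      exact h1
    obtain ⟨s, s1, s2, s3, s4⟩ := exists_swap j hjinj
    have hsc : s * Perm.sumCongr ρ σ = Perm.sumCongr ρ σ * s := by
      apply Equiv.ext
      intro x
      rw [Perm.mul_apply, Perm.mul_apply]
      rcases x with i | y
      · rw [s1, Equiv.sumCongr_apply, Equiv.sumCongr_apply, Sum.map_inl, Sum.map_inr, s1, hjρ]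
      · by_cases h : ∃ i, j i = y
        · obtain ⟨i, rfl⟩ := h
          rw [s2, Equiv.sumCongr_apply, Equiv.sumCongr_apply, Sum.map_inl, Sum.map_inr, ← hjρ, s2]
        · push Not at h
          have h' : ∀ i, j i ≠ σ y := by
            intro i hi
            apply h (ρ.symm i)
            apply σ.injective
            rw [← hjρ, Equiv.apply_symm_apply, hi]
          rw [s3 y h, Equiv.sumCongr_apply, Sum.map_inr, s3 _ h']
    have hsh : (s * h) * Perm.sumCongr ρ σ = Perm.sumCongr ρ σ * (s * h) := by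
      rw [mul_assoc, hc, ← mul_assoc, hsc, mul_assoc]
    have hfix : ∀ i, (s * h) (Sum.inl i) = Sum.inl i := by
      intro i
      rw [Perm.mul_apply, hj, s2]
    obtain ⟨u, v, huv⟩ := exists_sumCongr (s * h) (fun i => ⟨i, hfix i⟩)
    have hu : u = 1 := by
      ext i
      have := hfix i
      rw [huv, Equiv.sumCongr_apply, Sum.map_inl, Sum.inl.injEq] at this
      rw [this]
      rfl
    have hv : sign v = 1 := by
      apply hσ
      rw [huv] at hsh
      exact ((sumCongr_comm_iff _ _ _ _).mp hsh).2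
    have hsign := congrArg sign huv
    rw [map_mul, hs, s4, sign_sumCongr, hu, hv, map_one, mul_one, mul_one, pow_succ,
      hm.neg_one_pow, one_mul] at hsign
    exact absurd hsign (by decide)
  · push Not at hb
    obtain ⟨u, v, rfl⟩ := exists_sumCongr h (by
      intro i
      rcases hi : h (Sum.inl i) with i' | j
      · exact ⟨i', rfl⟩
      · exact absurd hi (hb i j))
    have h1 := (sumCongr_comm_iff _ _ _ _).mp hc
    exact (sumCongr_comm_iff _ _ _ _).mpr ⟨h1.1, by simp⟩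

theorem isPart_alt' {m k : ℕ} (hm1 : 1 ≤ m) (hm : Even m) (S : Finset (Perm (Fin k)))
    (hS : ∀ σ ∈ S, sign σ = 1) (hne : S.Nonempty)
    (hdec1 : ∀ v : Perm (Fin k), sign v = 1 → (∀ σ ∈ S, v * σ = σ * v) ∨
      (∃ σ ∈ S, v * σ = σ * v ∧ ∀ τ ∈ S, v * τ = τ * v → τ = σ))
    (hdec2 : ∀ σ ∈ S, ∃ τ ∈ S, σ * τ ≠ τ * σ)
    (hblock : ∀ σ ∈ S, (∃ e : ℕ, σ ^ (1 + e * (m + 1)) = 1) ∨
      (∀ v : Perm (Fin k), v * σ = σ * v → sign v = 1)) :
    ∃ (g₀ : alternatingGroup (Fin (m + 1) ⊕ Fin k))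
      (A : Finset (alternatingGroup (Fin (m + 1) ⊕ Fin k))), A.card = S.card ∧ IsPart g₀ A := by
  classical
  set ρ : Perm (Fin (m + 1)) := Equiv.addRight (1 : Fin (m + 1)) with hρ
  have hmem : ∀ σ : Perm (Fin k), sign σ = 1 →
      Perm.sumCongr ρ σ ∈ alternatingGroup (Fin (m + 1) ⊕ Fin k) := by
    intro σ hσ
    rw [mem_alternatingGroup, sign_sumCongr, hσ, mul_one]
    exact sign_addRight hm
  have hinj : Function.Injective (fun σ : Perm (Fin k) => Perm.sumCongr ρ σ) := by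
    intro σ τ h
    have h1 : sumCongrHom (Fin (m + 1)) (Fin k) (ρ, σ) =
        sumCongrHom (Fin (m + 1)) (Fin k) (ρ, τ) := h
    exact congrArg Prod.snd (sumCongrHom_injective h1)
  let f : {σ // σ ∈ S} → alternatingGroup (Fin (m + 1) ⊕ Fin k) :=
    fun σ => ⟨Perm.sumCongr ρ σ.1, hmem σ.1 (hS σ.1 σ.2)⟩
  have hfinj : Function.Injective f := by
    intro σ τ h
    exact Subtype.ext (hinj (congrArg Subtype.val h))
  have hmemA : ∀ a, a ∈ S.attach.map ⟨f, hfinj⟩ ↔ ∃ σ, ∃ hσ : σ ∈ S, f ⟨σ, hσ⟩ = a := by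
    intro a
    simp
  refine ⟨⟨Perm.sumCongr ρ 1, hmem 1 (map_one _)⟩, S.attach.map ⟨f, hfinj⟩, ?_, ?_, ?_, ?_, ?_⟩
  · rw [Finset.card_map, Finset.card_attach]
  · rw [Finset.map_nonempty]
    exact Finset.attach_nonempty_iff.mpr hne
  · intro a ha h hc
    obtain ⟨σ, hσ, rfl⟩ := (hmemA a).mp ha
    have hc' : h.1 * Perm.sumCongr ρ σ = Perm.sumCongr ρ σ * h.1 :=
      congrArg Subtype.val hc
    apply Subtype.ext
    rcases hblock σ hσ with ⟨e, he⟩ | hv
    · exact block_of_pow σ e he h.1 hc'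
    · exact block_of_cycle hm σ hv h.1 (mem_alternatingGroup.mp h.2) hc'
  · intro a ha
    obtain ⟨σ, hσ, rfl⟩ := (hmemA a).mp ha
    obtain ⟨τ, hτ, hne⟩ := hdec2 σ hσ
    refine ⟨f ⟨τ, hτ⟩, (hmemA _).mpr ⟨τ, hτ, rfl⟩, ?_⟩
    intro h
    apply hne
    have h' : Perm.sumCongr ρ σ * Perm.sumCongr ρ τ = Perm.sumCongr ρ τ * Perm.sumCongr ρ σ :=
      congrArg Subtype.val h
    exact ((sumCongr_comm_iff _ _ _ _).mp h').2
  · intro h hc
    have hc' : h.1 * Perm.sumCongr ρ 1 = Perm.sumCongr ρ 1 * h.1 :=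
      congrArg Subtype.val hc
    obtain ⟨u, v, huv, h1⟩ := sumCongr_one_comm hm1 h.1 hc'
    have hsv : sign v = 1 := by
      have h2 := mem_alternatingGroup.mp h.2
      rw [huv, sign_sumCongr, sign_of_comm hm u h1, one_mul] at h2
      exact h2
    have hcomm : ∀ σ (hσ : σ ∈ S), (h * f ⟨σ, hσ⟩ = f ⟨σ, hσ⟩ * h) ↔ v * σ = σ * v := by
      intro σ hσ
      constructor
      · intro h2
        have h2' : h.1 * Perm.sumCongr ρ σ = Perm.sumCongr ρ σ * h.1 :=
          congrArg Subtype.val h2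
        rw [huv] at h2'
        exact ((sumCongr_comm_iff _ _ _ _).mp h2').2
      · intro h2
        apply Subtype.ext
        show h.1 * Perm.sumCongr ρ σ = Perm.sumCongr ρ σ * h.1
        rw [huv]
        exact (sumCongr_comm_iff _ _ _ _).mpr ⟨h1, h2⟩
    rcases hdec1 v hsv with hall | ⟨σ, hσ, hσv, huniq⟩
    · left
      intro a ha
      obtain ⟨σ, hσ, rfl⟩ := (hmemA a).mp ha
      exact (hcomm σ hσ).mpr (hall σ hσ)
    · right
      refine ⟨f ⟨σ, hσ⟩, ⟨(hmemA _).mpr ⟨σ, hσ, rfl⟩, (hcomm σ hσ).mpr hσv⟩, ?_⟩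
      rintro b ⟨hb, hbc⟩
      obtain ⟨τ, hτ, rfl⟩ := (hmemA b).mp hb
      have := huniq τ hτ ((hcomm τ hτ).mp hbc)
      subst this
      rfl

theorem isPart_alt_one {k : ℕ} (S : Finset (Perm (Fin k)))
    (hS : ∀ σ ∈ S, sign σ = 1) (hne : S.Nonempty)
    (hdec1 : ∀ v : Perm (Fin k), sign v = 1 → (∀ σ ∈ S, v * σ = σ * v) ∨
      (∃ σ ∈ S, v * σ = σ * v ∧ ∀ τ ∈ S, v * τ = τ * v → τ = σ))
    (hdec2 : ∀ σ ∈ S, ∃ τ ∈ S, σ * τ ≠ τ * σ) :
    ∃ (A : Finset (alternatingGroup (Fin k))), A.card = S.card ∧ IsPart 1 A := by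
  classical
  let f : {σ // σ ∈ S} → alternatingGroup (Fin k) :=
    fun σ => ⟨σ.1, mem_alternatingGroup.mpr (hS σ.1 σ.2)⟩
  have hfinj : Function.Injective f := by
    intro σ τ h
    have h1 : (f σ).1 = (f τ).1 := congrArg Subtype.val h
    exact Subtype.ext h1
  have hmemA : ∀ a, a ∈ S.attach.map ⟨f, hfinj⟩ ↔ ∃ σ, ∃ hσ : σ ∈ S, f ⟨σ, hσ⟩ = a := by
    intro a
    simp
  refine ⟨S.attach.map ⟨f, hfinj⟩, ?_, ?_, ?_, ?_, ?_⟩
  · rw [Finset.card_map, Finset.card_attach]
  · rw [Finset.map_nonempty]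
    exact Finset.attach_nonempty_iff.mpr hne
  · intro a _ h _
    rw [mul_one, one_mul]
  · intro a ha
    obtain ⟨σ, hσ, rfl⟩ := (hmemA a).mp ha
    obtain ⟨τ, hτ, hne⟩ := hdec2 σ hσ
    exact ⟨f ⟨τ, hτ⟩, (hmemA _).mpr ⟨τ, hτ, rfl⟩, fun h => hne (congrArg Subtype.val h)⟩
  · intro h _
    have hcomm : ∀ σ (hσ : σ ∈ S), (h * f ⟨σ, hσ⟩ = f ⟨σ, hσ⟩ * h) ↔ h.1 * σ = σ * h.1 := by
      intro σ hσ
      exact ⟨fun h2 => congrArg Subtype.val h2, fun h2 => Subtype.ext h2⟩
    rcases hdec1 h.1 (mem_alternatingGroup.mp h.2) with hall | ⟨σ, hσ, hσv, huniq⟩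
    · left
      intro a ha
      obtain ⟨σ, hσ, rfl⟩ := (hmemA a).mp ha
      exact (hcomm σ hσ).mpr (hall σ hσ)
    · right
      refine ⟨f ⟨σ, hσ⟩, ⟨(hmemA _).mpr ⟨σ, hσ, rfl⟩, (hcomm σ hσ).mpr hσv⟩, ?_⟩
      rintro b ⟨hb, hbc⟩
      obtain ⟨τ, hτ, rfl⟩ := (hmemA b).mp hb
      have := huniq τ hτ ((hcomm τ hτ).mp hbc)
      subst this
      rfl

lemma A4_block : ∀ σ ∈ A4set, (σ ^ (1 + 1 * (2 + 1)) = 1) ∨
    (∀ v : Perm (Fin 4), v * σ = σ * v → sign v = 1) := by
  unfold A4set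
  decide +kernel

lemma A5_block : ∀ σ ∈ A5set, (σ ^ (1 + 1 * (4 + 1)) = 1) ∨
    (∀ v : Perm (Fin 5), v * σ = σ * v → sign v = 1) := by
  unfold A5set
  decide +kernel

/-- The prime two lies in the conductor of the alternating groups of degree at least four and
different from six and eight. -/
theorem two_mem_Ccomm_alt' {n : ℕ} (hn : 4 ≤ n) (hn6 : n ≠ 6) (hn8 : n ≠ 8) :
    2 ∈ Ccomm (alternatingGroup (Fin n)) := by
  have h : n = 4 ∨ n = 5 ∨ n = 7 ∨ n = 10 ∨ (n = 9 ∨ 11 ≤ n) := by omega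
  rcases h with rfl | rfl | rfl | rfl | h
  · obtain ⟨A, hA, h2, h3, h4, h5⟩ := isPart_alt_one A4set A4_sign
      (Finset.card_pos.mp (by rw [A4_card]; norm_num)) A4_dec A4_dec2
    apply mem_Ccomm_of_partition _ _ h2 h3 h4 h5 Nat.prime_two
    rw [hA, A4_card]
    norm_num
  · obtain ⟨A, hA, h2, h3, h4, h5⟩ := isPart_alt_one A5set A5_sign
      (Finset.card_pos.mp (by rw [A5_card]; norm_num)) A5_dec A5_dec2
    apply mem_Ccomm_of_partition _ _ h2 h3 h4 h5 Nat.prime_two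
    rw [hA, A5_card]
    norm_num
  · obtain ⟨g₀, A, hA, hP⟩ := isPart_alt' (m := 2) (k := 4) (by omega) (by decide) A4set A4_sign
      (Finset.card_pos.mp (by rw [A4_card]; norm_num)) A4_dec A4_dec2 (by
        intro σ hσ
        rcases A4_block σ hσ with h | h
        · exact Or.inl ⟨1, h⟩
        · exact Or.inr h)
    obtain ⟨h2, h3, h4, h5⟩ := hP.map (Equiv.altCongrHom (finSumFinEquiv (m := 2 + 1) (n := 4)))
    apply mem_Ccomm_of_partition _ _ h2 h3 h4 h5 Nat.prime_two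
    rw [Finset.card_map, hA, A4_card]
    norm_num
  · obtain ⟨g₀, A, hA, hP⟩ := isPart_alt' (m := 4) (k := 5) (by omega) (by decide) A5set A5_sign
      (Finset.card_pos.mp (by rw [A5_card]; norm_num)) A5_dec A5_dec2 (by
        intro σ hσ
        rcases A5_block σ hσ with h | h
        · exact Or.inl ⟨1, h⟩
        · exact Or.inr h)
    obtain ⟨h2, h3, h4, h5⟩ := hP.map (Equiv.altCongrHom (finSumFinEquiv (m := 4 + 1) (n := 5)))
    apply mem_Ccomm_of_partition _ _ h2 h3 h4 h5 Nat.prime_two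
    rw [Finset.card_map, hA, A5_card]
    norm_num
  · exact two_mem_Ccomm_alt h

end MP5fbfc2
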