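import Mathlib
import Pool.Agent.Lib.MP_5fbfc2_al.LP.Partition

/-!
# Groups in which commuting elements have a common centraliser element
-/

namespace MP5fbfc2

theorem nonempty_of_closed {G : Type*} [Group G] [Finite G]
    (hG : ∀ g a : G, g * a = a * g → ∃ c, Subgroup.centralizer {c} =
      Subgroup.centralizer {g} ⊓ Subgroup.centralizer {a})
    (hna : ∃ x y : G, x * y ≠ y * x) : (Ccomm G).Nonempty := by
  classical
  -- elements with non-abelian centraliser
  let S : Set G := {g | ∃ x y, x * g = g * x ∧ y * g = g * y ∧ x * y ≠ y * x}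
  have hS : S.Nonempty := by
    obtain ⟨x, y, hxy⟩ := hna
    exact ⟨1, x, y, by simp, by simp, hxy⟩
  obtain ⟨g₀, hg₀, hmin⟩ := S.toFinite.exists_minimalFor
    (fun g => Nat.card (Subgroup.centralizer ({g} : Set G))) S hS
  have hmem : ∀ g h : G, h ∈ Subgroup.centralizer ({g} : Set G) ↔ h * g = g * h :=
    fun g h => Subgroup.mem_centralizer_singleton_iff
  -- the elements of C(g₀) which are not central there
  choose c hc using fun a : {a : G // a * g₀ = g₀ * a} => hG g₀ a.1 a.2.symm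
  have hc' : ∀ (a : {a : G // a * g₀ = g₀ * a}) (h : G), h * c a = c a * h ↔
      (h * g₀ = g₀ * h ∧ h * a.1 = a.1 * h) := by
    intro a h
    rw [← hmem, hc a, Subgroup.mem_inf, hmem, hmem]
  let NC : G → Prop := fun a => ∃ h, h * g₀ = g₀ * h ∧ h * a ≠ a * h
  have habel : ∀ a : {a : G // a * g₀ = g₀ * a}, NC a.1 → ∀ x y, x * c a = c a * x →
      y * c a = c a * y → x * y = y * x := by
    rintro a ⟨h, hh1, hh2⟩ x y hx hy
    by_contra hxy
    have h1 : c a ∈ S := ⟨x, y, hx, hy, hxy⟩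
    have h2 : Nat.card (Subgroup.centralizer ({c a} : Set G)) <
        Nat.card (Subgroup.centralizer ({g₀} : Set G)) := by
      have hlt : Subgroup.centralizer ({c a} : Set G) < Subgroup.centralizer ({g₀} : Set G) := by
        refine lt_of_le_of_ne (by rw [hc a]; exact inf_le_left) ?_
        intro heq
        have h3 : h ∈ Subgroup.centralizer ({c a} : Set G) := by
          rw [heq, hmem]
          exact hh1
        rw [hmem, hc' a] at h3
        exact hh2 h3.2
      exact Set.ncard_lt_ncard hlt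
    have h3 := hmin h1 h2.le
    exact absurd h3 (not_le.mpr h2)
  -- the family
  let T : Set (Subgroup G) := {K | ∃ a : {a : G // a * g₀ = g₀ * a}, NC a.1 ∧
    Subgroup.centralizer ({c a} : Set G) = K}
  choose r hrN hr using fun K : T => K.2
  have hinj : Function.Injective (fun K : T => c (r K)) := by
    intro K K' h
    apply Subtype.ext
    rw [← hr K, ← hr K']
    have h' : c (r K) = c (r K') := h
    rw [h']
  let _ : Fintype T := Fintype.ofFinite T
  let A : Finset G := Finset.univ.map ⟨fun K : T => c (r K), hinj⟩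
  have hA : ∀ a, a ∈ A ↔ ∃ K : T, c (r K) = a := by
    intro a
    simp [A]
  -- an element of C(g₀) which is not central there lies in exactly one member
  have hself : ∀ a : {a : G // a * g₀ = g₀ * a}, a.1 * c a = c a * a.1 := by
    intro a
    exact (hc' a a.1).mpr ⟨a.2, rfl⟩
  have hcsub : ∀ a : {a : G // a * g₀ = g₀ * a}, c a * g₀ = g₀ * c a := by
    intro a
    exact ((hc' a (c a)).mp rfl).1
  have huniq : ∀ (a : {a : G // a * g₀ = g₀ * a}) (h : G) (hh : h * g₀ = g₀ * h), NC h → NC a.1 →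
      h * c a = c a * h → Subgroup.centralizer ({c ⟨h, hh⟩} : Set G) =
        Subgroup.centralizer ({c a} : Set G) := by
    intro a h hh hNh hNa hcomm
    apply le_antisymm
    · intro x hx
      rw [hmem] at hx ⊢
      have h1 := (hc' ⟨h, hh⟩ x).mp hx
      have h2 : a.1 * h = h * a.1 := habel a hNa _ _ (hself a) hcomm
      have h3 : a.1 * c ⟨h, hh⟩ = c ⟨h, hh⟩ * a.1 := (hc' ⟨h, hh⟩ a.1).mpr ⟨a.2, h2⟩
      have h4 := habel ⟨h, hh⟩ hNh x a.1 hx h3
      exact (hc' a x).mpr ⟨h1.1, h4⟩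
    · intro x hx
      rw [hmem] at hx ⊢
      have h1 := (hc' a x).mp hx
      exact (hc' ⟨h, hh⟩ x).mpr ⟨h1.1, habel a hNa x h hx hcomm⟩
  have hex : ∀ (h : G) (hh : h * g₀ = g₀ * h), NC h → ∃ K : T, h * c (r K) = c (r K) * h := by
    intro h hh hNh
    refine ⟨⟨Subgroup.centralizer ({c ⟨h, hh⟩} : Set G), ⟨h, hh⟩, hNh, rfl⟩, ?_⟩
    have h1 := hr ⟨Subgroup.centralizer ({c ⟨h, hh⟩} : Set G), ⟨h, hh⟩, hNh, rfl⟩
    have h2 : h ∈ Subgroup.centralizer ({c ⟨h, hh⟩} : Set G) := (hmem _ _).mpr (hself ⟨h, hh⟩)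
    exact (hmem _ _).mp (h1 ▸ h2)
  obtain ⟨x₀, y₀, hx₀, hy₀, hxy₀⟩ := hg₀
  have hNx₀ : NC x₀ := ⟨y₀, hy₀, fun h => hxy₀ h.symm⟩
  have hAne : A.Nonempty := by
    obtain ⟨K, _⟩ := hex x₀ hx₀ hNx₀
    exact ⟨_, (hA _).mpr ⟨K, rfl⟩⟩
  have hP1 : ∀ a ∈ A, ∀ h, h * a = a * h → h * g₀ = g₀ * h := by
    intro a ha h hh
    obtain ⟨K, rfl⟩ := (hA a).mp ha
    exact ((hc' _ h).mp hh).1
  have hP2 : ∀ a ∈ A, ∃ b ∈ A, a * b ≠ b * a := by
    intro a ha
    obtain ⟨K, rfl⟩ := (hA a).mp ha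
    by_contra hcon
    push Not at hcon
    obtain ⟨h, hh1, hh2⟩ := hrN K
    -- h is not central in C(g₀), so it commutes with some member
    have hNh : NC h := ⟨(r K).1, (r K).2, fun h' => hh2 h'.symm⟩
    obtain ⟨K', hK'⟩ := hex h hh1 hNh
    have h1 := hcon (c (r K')) ((hA _).mpr ⟨K', rfl⟩)
    -- c (r K') commutes with r K
    have h2 : c (r K') * (r K).1 = (r K).1 * c (r K') := ((hc' (r K) _).mp h1.symm).2
    exact hh2 (habel (r K') (hrN K') h (r K).1 hK' h2.symm)
  have hP3 : ∀ h, h * g₀ = g₀ * h → (∀ a ∈ A, h * a = a * h) ∨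
      (∃! a, a ∈ A ∧ h * a = a * h) := by
    intro h hh
    by_cases hNh : NC h
    · right
      obtain ⟨K, hK⟩ := hex h hh hNh
      refine ⟨c (r K), ⟨(hA _).mpr ⟨K, rfl⟩, hK⟩, ?_⟩
      rintro b ⟨hb, hbh⟩
      obtain ⟨K', rfl⟩ := (hA b).mp hb
      have h1 := huniq (r K) h hh hNh (hrN K) hK
      have h2 := huniq (r K') h hh hNh (hrN K') hbh
      rw [hr K] at h1
      rw [hr K'] at h2
      have : K' = K := Subtype.ext (h2.symm.trans h1)
      rw [this]
    · left
      intro a ha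
      obtain ⟨K, rfl⟩ := (hA a).mp ha
      by_contra hcon
      exact hNh ⟨c (r K), hcsub _, fun h' => hcon h'.symm⟩
  have hcard := three_le_card g₀ A hAne hP1 hP2 hP3
  obtain ⟨p, hp, hpd⟩ := Nat.exists_prime_and_dvd (n := A.card - 1) (by omega)
  exact ⟨p, mem_Ccomm_of_partition g₀ A hAne hP1 hP2 hP3 hp hpd⟩

end MP5fbfc2
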