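import Mathlib
import Pool.Agent.Lib.MP_5fbfc2_al.LP.Closed

/-!
# Groups in which commuting elements generate cyclic subgroups
-/

namespace MP5fbfc2

theorem nonempty_of_cyclic_pairs {G : Type*} [Group G] [Finite G]
    (hG : ∀ g a : G, g * a = a * g → IsCyclic (Subgroup.closure ({g, a} : Set G)))
    (hna : ∃ x y : G, x * y ≠ y * x) : (Ccomm G).Nonempty := by
  apply nonempty_of_closed _ hna
  intro g a hga
  have h := hG g a hga
  rw [Subgroup.isCyclic_iff_exists_zpowers_eq_top] at h
  obtain ⟨c, hc⟩ := h
  refine ⟨c, ?_⟩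
  have hcl : ∀ S : Set G, Subgroup.centralizer (Subgroup.closure S : Set G) =
      Subgroup.centralizer S := fun S => Subgroup.centralizer_closure S
  have h1 : Subgroup.centralizer ({c} : Set G) =
      Subgroup.centralizer (Subgroup.zpowers c : Set G) := by
    rw [Subgroup.zpowers_eq_closure, hcl]
  rw [h1, hc, hcl]
  ext x
  simp only [Subgroup.mem_inf, Subgroup.mem_centralizer_iff, Set.mem_insert_iff,
    Set.mem_singleton_iff, forall_eq_or_imp, forall_eq]

theorem nonempty_of_isZGroup {G : Type*} [Group G] [Finite G] [IsZGroup G]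
    (hna : ∃ x y : G, x * y ≠ y * x) : (Ccomm G).Nonempty := by
  apply nonempty_of_cyclic_pairs _ hna
  intro g a hga
  have hcomm : ∀ x ∈ ({g, a} : Set G), ∀ y ∈ ({g, a} : Set G), x * y = y * x := by
    intro x hx y hy
    rw [Set.mem_insert_iff, Set.mem_singleton_iff] at hx hy
    rcases hx with rfl | rfl <;> rcases hy with rfl | rfl
    · rfl
    · exact hga
    · exact hga.symm
    · rfl
  have h1 : IsMulCommutative (Subgroup.closure ({g, a} : Set G)) :=
    Subgroup.isMulCommutative_closure hcomm
  have h2 : Group.IsNilpotent (Subgroup.closure ({g, a} : Set G)) := by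
    open scoped IsMulCommutative in
    infer_instance
  infer_instance

end MP5fbfc2
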