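import Mathlib
import Pool.Agent.Lib.MP_5fbfc2_al.LP.Partition

/-!
# Frobenius groups
-/

namespace MP5fbfc2

variable {G : Type*} [Group G]

/-- Outside the kernel every element is conjugate to an element of the complement. -/
lemma exists_conj_of_not_mem [Finite G] (N H : Subgroup G) [N.Normal] (hNH : N.IsComplement' H)
    (hF : ∀ h ∈ H, h ≠ 1 → ∀ n ∈ N, h * n = n * h → n = 1) {g : G} (hg : g ∉ N) :
    ∃ x ∈ N, ∃ h ∈ H, h ≠ 1 ∧ g = x * h * x⁻¹ := by
  obtain ⟨⟨m, h⟩, hmh⟩ := hNH.surjective g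
  have hmh' : (m : G) * h = g := hmh
  have hh : (h : G) ≠ 1 := by
    intro h1
    apply hg
    rw [← hmh', h1, mul_one]
    exact m.2
  let f : N → N := fun x => ⟨x * (h * (x : G)⁻¹ * (h : G)⁻¹),
    N.mul_mem x.2 (Subgroup.Normal.conj_mem ‹_› _ (N.inv_mem x.2) _)⟩
  have hf : Function.Injective f := by
    intro x y hxy
    have h1 : (x : G) * (h * (x : G)⁻¹ * (h : G)⁻¹) = y * (h * (y : G)⁻¹ * (h : G)⁻¹) :=
      congrArg Subtype.val hxy
    have h2 : (y : G)⁻¹ * x * h = h * ((y : G)⁻¹ * x) := by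
      have h3 : (x : G) * (h * (x : G)⁻¹) = y * (h * (y : G)⁻¹) := by
        have := congrArg (fun z => z * (h : G)) h1
        simpa [mul_assoc] using this
      have h4 := congrArg (fun z => (y : G)⁻¹ * z * x) h3
      simpa [mul_assoc] using h4
    have h5 := hF h h.2 hh ((y : G)⁻¹ * x) (N.mul_mem (N.inv_mem y.2) x.2) h2.symm
    apply Subtype.ext
    rw [inv_mul_eq_one] at h5
    exact h5.symm
  obtain ⟨x, hx⟩ := (Finite.injective_iff_surjective.mp hf) m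
  refine ⟨x, x.2, h, h.2, hh, ?_⟩
  have h6 : (x : G) * (h * (x : G)⁻¹ * (h : G)⁻¹) = m := congrArg Subtype.val hx
  rw [← hmh', ← h6]
  simp [mul_assoc]

lemma mem_kernel_of_comm [Finite G] (N H : Subgroup G) [N.Normal] (hNH : N.IsComplement' H)
    (hF : ∀ h ∈ H, h ≠ 1 → ∀ n ∈ N, h * n = n * h → n = 1) {n g : G} (hn : n ∈ N) (hn1 : n ≠ 1)
    (hng : g * n = n * g) : g ∈ N := by
  by_contra hg
  obtain ⟨x, hx, h, hh, hh1, rfl⟩ := exists_conj_of_not_mem N H hNH hF hg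
  have h1 : h * (x⁻¹ * n * x) = (x⁻¹ * n * x) * h := by
    have := congrArg (fun z => x⁻¹ * z * x) hng
    simpa [mul_assoc] using this
  have h2 := hF h hh hh1 (x⁻¹ * n * x) (by
    have := Subgroup.Normal.conj_mem ‹N.Normal› n hn x⁻¹
    simpa using this) h1
  apply hn1
  have h3 := congrArg (fun z => x * z * x⁻¹) h2
  simpa [mul_assoc] using h3

lemma mem_complement_of_comm (N H : Subgroup G) [N.Normal] (hNH : N.IsComplement' H)
    (hF : ∀ h ∈ H, h ≠ 1 → ∀ n ∈ N, h * n = n * h → n = 1) {h g : G} (hh : h ∈ H) (hh1 : h ≠ 1)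
    (hgh : g * h = h * g) : g ∈ H := by
  obtain ⟨⟨m, k⟩, hmk⟩ := hNH.surjective g
  have hmk' : (m : G) * k = g := hmk
  rw [← hmk'] at hgh
  have h1 : (⟨m, k * ⟨h, hh⟩⟩ : N × H) = ⟨⟨h * m * h⁻¹, Subgroup.Normal.conj_mem ‹_› _ m.2 _⟩,
      ⟨h, hh⟩ * k⟩ := by
    apply hNH.injective
    show (m : G) * (k * h) = (h * m * h⁻¹) * (h * k)
    simp only [mul_assoc] at hgh ⊢
    simpa using hgh
  have h2 : (m : G) = h * m * h⁻¹ := congrArg (fun z : N × H => (z.1 : G)) h1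
  have h3 : h * (m : G) = m * h := by
    have := congrArg (fun z => z * h) h2
    simp only [inv_mul_cancel_right] at this
    exact this.symm
  have h4 := hF h hh hh1 m m.2 h3
  rw [← hmk', h4, one_mul]
  exact k.2

theorem mem_Ccomm_of_frobenius [Finite G] (N H : Subgroup G) [N.Normal] (hNH : N.IsComplement' H)
    (hF : ∀ h ∈ H, h ≠ 1 → ∀ n ∈ N, h * n = n * h → n = 1)
    (hN : ∃ n ∈ N, n ≠ 1 ∧ ∀ m ∈ N, n * m = m * n) (hH : ∃ h ∈ H, h ≠ 1 ∧ ∀ k ∈ H, h * k = k * h)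
    {p : ℕ} (hp : p.Prime) (hpN : p ∣ Nat.card N) : p ∈ Ccomm G := by
  classical
  obtain ⟨n₀, hn₀, hn1, hnc⟩ := hN
  obtain ⟨h₀, hh₀, hh1, hhc⟩ := hH
  have hdisj : ∀ g : G, g ∈ N → g ∈ H → g = 1 := by
    intro g hgN hgH
    have h1 : (⟨⟨g, hgN⟩, 1⟩ : N × H) = ⟨1, ⟨g, hgH⟩⟩ := by
      apply hNH.injective
      show (g : G) * (1 : G) = 1 * g
      simp
    exact congrArg (fun z : N × H => (z.1 : G)) h1
  have hh₀N : h₀ ∉ N := fun h => hh1 (hdisj h₀ h hh₀)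
  have hconjN : ∀ x ∈ N, x * h₀ * x⁻¹ ∉ N := by
    intro x hx h
    apply hh₀N
    have := Subgroup.Normal.conj_mem ‹N.Normal› _ h x⁻¹
    simpa [mul_assoc] using this
  let c : N → G := fun x => x * h₀ * (x : G)⁻¹
  -- two conjugates by elements of the kernel, one commuting with a conjugate of `k`
  have hkey : ∀ x y : N, ∀ k ∈ H, k ≠ 1 → (x : G) * k * (x : G)⁻¹ * c y = c y * (x * k * (x : G)⁻¹) →
      x = y := by
    intro x y k hk hk1 hcomm
    have h1 : ((x : G)⁻¹ * c y * x) * k = k * ((x : G)⁻¹ * c y * x) := by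
      have := congrArg (fun z => (x : G)⁻¹ * z * x) hcomm
      simp only [mul_assoc, inv_mul_cancel_left, inv_mul_cancel, mul_one] at this ⊢
      exact this.symm
    have h2 := mem_complement_of_comm N H hNH hF hk hk1 h1
    -- the conjugate of h₀ by y' := x⁻¹ y lies in H
    have h3 : (x : G)⁻¹ * c y * x = ((x : G)⁻¹ * y) * h₀ * ((x : G)⁻¹ * y)⁻¹ := by
      simp [c, mul_assoc]
    rw [h3] at h2
    have hyN : (x : G)⁻¹ * y ∈ N := N.mul_mem (N.inv_mem x.2) y.2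
    have h4 : (x : G)⁻¹ * y * h₀ * ((x : G)⁻¹ * y)⁻¹ * h₀⁻¹ = 1 := by
      apply hdisj
      · have h5 : (x : G)⁻¹ * y * h₀ * ((x : G)⁻¹ * y)⁻¹ * h₀⁻¹ =
            ((x : G)⁻¹ * y) * (h₀ * ((x : G)⁻¹ * y)⁻¹ * h₀⁻¹) := by
          simp [mul_assoc]
        rw [h5]
        exact N.mul_mem hyN (Subgroup.Normal.conj_mem ‹_› _ (N.inv_mem hyN) _)
      · exact H.mul_mem h2 (H.inv_mem hh₀)
    have h6 : h₀ * ((x : G)⁻¹ * y) = ((x : G)⁻¹ * y) * h₀ := by
      have h7 := congrArg (fun z => z * h₀ * ((x : G)⁻¹ * y)) h4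
      simp only [inv_mul_cancel_right, one_mul] at h7
      exact h7.symm
    have h8 := hF h₀ hh₀ hh1 _ hyN h6
    rw [inv_mul_eq_one] at h8
    exact Subtype.ext h8
  have hcself : ∀ x : N, ∀ k ∈ H, (x : G) * k * (x : G)⁻¹ * c x = c x * (x * k * (x : G)⁻¹) := by
    intro x k hk
    have h1 := hhc k hk
    simp only [c, mul_assoc, inv_mul_cancel_left]
    rw [← mul_assoc k h₀, ← h1, mul_assoc]
  have hcinj : Function.Injective c := by
    intro x y hxy
    apply hkey x y h₀ hh₀ hh1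
    show c x * c y = c y * c x
    rw [hxy]
  have hcN : ∀ x : N, c x ∉ N := fun x => hconjN x x.2
  let _ : Fintype N := Fintype.ofFinite N
  let A : Finset G := insert n₀ (Finset.univ.map ⟨c, hcinj⟩)
  have hAmem : ∀ a, a ∈ A ↔ a = n₀ ∨ ∃ x : N, c x = a := by
    intro a
    simp [A]
  have hn₀A : n₀ ∉ Finset.univ.map ⟨c, hcinj⟩ := by
    intro h
    rw [Finset.mem_map] at h
    obtain ⟨x, _, hx⟩ := h
    have hx' : c x = n₀ := hx
    exact hcN x (hx' ▸ hn₀)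
  have hcard : A.card = Nat.card N + 1 := by
    rw [Finset.card_insert_of_notMem hn₀A, Finset.card_map, Finset.card_univ,
      Nat.card_eq_fintype_card]
  have hn₀c : ∀ g : G, g * n₀ = n₀ * g → g ∈ N := fun g hg =>
    mem_kernel_of_comm N H hNH hF hn₀ hn1 hg
  apply mem_Ccomm_of_partition 1 A ⟨n₀, (hAmem _).mpr (Or.inl rfl)⟩ _ _ _ hp
  · rw [hcard, Nat.add_sub_cancel]
    exact hpN
  · intro a _ h _
    simp
  · intro a ha
    rcases (hAmem a).mp ha with rfl | ⟨x, rfl⟩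
    · refine ⟨c 1, (hAmem _).mpr (Or.inr ⟨1, rfl⟩), ?_⟩
      intro h
      exact hcN 1 (hn₀c _ h.symm)
    · refine ⟨n₀, (hAmem _).mpr (Or.inl rfl), ?_⟩
      intro h
      exact hcN x (hn₀c _ h)
  · intro g _
    by_cases hg1 : g = 1
    · left
      intro a _
      rw [hg1, one_mul, mul_one]
    · right
      by_cases hgN : g ∈ N
      · refine ⟨n₀, ⟨(hAmem _).mpr (Or.inl rfl), (hnc g hgN).symm⟩, ?_⟩
        rintro b ⟨hb, hbg⟩
        rcases (hAmem b).mp hb with rfl | ⟨x, rfl⟩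
        · rfl
        · exfalso
          exact hcN x (mem_kernel_of_comm N H hNH hF hgN hg1 hbg.symm)
      · obtain ⟨x, hx, k, hk, hk1, rfl⟩ := exists_conj_of_not_mem N H hNH hF hgN
        refine ⟨c ⟨x, hx⟩, ⟨(hAmem _).mpr (Or.inr ⟨_, rfl⟩), hcself ⟨x, hx⟩ k hk⟩, ?_⟩
        rintro b ⟨hb, hbg⟩
        rcases (hAmem b).mp hb with rfl | ⟨y, rfl⟩
        · exfalso
          exact hgN (hn₀c _ hbg)
        · rw [hkey ⟨x, hx⟩ y k hk hk1 hbg]

end MP5fbfc2
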