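import Mathlib
import Pool.Agent.Lib.MP_5fbfc2_al.LP.SymLarge

/-!
# General linear groups over finite fields with at least four elements
-/

namespace MP5fbfc2

open Matrix

variable {F : Type*} [Field F]

/-- Commutation of two by two matrices with `!![x + μ, y; z, μ]`. -/
lemma two_comm_iff (Z : Matrix (Fin 2) (Fin 2) F) (r : Fin 3 → F) (μ : F) :
    Z * !![r 0 + μ, r 1; r 2, μ] = !![r 0 + μ, r 1; r 2, μ] * Z ↔
      ∀ i j, (![Z 0 0 - Z 1 1, Z 0 1, Z 1 0] : Fin 3 → F) i * r j =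
        (![Z 0 0 - Z 1 1, Z 0 1, Z 1 0] : Fin 3 → F) j * r i := by
  constructor
  · intro h
    have h00 := congrFun (congrFun h 0) 0
    have h01 := congrFun (congrFun h 0) 1
    have h10 := congrFun (congrFun h 1) 0
    simp [Matrix.mul_apply, Fin.sum_univ_two] at h00 h01 h10
    intro i j
    fin_cases i <;> fin_cases j <;> simp
    · linear_combination h01
    · linear_combination (-1 : F) * h10
    · linear_combination (-1 : F) * h01
    · linear_combination h00
    · linear_combination h10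
    · linear_combination (-1 : F) * h00
  · intro h
    have h01 := h 0 1
    have h02 := h 0 2
    have h12 := h 1 2
    simp at h01 h02 h12
    ext i j
    fin_cases i <;> fin_cases j <;> simp [Matrix.mul_apply, Fin.sum_univ_two]
    · linear_combination h12
    · linear_combination h01
    · linear_combination (-1 : F) * h02
    · linear_combination (-1 : F) * h12

/-- The cross product relations mean that the points agree. -/
lemma cross_iff (s r : Fin 3 → F) (hs : s ≠ 0) (hr : r ≠ 0) :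
    (∀ i j, s i * r j = s j * r i) ↔
      Projectivization.mk F s hs = Projectivization.mk F r hr := by
  rw [Projectivization.mk_eq_mk_iff']
  constructor
  · intro h
    obtain ⟨i, hi⟩ := Function.ne_iff.mp hr
    refine ⟨s i / r i, ?_⟩
    funext j
    have hi' : r i ≠ 0 := hi
    rw [Pi.smul_apply, smul_eq_mul]
    field_simp
    rw [h i j, mul_comm]
  · rintro ⟨a, rfl⟩ i j
    simp only [Pi.smul_apply, smul_eq_mul]
    ring

variable {m : ℕ}

lemma block_comm_iff (l : F) (b : Matrix (Fin 2) (Fin 2) F)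
    (hb : (b - l • (1 : Matrix (Fin 2) (Fin 2) F)).det ≠ 0)
    (h : Matrix (Fin m ⊕ Fin 2) (Fin m ⊕ Fin 2) F) :
    h * fromBlocks (l • (1 : Matrix (Fin m) (Fin m) F)) 0 0 b =
      fromBlocks (l • (1 : Matrix (Fin m) (Fin m) F)) 0 0 b * h ↔
      ∃ (U : Matrix (Fin m) (Fin m) F) (Z : Matrix (Fin 2) (Fin 2) F),
        h = fromBlocks U 0 0 Z ∧ Z * b = b * Z := by
  constructor
  · intro hc
    rw [← fromBlocks_toBlocks h, fromBlocks_multiply, fromBlocks_multiply, fromBlocks_inj] at hc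
    obtain ⟨_, h2, h3, h4⟩ := hc
    simp only [Matrix.mul_zero, zero_add, Matrix.zero_mul, add_zero, Matrix.smul_mul,
      Matrix.one_mul, Matrix.mul_smul, Matrix.mul_one] at h2 h3 h4
    have hu : IsUnit (b - l • (1 : Matrix (Fin 2) (Fin 2) F)) := by
      rw [Matrix.isUnit_iff_isUnit_det]
      exact isUnit_iff_ne_zero.mpr hb
    obtain ⟨w, hw⟩ := hu
    have h5 : h.toBlocks₁₂ = 0 := by
      have h6 : h.toBlocks₁₂ * (b - l • (1 : Matrix (Fin 2) (Fin 2) F)) = 0 := by
        rw [Matrix.mul_sub, h2, Matrix.mul_smul, Matrix.mul_one, sub_self]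
      rw [← hw] at h6
      have h7 := congrArg (fun X => X * ((w⁻¹ : (Matrix (Fin 2) (Fin 2) F)ˣ) :
        Matrix (Fin 2) (Fin 2) F)) h6
      simpa [Matrix.mul_assoc] using h7
    have h8 : h.toBlocks₂₁ = 0 := by
      have h6 : (b - l • (1 : Matrix (Fin 2) (Fin 2) F)) * h.toBlocks₂₁ = 0 := by
        rw [Matrix.sub_mul, ← h3, Matrix.smul_mul, Matrix.one_mul, sub_self]
      rw [← hw] at h6
      have h7 := congrArg (fun X => ((w⁻¹ : (Matrix (Fin 2) (Fin 2) F)ˣ) :
        Matrix (Fin 2) (Fin 2) F) * X) h6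
      simpa [← Matrix.mul_assoc] using h7
    refine ⟨h.toBlocks₁₁, h.toBlocks₂₂, ?_, h4⟩
    conv_lhs => rw [← fromBlocks_toBlocks h]
    rw [h5, h8]
  · rintro ⟨U, Z, rfl, h1⟩
    rw [fromBlocks_multiply, fromBlocks_multiply]
    simp [h1]

/-- A good translate of a matrix, and a good scalar. -/
lemma exists_translate [Fintype F] (hF : 4 ≤ Fintype.card F) (r : Fin 3 → F) :
    ∃ μ l : F, l ≠ 0 ∧ (!![r 0 + μ, r 1; r 2, μ] : Matrix (Fin 2) (Fin 2) F).det ≠ 0 ∧
      (!![r 0 + μ, r 1; r 2, μ] - l • (1 : Matrix (Fin 2) (Fin 2) F)).det ≠ 0 := by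
  open Polynomial in
  let f1 : F[X] := X ^ 2 + C (r 0) * X + C (-(r 1 * r 2))
  have hm1 : f1.Monic := by
    unfold f1
    monicity!
  have hd1 : f1.natDegree = 2 := by
    unfold f1
    compute_degree!
  obtain ⟨μ, hμ⟩ := Polynomial.exists_eval_ne_zero_of_natDegree_lt_card f1 hm1.ne_zero (by
    rw [Cardinal.mk_fintype]
    have : f1.natDegree < Fintype.card F := by omega
    exact_mod_cast this)
  open Polynomial in
  let f2 : F[X] := X ^ 3 + C (-(r 0 + 2 * μ)) * X ^ 2 + C ((r 0 + μ) * μ - r 1 * r 2) * X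
  have hm2 : f2.Monic := by
    unfold f2
    monicity!
  have hd2 : f2.natDegree = 3 := by
    unfold f2
    compute_degree!
  obtain ⟨l, hl⟩ := Polynomial.exists_eval_ne_zero_of_natDegree_lt_card f2 hm2.ne_zero (by
    rw [Cardinal.mk_fintype]
    have : f2.natDegree < Fintype.card F := by omega
    exact_mod_cast this)
  refine ⟨μ, l, ?_, ?_, ?_⟩
  · rintro rfl
    apply hl
    simp [f2]
  · intro h
    apply hμ
    simp only [f1, Polynomial.eval_add, Polynomial.eval_mul, Polynomial.eval_pow,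
      Polynomial.eval_X, Polynomial.eval_C]
    rw [Matrix.det_fin_two] at h
    simp at h
    linear_combination h
  · intro h
    apply hl
    simp only [f2, Polynomial.eval_add, Polynomial.eval_mul, Polynomial.eval_pow,
      Polynomial.eval_X, Polynomial.eval_C]
    rw [Matrix.det_fin_two] at h
    simp at h
    linear_combination l * h

open scoped Classical in
theorem isPart_block [Fintype F] (hF : 4 ≤ Fintype.card F) (m : ℕ) :
    ∃ (g₀ : GL (Fin m ⊕ Fin 2) F) (A : Finset (GL (Fin m ⊕ Fin 2) F)),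
      A.card = Fintype.card F ^ 2 + Fintype.card F + 1 ∧ IsPart g₀ A := by
  -- a scalar different from zero and one
  obtain ⟨l, hl0, hl1⟩ : ∃ l : F, l ≠ 0 ∧ l ≠ 1 := by
    by_contra hcon
    push Not at hcon
    have hsub : (Finset.univ : Finset F) ⊆ {0, 1} := by
      intro x _
      rw [Finset.mem_insert, Finset.mem_singleton]
      by_cases hx : x = 0
      · exact Or.inl hx
      · exact Or.inr (hcon x hx)
    have h1 := Finset.card_le_card hsub
    have h2 : ({0, 1} : Finset F).card ≤ 2 := Finset.card_le_two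
    rw [Finset.card_univ] at h1
    omega
  choose μ ls hls hμ1 hμ2 using fun r : Fin 3 → F => exists_translate hF r
  let bm : (Fin 3 → F) → Matrix (Fin 2) (Fin 2) F := fun r => !![r 0 + μ r, r 1; r 2, μ r]
  let mk : (x : F) → x ≠ 0 → (b : Matrix (Fin 2) (Fin 2) F) → b.det ≠ 0 →
      GL (Fin m ⊕ Fin 2) F := fun x hx b hb =>
    Matrix.GeneralLinearGroup.mkOfDetNeZero
      (fromBlocks (x • (1 : Matrix (Fin m) (Fin m) F)) 0 0 b) (by
        rw [Matrix.det_fromBlocks_zero₂₁, Matrix.det_smul, Matrix.det_one, mul_one]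
        exact mul_ne_zero (pow_ne_zero _ hx) hb)
  have hmk : ∀ x hx b hb, ((mk x hx b hb : GL (Fin m ⊕ Fin 2) F) : Matrix _ _ F) =
      fromBlocks (x • (1 : Matrix (Fin m) (Fin m) F)) 0 0 b := fun x hx b hb => rfl
  have hcomm : ∀ (h g : GL (Fin m ⊕ Fin 2) F), h * g = g * h ↔
      (h : Matrix (Fin m ⊕ Fin 2) (Fin m ⊕ Fin 2) F) * (g : Matrix _ _ F) =
        (g : Matrix _ _ F) * (h : Matrix _ _ F) := by
    intro h g
    rw [← Units.val_inj, Units.val_mul, Units.val_mul]
  have hone : (1 : Matrix (Fin 2) (Fin 2) F).det ≠ 0 := by simp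
  have hone' : ((1 : Matrix (Fin 2) (Fin 2) F) - l • (1 : Matrix (Fin 2) (Fin 2) F)).det ≠ 0 := by
    have : (1 : Matrix (Fin 2) (Fin 2) F) - l • (1 : Matrix (Fin 2) (Fin 2) F) =
        (1 - l) • (1 : Matrix (Fin 2) (Fin 2) F) := by
      rw [sub_smul, one_smul]
    rw [this, Matrix.det_smul, Matrix.det_one, mul_one]
    exact pow_ne_zero _ (sub_ne_zero.mpr (Ne.symm hl1))
  let a : Projectivization F (Fin 3 → F) → GL (Fin m ⊕ Fin 2) F :=
    fun v => mk (ls v.rep) (hls v.rep) (bm v.rep) (hμ1 v.rep)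
  -- commutation with members of the family
  have hcomma : ∀ (v : Projectivization F (Fin 3 → F)) (h : GL (Fin m ⊕ Fin 2) F),
      h * a v = a v * h ↔ ∃ (U : Matrix (Fin m) (Fin m) F) (Z : Matrix (Fin 2) (Fin 2) F),
        (h : Matrix (Fin m ⊕ Fin 2) (Fin m ⊕ Fin 2) F) = fromBlocks U 0 0 Z ∧
          Z * bm v.rep = bm v.rep * Z := by
    intro v h
    rw [hcomm, hmk (ls v.rep) (hls v.rep) (bm v.rep) (hμ1 v.rep), block_comm_iff (ls v.rep) (bm v.rep) (hμ2 v.rep)]
  have hcomm0 : ∀ (h : GL (Fin m ⊕ Fin 2) F),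
      h * mk l hl0 1 hone = mk l hl0 1 hone * h ↔
        ∃ (U : Matrix (Fin m) (Fin m) F) (Z : Matrix (Fin 2) (Fin 2) F),
        (h : Matrix (Fin m ⊕ Fin 2) (Fin m ⊕ Fin 2) F) = fromBlocks U 0 0 Z := by
    intro h
    rw [hcomm, hmk l hl0 1 hone, block_comm_iff l 1 hone']
    constructor
    · rintro ⟨U, Z, hUZ, _⟩
      exact ⟨U, Z, hUZ⟩
    · rintro ⟨U, Z, hUZ⟩
      exact ⟨U, Z, hUZ, by simp⟩
  -- commutation inside the two by two block
  have hZ : ∀ (Z : Matrix (Fin 2) (Fin 2) F) (v : Projectivization F (Fin 3 → F))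
      (hs : (![Z 0 0 - Z 1 1, Z 0 1, Z 1 0] : Fin 3 → F) ≠ 0),
      Z * bm v.rep = bm v.rep * Z ↔ Projectivization.mk F _ hs = v := by
    intro Z v hs
    rw [two_comm_iff, cross_iff _ _ hs v.rep_nonzero, v.mk_rep]
  have hZ0 : ∀ (Z : Matrix (Fin 2) (Fin 2) F) (v : Projectivization F (Fin 3 → F)),
      (![Z 0 0 - Z 1 1, Z 0 1, Z 1 0] : Fin 3 → F) = 0 → Z * bm v.rep = bm v.rep * Z := by
    intro Z v hs
    rw [two_comm_iff, hs]
    intro i j
    simp
  have hbm : ∀ r : Fin 3 → F, (![bm r 0 0 - bm r 1 1, bm r 0 1, bm r 1 0] : Fin 3 → F) = r := by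
    intro r
    funext i
    fin_cases i <;> simp [bm]
  -- two members commute only if they agree
  have hcc : ∀ v w : Projectivization F (Fin 3 → F), a v * a w = a w * a v ↔ v = w := by
    intro v w
    rw [hcomma w (a v)]
    constructor
    · rintro ⟨U, Z, hUZ, hZb⟩
      have h1 : (a v : Matrix (Fin m ⊕ Fin 2) (Fin m ⊕ Fin 2) F) =
        fromBlocks (ls v.rep • (1 : Matrix (Fin m) (Fin m) F)) 0 0 (bm v.rep) := rfl
      rw [h1, fromBlocks_inj] at hUZ
      rw [← hUZ.2.2.2] at hZb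
      have hs : (![bm v.rep 0 0 - bm v.rep 1 1, bm v.rep 0 1, bm v.rep 1 0] : Fin 3 → F) ≠ 0 := by
        rw [hbm]
        exact v.rep_nonzero
      rw [hZ _ w hs] at hZb
      have hgen : ∀ (s : Fin 3 → F) (hs : s ≠ 0), s = v.rep → Projectivization.mk F s hs = v := by
        rintro s hs rfl
        exact v.mk_rep
      rw [← hZb]
      exact (hgen _ hs (hbm _)).symm
    · rintro rfl
      exact ⟨_, _, rfl, rfl⟩
  have hinj : Function.Injective a := by
    intro v w hvw
    rw [← hcc v w, hvw]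
  let _ : Fintype (Projectivization F (Fin 3 → F)) := Fintype.ofFinite _
  have hcardP : Fintype.card (Projectivization F (Fin 3 → F)) =
      Fintype.card F ^ 2 + Fintype.card F + 1 := by
    rw [← Nat.card_eq_fintype_card, Projectivization.card_of_finrank F (Fin 3 → F) (n := 3)
      (by simp)]
    rw [Nat.card_eq_fintype_card]
    simp [Finset.sum_range_succ]
    ring
  refine ⟨mk l hl0 1 hone, Finset.univ.map ⟨a, hinj⟩, ?_, ?_, ?_, ?_, ?_⟩
  · rw [Finset.card_map, Finset.card_univ, hcardP]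
  · rw [Finset.map_nonempty, Finset.univ_nonempty_iff, ← Fintype.card_pos_iff, hcardP]
    omega
  · intro b hb h hc
    rw [Finset.mem_map] at hb
    obtain ⟨v, _, rfl⟩ := hb
    obtain ⟨U, Z, hUZ, _⟩ := (hcomma v h).mp hc
    exact (hcomm0 h).mpr ⟨U, Z, hUZ⟩
  · intro b hb
    rw [Finset.mem_map] at hb
    obtain ⟨v, _, rfl⟩ := hb
    obtain ⟨w, hw⟩ : ∃ w, v ≠ w := by
      have : 1 < Fintype.card (Projectivization F (Fin 3 → F)) := by
        rw [hcardP]
        omega
      obtain ⟨w, hw⟩ := Fintype.exists_ne_of_one_lt_card this v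
      exact ⟨w, hw.symm⟩
    refine ⟨a w, Finset.mem_map.mpr ⟨w, Finset.mem_univ _, rfl⟩, ?_⟩
    intro h
    exact hw ((hcc v w).mp h)
  · intro h hc
    obtain ⟨U, Z, hUZ⟩ := (hcomm0 h).mp hc
    have hac : ∀ v, h * a v = a v * h ↔ Z * bm v.rep = bm v.rep * Z := by
      intro v
      rw [hcomma]
      constructor
      · rintro ⟨U', Z', h1, h2⟩
        rw [hUZ, fromBlocks_inj] at h1
        rw [h1.2.2.2]
        exact h2
      · intro h2
        exact ⟨U, Z, hUZ, h2⟩
    by_cases hs : (![Z 0 0 - Z 1 1, Z 0 1, Z 1 0] : Fin 3 → F) = 0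
    · left
      intro b hb
      rw [Finset.mem_map] at hb
      obtain ⟨v, _, rfl⟩ := hb
      exact (hac v).mpr (hZ0 Z v hs)
    · right
      refine ⟨a (Projectivization.mk F _ hs), ⟨Finset.mem_map.mpr ⟨_, Finset.mem_univ _, rfl⟩,
        (hac _).mpr ((hZ Z _ hs).mpr rfl)⟩, ?_⟩
      rintro b ⟨hb, hbc⟩
      rw [Finset.mem_map] at hb
      obtain ⟨v, _, rfl⟩ := hb
      have := (hZ Z v hs).mp ((hac v).mp hbc)
      rw [← this]
      rfl

theorem mem_Ccomm_GL [Fintype F] (hF : 4 ≤ Fintype.card F) {n : ℕ} (hn : 2 ≤ n) {p : ℕ}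
    (hp : p.Prime) (hpq : p ∣ Fintype.card F * (Fintype.card F + 1)) :
    p ∈ Ccomm (GL (Fin n) F) := by
  classical
  obtain ⟨m, rfl⟩ : ∃ m, n = m + 2 := ⟨n - 2, by omega⟩
  obtain ⟨g₀, A, hA, hP⟩ := isPart_block (F := F) hF m
  let e : (Matrix (Fin m ⊕ Fin 2) (Fin m ⊕ Fin 2) F) ≃* (Matrix (Fin (m + 2)) (Fin (m + 2)) F) :=
    (Matrix.reindexAlgEquiv F F (finSumFinEquiv (m := m) (n := 2))).toMulEquiv
  have h1 := hP.map (Units.mapEquiv e)
  obtain ⟨h2, h3, h4, h5⟩ := h1
  apply mem_Ccomm_of_partition _ _ h2 h3 h4 h5 hp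
  rw [Finset.card_map, hA]
  have : Fintype.card F ^ 2 + Fintype.card F + 1 - 1 = Fintype.card F * (Fintype.card F + 1) := by
    rw [Nat.add_sub_cancel]
    ring
  rw [this]
  exact hpq

end MP5fbfc2
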