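import Mathlib
import Pool.Agent.Lib.MP_5fbfc2_al.LP.Basic

/-!
# The commuting conductor of isomorphic groups
-/

namespace MP5fbfc2

lemma commMatrix_equiv {G G' : Type*} [Group G] [Group G'] (e : G ≃* G') (x y : G) :
    commMatrix G' (e x) (e y) = commMatrix G x y := by
  unfold commMatrix
  have : (e x * e y = e y * e x) ↔ (x * y = y * x) := by
    rw [← map_mul, ← map_mul, e.injective.eq_iff]
  by_cases h : x * y = y * x
  · rw [if_pos h, if_pos (this.mpr h)]
  · rw [if_neg h, if_neg (fun h1 => h (this.mp h1))]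

lemma mem_diffLattice_equiv {G G' : Type*} [Group G] [Group G'] (e : G ≃* G') {v : G' → ℤ}
    (hv : v ∈ diffLattice G') : (fun g => v (e g)) ∈ diffLattice G := by
  let ψ : (G' → ℤ) →+ (G → ℤ) :=
    { toFun := fun v g => v (e g)
      map_zero' := rfl
      map_add' := fun _ _ => rfl }
  have h1 : diffLattice G' ≤ (diffLattice G).comap ψ := by
    unfold diffLattice
    rw [AddSubgroup.closure_le]
    rintro w ⟨g, g', rfl⟩
    rw [SetLike.mem_coe, AddSubgroup.mem_comap]
    apply AddSubgroup.subset_closure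
    refine ⟨e.symm g, e.symm g', ?_⟩
    funext h
    show commMatrix G' g (e h) - commMatrix G' g' (e h) = _
    rw [← commMatrix_equiv e (e.symm g) h, ← commMatrix_equiv e (e.symm g') h,
      MulEquiv.apply_symm_apply, MulEquiv.apply_symm_apply]
  exact h1 hv

lemma rankOver_equiv (K : Type*) [Field K] {G G' : Type*} [Group G] [Group G'] (e : G ≃* G') :
    rankOver K (diffLattice G') = rankOver K (diffLattice G) := by
  unfold rankOver
  have h1 : ((fun (v : G' → ℤ) (g : G') => (v g : K)) '' (diffLattice G' : Set (G' → ℤ))) =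
      (LinearEquiv.funCongrLeft K K e.symm.toEquiv) ''
        ((fun (v : G → ℤ) (g : G) => (v g : K)) '' (diffLattice G : Set (G → ℤ))) := by
    ext w
    constructor
    · rintro ⟨v, hv, rfl⟩
      refine ⟨_, ⟨fun g => v (e g), mem_diffLattice_equiv e hv, rfl⟩, ?_⟩
      funext g
      show ((v (e (e.symm g)) : ℤ) : K) = _
      rw [MulEquiv.apply_symm_apply]
    · rintro ⟨_, ⟨v, hv, rfl⟩, rfl⟩
      exact ⟨fun g => v (e.symm g), mem_diffLattice_equiv e.symm hv, rfl⟩
  rw [h1]
  have h2 := Submodule.map_span ((LinearEquiv.funCongrLeft K K e.symm.toEquiv) : (G → K) →ₗ[K] (G' → K))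
    ((fun (v : G → ℤ) (g : G) => (v g : K)) '' (diffLattice G : Set (G → ℤ)))
  have h3 := LinearEquiv.finrank_map_eq (LinearEquiv.funCongrLeft K K e.symm.toEquiv)
    (Submodule.span K ((fun (v : G → ℤ) (g : G) => (v g : K)) '' (diffLattice G : Set (G → ℤ))))
  rw [← h3]
  exact congrArg (fun S : Submodule K (G' → K) => Module.finrank K S) h2.symm

theorem Ccomm_equiv {G G' : Type*} [Group G] [Group G'] (e : G ≃* G') : Ccomm G = Ccomm G' := by
  ext p
  constructor
  · rintro ⟨hp, h⟩
    refine ⟨hp, ?_⟩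
    have : Fact p.Prime := ⟨hp⟩
    rw [rankOver_equiv _ e, rankOver_equiv _ e]
    exact h
  · rintro ⟨hp, h⟩
    refine ⟨hp, ?_⟩
    have : Fact p.Prime := ⟨hp⟩
    rw [rankOver_equiv _ e, rankOver_equiv _ e] at h
    exact h

end MP5fbfc2
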