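import Mathlib

/-!
# Sums of invariant functions over a set with an action of a `p`-group
-/

namespace MP5fbfc2

/-- A sum modulo `p` of a function invariant under a `p`-group which vanishes on the fixed points
is zero. -/
lemma sum_eq_zero_of_pGroup {p : ℕ} [Fact p.Prime] {Q α : Type*} [Group Q] [MulAction Q α]
    [Fintype α] (hQ : IsPGroup p Q) (F : α → ZMod p) (hinv : ∀ (q : Q) (x : α), F (q • x) = F x)
    (hfix : ∀ x : α, (∀ q : Q, q • x = x) → F x = 0) : ∑ x, F x = 0 := by
  classical
  have h1 : ∀ c : ZMod p, c ≠ 0 → ((Finset.univ.filter (fun x => F x = c)).card : ZMod p) = 0 := by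
    intro c hc
    let X : SubMulAction Q α :=
      { carrier := {x | F x = c}
        smul_mem' := by
          intro q x hx
          show F (q • x) = c
          rw [hinv]
          exact hx }
    have h2 := hQ.card_modEq_card_fixedPoints (α := X)
    have h3 : Nat.card (MulAction.fixedPoints Q X) = 0 := by
      rw [Nat.card_eq_zero]
      left
      constructor
      rintro ⟨⟨x, hx⟩, hfx⟩
      apply hc
      have : F x = c := hx
      rw [← this]
      apply hfix
      intro q
      have := hfx q
      exact congrArg Subtype.val this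
    have h4 : Nat.card X = (Finset.univ.filter (fun x => F x = c)).card := by
      have : Nat.card X = Nat.card {x // F x = c} := rfl
      rw [this, Nat.card_eq_fintype_card, Fintype.card_subtype]
    rw [h3, h4, Nat.modEq_zero_iff_dvd] at h2
    exact (ZMod.natCast_eq_zero_iff _ _).mpr h2
  have h5 : ∑ x, F x = ∑ c : ZMod p, ∑ x ∈ Finset.univ.filter (fun x => F x = c), F x :=
    (Finset.sum_fiberwise Finset.univ F F).symm
  rw [h5]
  apply Finset.sum_eq_zero
  intro c _
  have h6 : ∑ x ∈ Finset.univ.filter (fun x => F x = c), F x =
      ∑ x ∈ Finset.univ.filter (fun x => F x = c), c := by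
    apply Finset.sum_congr rfl
    intro x hx
    exact (Finset.mem_filter.mp hx).2
  rw [h6, Finset.sum_const, nsmul_eq_mul]
  by_cases hc : c = 0
  · rw [hc, mul_zero]
  · rw [h1 c hc, zero_mul]

end MP5fbfc2
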