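import Mathlib
import Pool.Agent.Lib.MP_5fbfc2_al.LP.Basic
import Pool.Agent.Lib.MP_5fbfc2_al.LP.PGroupSum

/-!
# Groups with linearly independent centraliser indicators and a normal `p`-subgroup
-/

namespace MP5fbfc2

variable {G : Type*} [Group G]

lemma commMatrix_conj (g x h : G) :
    commMatrix G (g * x * g⁻¹) h = commMatrix G x (g⁻¹ * h * g) := by
  unfold commMatrix
  have : (g * x * g⁻¹ * h = h * (g * x * g⁻¹)) ↔ (x * (g⁻¹ * h * g) = g⁻¹ * h * g * x) := by
    constructor
    · intro h1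
      have := congrArg (fun y => g⁻¹ * y * g) h1
      simpa [mul_assoc] using this
    · intro h1
      have := congrArg (fun y => g * y * g⁻¹) h1
      simpa [mul_assoc] using this
  by_cases h1 : g * x * g⁻¹ * h = h * (g * x * g⁻¹)
  · rw [if_pos h1, if_pos (this.mp h1)]
  · rw [if_neg h1, if_neg (fun h2 => h1 (this.mpr h2))]

lemma commMatrix_conj_conj (g x h : G) :
    commMatrix G (g * x * g⁻¹) (g * h * g⁻¹) = commMatrix G x h := by
  rw [commMatrix_conj]
  congr 1
  group

lemma commMatrix_mul_central (x z : G) (hz : z ∈ Subgroup.center G) :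
    commMatrix G (x * z) = commMatrix G x := by
  funext h
  unfold commMatrix
  have hzz := Subgroup.mem_center_iff.mp hz
  have : (x * z * h = h * (x * z)) ↔ (x * h = h * x) := by
    rw [mul_assoc, ← hzz h, ← mul_assoc, ← mul_assoc, mul_left_inj]
  by_cases h1 : x * h = h * x
  · rw [if_pos h1, if_pos (this.mpr h1)]
  · rw [if_neg h1, if_neg (fun h2 => h1 (this.mp h2))]

/-- Two elements are equivalent if they have the same row in the commuting matrix. -/
noncomputable def cSetoid (G : Type*) [Group G] : Setoid G := Setoid.ker (commMatrix G)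

/-- The set of classes of elements with the same centraliser. -/
abbrev Om (G : Type*) [Group G] : Type _ := Quotient (cSetoid G)

/-- The class of an element. -/
noncomputable def cl (x : G) : Om G := Quotient.mk (cSetoid G) x

lemma cl_eq_iff {x y : G} : cl x = cl y ↔ commMatrix G x = commMatrix G y := by
  unfold cl
  rw [Quotient.eq]
  rfl

lemma cl_out (ω : Om G) : cl ω.out = ω := Quotient.out_eq ω

/-- The reduced commuting matrix. -/
noncomputable def Pm (ω ω' : Om G) : ℤ := commMatrix G ω.out ω'.out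

lemma Pm_cl (x y : G) : Pm (cl x) (cl y) = commMatrix G x y := by
  unfold Pm
  have h1 : commMatrix G (cl x).out = commMatrix G x := cl_eq_iff.mp (cl_out (cl x))
  have h2 : commMatrix G (cl y).out = commMatrix G y := cl_eq_iff.mp (cl_out (cl y))
  rw [h1, commMatrix_comm, h2, commMatrix_comm]

lemma Pm_comm (ω ω' : Om G) : Pm ω ω' = Pm ω' ω := commMatrix_comm _ _

/-- Conjugation acts on the classes. -/
@[reducible] noncomputable def actOm : MulAction G (Om G) where
  smul g ω := cl (g * ω.out * g⁻¹)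
  one_smul ω := by
    show cl (1 * ω.out * 1⁻¹) = ω
    simp [cl_out]
  mul_smul g h ω := by
    show cl (g * h * ω.out * (g * h)⁻¹) = cl (g * (cl (h * ω.out * h⁻¹)).out * g⁻¹)
    rw [cl_eq_iff]
    funext x
    have h1 : commMatrix G (cl (h * ω.out * h⁻¹)).out = commMatrix G (h * ω.out * h⁻¹) :=
      cl_eq_iff.mp (cl_out _)
    rw [commMatrix_conj g, h1, ← commMatrix_conj g]
    congr 1
    group

/-- The permutation representation on classes. -/
noncomputable def permHom (G : Type*) [Group G] : G →* Equiv.Perm (Om G) :=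
  @MulAction.toPermHom G (Om G) _ actOm

lemma permHom_cl (g x : G) : permHom G g (cl x) = cl (g * x * g⁻¹) := by
  show cl (g * (cl x).out * g⁻¹) = cl (g * x * g⁻¹)
  rw [cl_eq_iff]
  funext y
  have h1 : commMatrix G (cl x).out = commMatrix G x := cl_eq_iff.mp (cl_out _)
  rw [commMatrix_conj g, h1, ← commMatrix_conj g]

lemma permHom_center (z : G) (hz : z ∈ Subgroup.center G) : permHom G z = 1 := by
  ext ω
  rw [← cl_out ω, permHom_cl]
  have : z * ω.out * z⁻¹ = ω.out := by
    rw [← Subgroup.mem_center_iff.mp hz ω.out]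
    group
  rw [this]
  rfl

/-- The permutation representation of `G / Z(G)` on classes. -/
noncomputable def permHomQ (G : Type*) [Group G] :
    (G ⧸ Subgroup.center G) →* Equiv.Perm (Om G) :=
  QuotientGroup.lift (Subgroup.center G) (permHom G) (fun z hz => permHom_center z hz)

lemma permHomQ_mk (g : G) : permHomQ G (g : G ⧸ Subgroup.center G) = permHom G g := rfl

lemma Pm_perm (q : G ⧸ Subgroup.center G) (ω ω' : Om G) :
    Pm (permHomQ G q ω) (permHomQ G q ω') = Pm ω ω' := by
  obtain ⟨g, rfl⟩ := QuotientGroup.mk_surjective q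
  rw [permHomQ_mk, ← cl_out ω, ← cl_out ω', permHom_cl, permHom_cl, Pm_cl, Pm_cl,
    commMatrix_conj_conj]

/-- The class of an element of `G / Z(G)`. -/
noncomputable def clQ (q : G ⧸ Subgroup.center G) : Om G := cl q.out

lemma clQ_mk (x : G) : clQ (x : G ⧸ Subgroup.center G) = cl x := by
  unfold clQ
  obtain ⟨z, hz⟩ := QuotientGroup.mk_out_eq_mul (Subgroup.center G) x
  rw [hz, cl_eq_iff, commMatrix_mul_central _ _ z.2]

lemma clQ_perm (q r : G ⧸ Subgroup.center G) :
    clQ (q * r * q⁻¹) = permHomQ G q (clQ r) := by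
  obtain ⟨g, rfl⟩ := QuotientGroup.mk_surjective q
  obtain ⟨x, rfl⟩ := QuotientGroup.mk_surjective r
  rw [permHomQ_mk, clQ_mk, permHom_cl, ← clQ_mk]
  rfl

/-- The image of the centraliser of `g` in `G / Z(G)`. -/
def Cbar (g : G) : Subgroup (G ⧸ Subgroup.center G) :=
  (Subgroup.centralizer {g}).map (QuotientGroup.mk' (Subgroup.center G))

lemma mk_mem_Cbar (g x : G) : (x : G ⧸ Subgroup.center G) ∈ Cbar g ↔ x * g = g * x := by
  unfold Cbar
  rw [Subgroup.mem_map]
  constructor
  · rintro ⟨y, hy, hxy⟩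
    have h1 : y * g = g * y := Subgroup.mem_centralizer_singleton_iff.mp hy
    have h2 : y⁻¹ * x ∈ Subgroup.center G := QuotientGroup.eq.mp hxy
    have h3 := Subgroup.mem_center_iff.mp h2 g
    have h4 : x = y * (y⁻¹ * x) := by group
    rw [h4, mul_assoc, ← h3, ← mul_assoc, h1, mul_assoc]
  · intro h
    exact ⟨x, Subgroup.mem_centralizer_singleton_iff.mpr h, rfl⟩

lemma sum_Pm_clQ [Finite G] [Fintype (G ⧸ Subgroup.center G)] (g : G) :
    ∑ q : G ⧸ Subgroup.center G, Pm (cl g) (clQ q) = (Nat.card (Cbar g) : ℤ) := by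
  classical
  have h1 : ∀ q : G ⧸ Subgroup.center G, Pm (cl g) (clQ q) = if q ∈ Cbar g then 1 else 0 := by
    intro q
    obtain ⟨x, rfl⟩ := QuotientGroup.mk_surjective q
    rw [clQ_mk, Pm_cl]
    unfold commMatrix
    by_cases h : g * x = x * g
    · rw [if_pos h, if_pos ((mk_mem_Cbar g x).mpr h.symm)]
    · rw [if_neg h, if_neg (fun h2 => h ((mk_mem_Cbar g x).mp h2).symm)]
  rw [Finset.sum_congr rfl (fun q _ => h1 q), Finset.sum_ite, Finset.sum_const_zero, add_zero,
    Finset.sum_const, nsmul_eq_mul, mul_one]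
  congr 1
  rw [Nat.card_eq_fintype_card, Fintype.card_subtype]

/-- The group theoretic part. -/
lemma dvd_card_Cbar [Finite G] {p : ℕ} (hp : p.Prime) (N : Subgroup (G ⧸ Subgroup.center G))
    [N.Normal] (hN : IsPGroup p N) (hne : N ≠ ⊥) (g : G)
    (hfix : ∀ b : G, (b : G ⧸ Subgroup.center G) ∈ N → g * (b * g * b⁻¹) = b * g * b⁻¹ * g) :
    p ∣ Nat.card (Cbar g) := by
  by_contra hnd
  have hcop : ∀ k : ℕ, Nat.Coprime (p ^ k) (Nat.card (Cbar g)) := fun k =>
    Nat.Coprime.pow_left k ((Nat.Prime.coprime_iff_not_dvd hp).mpr hnd)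
  have hpow : ∀ x ∈ N, ∃ k : ℕ, x ^ (p ^ k) = 1 := by
    intro x hx
    obtain ⟨k, hk⟩ := hN ⟨x, hx⟩
    exact ⟨k, by simpa using congrArg Subtype.val hk⟩
  have hcard : ∀ x ∈ Cbar g, x ^ (Nat.card (Cbar g)) = 1 := by
    intro x hx
    have := pow_card_eq_one' (x := (⟨x, hx⟩ : Cbar g))
    have h2 := congrArg Subtype.val this
    rwa [Subgroup.coe_pow, Subgroup.coe_one] at h2
  have htriv : ∀ x ∈ N, x ∈ Cbar g → x = 1 := by
    intro x hx hxC
    obtain ⟨k, hk⟩ := hpow x hx
    have h1 := orderOf_dvd_of_pow_eq_one hk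
    have h2 := orderOf_dvd_of_pow_eq_one (hcard x hxC)
    have h3 := Nat.dvd_gcd h1 h2
    rw [(hcop k).gcd_eq_one, Nat.dvd_one] at h3
    exact orderOf_eq_one_iff.mp h3
  apply hne
  rw [Subgroup.eq_bot_iff_forall]
  intro y hy
  obtain ⟨b, rfl⟩ := QuotientGroup.mk_surjective y
  have hfb := hfix b hy
  -- the commutator is central
  have hcC : ((b * g * b⁻¹ * g⁻¹ : G) : G ⧸ Subgroup.center G) ∈ Cbar g := by
    rw [mk_mem_Cbar]
    have : b * g * b⁻¹ * g⁻¹ * g = g * (b * g * b⁻¹) * g⁻¹ := by rw [hfb]; group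
    rw [this]; group
  have hcN : ((b * g * b⁻¹ * g⁻¹ : G) : G ⧸ Subgroup.center G) ∈ N := by
    have h1 : ((g * b⁻¹ * g⁻¹ : G) : G ⧸ Subgroup.center G) ∈ N := by
      have := (inferInstance : N.Normal).conj_mem _ (N.inv_mem hy) (g : G ⧸ Subgroup.center G)
      exact this
    have h2 := N.mul_mem hy h1
    have h3 : ((b * g * b⁻¹ * g⁻¹ : G) : G ⧸ Subgroup.center G) =
        ((b * (g * b⁻¹ * g⁻¹) : G) : G ⧸ Subgroup.center G) := by
      congr 1
      group
    rw [h3]
    exact h2
  have hc1 := htriv _ hcN hcC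
  have hcz : b * g * b⁻¹ * g⁻¹ ∈ Subgroup.center G := (QuotientGroup.eq_one_iff _).mp hc1
  set c := b * g * b⁻¹ * g⁻¹ with hc
  have hcomm : ∀ x : G, x * c = c * x := Subgroup.mem_center_iff.mp hcz
  have hbg : b * g * b⁻¹ = c * g := by rw [hc]; group
  -- powers of b
  have hb : ∀ n : ℕ, b ^ n * g * (b ^ n)⁻¹ = c ^ n * g := by
    intro n
    induction n with
    | zero => simp
    | succ n ih =>
      have h1 : b ^ (n + 1) * g * (b ^ (n + 1))⁻¹ = b * (b ^ n * g * (b ^ n)⁻¹) * b⁻¹ := by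
        rw [pow_succ']; group
      rw [h1, ih]
      have h2 : b * (c ^ n * g) * b⁻¹ = c ^ n * (b * g * b⁻¹) := by
        have h3 : b * c ^ n = c ^ n * b := (Commute.pow_right (hcomm b) n)
        rw [← mul_assoc, h3]; group
      rw [h2, hbg, pow_succ]; group
  obtain ⟨k, hk⟩ := hpow _ hy
  have hbz : b ^ (p ^ k) ∈ Subgroup.center G := by
    rw [← QuotientGroup.eq_one_iff]
    exact hk
  have hc2 : c ^ (p ^ k) = 1 := by
    have h1 := hb (p ^ k)
    have h2 := Subgroup.mem_center_iff.mp hbz g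
    rw [← h2] at h1
    have h3 : g * b ^ (p ^ k) * (b ^ (p ^ k))⁻¹ = g := by group
    rw [h3] at h1
    have := (mul_eq_right (a := c ^ (p ^ k)) (b := g)).mp h1.symm
    exact this
  have hgC : ((g : G) : G ⧸ Subgroup.center G) ∈ Cbar g := (mk_mem_Cbar g g).mpr rfl
  have hgz : g ^ (Nat.card (Cbar g)) ∈ Subgroup.center G := by
    rw [← QuotientGroup.eq_one_iff]
    exact hcard _ hgC
  have hc3 : c ^ (Nat.card (Cbar g)) = 1 := by
    have h1 : (b * g * b⁻¹) ^ (Nat.card (Cbar g)) = b * g ^ (Nat.card (Cbar g)) * b⁻¹ := conj_pow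
    rw [hbg, (show Commute c g from (hcomm g).symm).mul_pow] at h1
    have h2 := Subgroup.mem_center_iff.mp hgz b
    rw [h2] at h1
    have h3 : g ^ Nat.card (Cbar g) * b * b⁻¹ = g ^ Nat.card (Cbar g) := by group
    rw [h3] at h1
    exact (mul_eq_right).mp h1
  have hc4 : c = 1 := by
    have h1 := orderOf_dvd_of_pow_eq_one hc2
    have h2 := orderOf_dvd_of_pow_eq_one hc3
    have h3 := Nat.dvd_gcd h1 h2
    rw [(hcop k).gcd_eq_one, Nat.dvd_one] at h3
    exact orderOf_eq_one_iff.mp h3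
  apply htriv _ hy
  rw [mk_mem_Cbar]
  rw [hc4, one_mul] at hbg
  calc b * g = (b * g * b⁻¹) * b := by group
    _ = g * b := by rw [hbg]

end MP5fbfc2
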