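import Mathlib
import Pool.Agent.Lib.MP_5fbfc2_al.LP.NormalP

/-!
# Groups with linearly independent centraliser indicators and a normal `p`-subgroup: main theorem
-/

namespace MP5fbfc2

open scoped Classical in
/-- Transfer of a function on classes to a function on the group supported on representatives. -/
noncomputable def tr {G : Type*} [Group G] (v : Om G → ℤ) (x : G) : ℤ :=
  if (cl x).out = x then v (cl x) else 0

lemma sum_tr {G : Type*} [Group G] [Fintype G] [Fintype (Om G)] (v : Om G → ℤ) (F : G → ℤ) :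
    ∑ x, tr v x * F x = ∑ ω, v ω * F ω.out := by
  classical
  symm
  rw [← Finset.sum_filter_add_sum_filter_not Finset.univ (fun x : G => (cl x).out = x)]
  have h2 : ∑ x ∈ Finset.univ.filter (fun x : G => ¬ (cl x).out = x), tr v x * F x = 0 := by
    apply Finset.sum_eq_zero
    intro x hx
    have := (Finset.mem_filter.mp hx).2
    unfold tr
    rw [if_neg this, zero_mul]
  rw [h2, add_zero]
  apply Finset.sum_bij' (fun (ω : Om G) _ => ω.out) (fun (x : G) _ => cl x)
  · intro ω _
    rw [Finset.mem_filter]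
    refine ⟨Finset.mem_univ _, ?_⟩
    rw [cl_out]
  · intro x _
    exact Finset.mem_univ _
  · intro ω _
    exact cl_out ω
  · intro x hx
    exact (Finset.mem_filter.mp hx).2
  · intro ω _
    unfold tr
    rw [cl_out, if_pos rfl]

/-- The distinct rows of the commuting matrix are linearly independent over `ℚ`. -/
def IndepRows (G : Type*) [Group G] : Prop :=
  LinearIndependent ℚ ((↑) : Set.range (fun (g : G) (h : G) => (commMatrix G g h : ℚ)) → (G → ℚ))

lemma exists_inverse {G : Type*} [Group G] [Finite G] [Fintype (Om G)] [DecidableEq (Om G)]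
    (hind : IndepRows G) (ω₀ : Om G) : ∃ (u : Om G → ℤ) (n : ℤ), n ≠ 0 ∧
      ∀ ω, ∑ ω', u ω' * Pm ω' ω = n * (if ω = ω₀ then 1 else 0) := by
  classical
  let f : (Om G → ℚ) →ₗ[ℚ] (G → ℚ) :=
    { toFun := fun v g => v (cl g)
      map_add' := by intro x y; funext g; rfl
      map_smul' := by intro c x; funext g; rfl }
  let rows : Om G → (Om G → ℚ) := fun ω' ω => ((Pm ω' ω : ℤ) : ℚ)
  have h1 : LinearIndependent ℚ (f ∘ rows) := by
    let j : Om G → Set.range (fun (g : G) (h : G) => (commMatrix G g h : ℚ)) :=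
      fun ω => ⟨fun h => (commMatrix G ω.out h : ℚ), ⟨ω.out, rfl⟩⟩
    have hj : Function.Injective j := by
      intro ω ω' h
      have h2 : (fun h => (commMatrix G ω.out h : ℚ)) = (fun h => (commMatrix G ω'.out h : ℚ)) :=
        congrArg Subtype.val h
      rw [← cl_out ω, ← cl_out ω', cl_eq_iff]
      funext x
      have := congrFun h2 x
      exact_mod_cast this
    have h3 := hind.comp j hj
    have h4 : (f ∘ rows) = ((↑) : Set.range (fun (g : G) (h : G) => (commMatrix G g h : ℚ)) →
        (G → ℚ)) ∘ j := by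
      funext ω g
      show ((Pm ω (cl g) : ℤ) : ℚ) = ((commMatrix G ω.out g : ℤ) : ℚ)
      congr 1
      conv_lhs => rw [← cl_out ω]
      rw [Pm_cl]
    rw [h4]
    exact h3
  have h2 : LinearIndependent ℚ rows := h1.of_comp f
  have h3 : Submodule.span ℚ (Set.range rows) = ⊤ := by
    apply h2.span_eq_top_of_card_eq_finrank'
    rw [Module.finrank_fintype_fun_eq_card]
  have h4 : (fun ω => if ω = ω₀ then (1 : ℚ) else 0) ∈ Submodule.span ℚ (Set.range rows) := by
    rw [h3]
    trivial
  obtain ⟨c, hc⟩ := (Submodule.mem_span_range_iff_exists_fun ℚ).mp h4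
  obtain ⟨b, hb⟩ := IsLocalization.exist_integer_multiples_of_finite (nonZeroDivisors ℤ) c
  choose u hu using hb
  refine ⟨u, b, nonZeroDivisors.ne_zero b.2, ?_⟩
  intro ω
  have h5 := congrFun hc ω
  simp only [Finset.sum_apply, Pi.smul_apply, smul_eq_mul, rows] at h5
  have h6 : ((∑ ω', u ω' * Pm ω' ω : ℤ) : ℚ) = (((b : ℤ) * (if ω = ω₀ then 1 else 0) : ℤ) : ℚ) := by
    push_cast
    rw [← h5, Finset.mul_sum]
    apply Finset.sum_congr rfl
    intro ω' _
    have h7 := hu ω'
    have h8 : ((u ω' : ℤ) : ℚ) = ((b : ℤ) : ℚ) * c ω' := by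
      rw [← zsmul_eq_mul]
      exact h7
    rw [h8]
    ring
  exact_mod_cast h6

/-- If `p` is not in the commuting conductor and the distinct rows are linearly independent, then
the reduced commuting matrix is injective modulo `p`. -/
lemma injective_mod {G : Type*} [Group G] [Finite G] [Fintype (Om G)] (hind : IndepRows G)
    {p : ℕ} (hp : p.Prime) (hcon : p ∉ Ccomm G) (v : Om G → ℤ)
    (hv : ∀ ω, (p : ℤ) ∣ ∑ ω', v ω' * Pm ω' ω) (ω₀ : Om G) : (p : ℤ) ∣ v ω₀ := by
  classical
  let _ : Fintype G := Fintype.ofFinite G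
  by_contra hnd
  apply hcon
  obtain ⟨u, n, hn, hu⟩ := exists_inverse hind ω₀
  have hP : ∀ (ω : Om G) (g : G), commMatrix G ω.out g = Pm ω (cl g) := by
    intro ω g
    conv_rhs => rw [← cl_out ω]
    rw [Pm_cl]
  apply mem_Ccomm hp (tr v) (tr u) (fun g => if cl g = ω₀ then 1 else 0) n hn
  · intro g
    rw [sum_tr v (fun x => commMatrix G x g)]
    simp only [hP]
    exact hv (cl g)
  · intro g
    rw [sum_tr u (fun x => commMatrix G x g)]
    simp only [hP]
    exact hu (cl g)
  · rw [sum_tr v (fun x => if cl x = ω₀ then 1 else 0)]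
    simp only [cl_out, mul_ite, mul_one, mul_zero, Finset.sum_ite_eq', Finset.mem_univ, if_true]
    exact hnd

/-- Main theorem: if the distinct rows of the commuting matrix are linearly independent over `ℚ`
and `G / Z(G)` has a nontrivial normal `p`-subgroup, then `p` lies in the commuting conductor. -/
theorem mem_Ccomm_of_normal {G : Type*} [Group G] [Finite G] (hind : IndepRows G)
    {p : ℕ} (hp : p.Prime) (N : Subgroup (G ⧸ Subgroup.center G)) [N.Normal] (hN : IsPGroup p N)
    (hne : N ≠ ⊥) : p ∈ Ccomm G := by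
  classical
  by_contra hcon
  have : Fact p.Prime := ⟨hp⟩
  let _ : Fintype (Om G) := Fintype.ofFinite _
  let _ : Fintype (G ⧸ Subgroup.center G) := Fintype.ofFinite _
  set S : Subgroup (Equiv.Perm (Om G)) := N.map (permHomQ G) with hS
  have hSp : IsPGroup p S := hN.map (permHomQ G)
  have hSP : ∀ s ∈ S, ∀ ω ω' : Om G, Pm (s ω) (s ω') = Pm ω ω' := by
    rintro s ⟨q, _, rfl⟩ ω ω'
    exact Pm_perm q ω ω'
  -- the operator modulo p
  let T : (Om G → ZMod p) → (Om G → ZMod p) :=
    fun f ω => ∑ ω', ((Pm ω ω' : ℤ) : ZMod p) * f ω'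
  have hTinj : ∀ f : Om G → ZMod p, T f = 0 → f = 0 := by
    intro f hf
    funext ω₀
    have h1 := injective_mod hind hp hcon (fun ω => ((f ω).val : ℤ)) (by
      intro ω
      rw [← ZMod.intCast_zmod_eq_zero_iff_dvd]
      have h2 : T f ω = 0 := congrFun hf ω
      push_cast
      simp only [ZMod.natCast_val, ZMod.cast_id', id_eq]
      rw [← h2]
      apply Finset.sum_congr rfl
      intro ω' _
      rw [Pm_comm, mul_comm]) ω₀
    rw [← ZMod.intCast_zmod_eq_zero_iff_dvd] at h1
    simpa using h1
  have hTadd : ∀ f g : Om G → ZMod p, T (f - g) = T f - T g := by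
    intro f g
    funext ω
    simp only [T, Pi.sub_apply, mul_sub, Finset.sum_sub_distrib]
  -- invariant functions vanishing on fixed points
  let I : Set (Om G → ZMod p) := {f | (∀ s ∈ S, ∀ ω, f (s ω) = f ω) ∧
    (∀ ω, (∀ s ∈ S, s ω = ω) → f ω = 0)}
  have hTI : ∀ f ∈ I, T f ∈ I := by
    rintro f ⟨hf1, hf2⟩
    refine ⟨?_, ?_⟩
    · intro s hs ω
      simp only [T]
      rw [← Equiv.sum_comp s]
      apply Finset.sum_congr rfl
      intro ω' _
      rw [hSP s hs, hf1 s hs]
    · intro ω hω
      apply sum_eq_zero_of_pGroup hSp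
      · rintro ⟨s, hs⟩ ω'
        show ((Pm ω (s ω') : ℤ) : ZMod p) * f (s ω') = _
        rw [hf1 s hs]
        congr 2
        conv_lhs => rw [← hω s hs]
        exact hSP s hs ω ω'
      · intro ω' hω'
        have h1 : f ω' = 0 := by
          apply hf2
          intro s hs
          exact hω' ⟨s, hs⟩
        rw [h1, mul_zero]
  -- the weight vector and its image
  let w : Om G → ZMod p := fun ω =>
    ((Finset.univ.filter (fun q : G ⧸ Subgroup.center G => clQ q = ω)).card : ZMod p)
  let a : Om G → ZMod p := fun ω => ((∑ q : G ⧸ Subgroup.center G, Pm ω (clQ q) : ℤ) : ZMod p)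
  have hTw : T w = a := by
    funext ω
    simp only [T, w, a]
    push_cast
    rw [← Finset.sum_fiberwise Finset.univ (fun q : G ⧸ Subgroup.center G => clQ q)]
    apply Finset.sum_congr rfl
    intro ω' _
    have h1 : ∑ q ∈ Finset.univ.filter (fun q : G ⧸ Subgroup.center G => clQ q = ω'),
        ((Pm ω (clQ q) : ℤ) : ZMod p) =
        ∑ q ∈ Finset.univ.filter (fun q : G ⧸ Subgroup.center G => clQ q = ω'),
        ((Pm ω ω' : ℤ) : ZMod p) := by
      apply Finset.sum_congr rfl
      intro q hq
      rw [(Finset.mem_filter.mp hq).2]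
    rw [h1, Finset.sum_const, nsmul_eq_mul, mul_comm]
  have haI : a ∈ I := by
    refine ⟨?_, ?_⟩
    · rintro s ⟨q, hq, rfl⟩ ω
      simp only [a]
      congr 1
      rw [← Equiv.sum_comp (MulAut.conj q).toEquiv]
      apply Finset.sum_congr rfl
      intro r _
      show Pm (permHomQ G q ω) (clQ (q * r * q⁻¹)) = _
      rw [clQ_perm, Pm_perm]
    · intro ω hω
      have h0 : a ω = a (cl ω.out) := by rw [cl_out]
      rw [h0]
      simp only [a]
      rw [sum_Pm_clQ, ZMod.intCast_zmod_eq_zero_iff_dvd]
      rw [Int.natCast_dvd_natCast]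
      apply dvd_card_Cbar hp N hN hne
      intro b hb
      have h1 : permHom G b ω = ω := hω _ ⟨(b : G ⧸ Subgroup.center G), hb, rfl⟩
      rw [← cl_out ω, permHom_cl, cl_eq_iff] at h1
      have h2 := congrFun h1 ω.out
      unfold commMatrix at h2
      by_contra h3
      rw [if_neg (fun h4 => h3 h4.symm), if_pos rfl] at h2
      exact zero_ne_one h2
  -- surjectivity of T on I
  have hIfin : Finite I := Subtype.finite
  let TI : I → I := fun f => ⟨T f.1, hTI f.1 f.2⟩
  have hTIinj : Function.Injective TI := by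
    rintro ⟨f, hf⟩ ⟨g, hg⟩ h
    have h1 : T f = T g := congrArg Subtype.val h
    have h2 : f - g = 0 := by
      apply hTinj
      rw [hTadd, h1, sub_self]
    exact Subtype.ext (sub_eq_zero.mp h2)
  obtain ⟨⟨f, hf⟩, hfa⟩ := (Finite.injective_iff_surjective.mp hTIinj) ⟨a, haI⟩
  have h1 : T f = a := congrArg Subtype.val hfa
  have h2 : w - f = 0 := by
    apply hTinj
    rw [hTadd, h1, hTw, sub_self]
  have h3 : w = f := sub_eq_zero.mp h2
  have h4 : f (cl 1) = 0 := by
    apply hf.2
    rintro s ⟨q, _, rfl⟩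
    obtain ⟨g, rfl⟩ := QuotientGroup.mk_surjective q
    rw [permHomQ_mk, permHom_cl]
    congr 1
    group
  have h5 : w (cl 1) = 1 := by
    simp only [w]
    have h6 : Finset.univ.filter (fun q : G ⧸ Subgroup.center G => clQ q = cl (1 : G)) = {1} := by
      ext q
      rw [Finset.mem_filter, Finset.mem_singleton]
      constructor
      · rintro ⟨_, hq⟩
        obtain ⟨x, rfl⟩ := QuotientGroup.mk_surjective q
        rw [clQ_mk, cl_eq_iff] at hq
        rw [QuotientGroup.eq_one_iff, Subgroup.mem_center_iff]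
        intro y
        have h7 := congrFun hq y
        rw [commMatrix_one_left] at h7
        unfold commMatrix at h7
        by_contra h8
        rw [if_neg (fun h9 => h8 h9.symm)] at h7
        exact zero_ne_one h7
      · rintro rfl
        refine ⟨Finset.mem_univ _, ?_⟩
        exact clQ_mk 1
    rw [h6]
    simp
  rw [h3, h4] at h5
  exact zero_ne_one h5

end MP5fbfc2
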