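import Mathlib
import Pool.Agent.Lib.MP_5fbfc2_al.LP.GL

/-!
# The groups `PSL₂` over finite fields of odd order at least seven
-/

namespace MP5fbfc2

open Matrix

variable {F : Type*} [Field F]

/-- Every point of the plane is represented by a matrix of determinant one and nonzero trace. -/
lemma exists_psl_rep [Fintype F] (hF : 7 ≤ Fintype.card F) (h2 : (2 : F) ≠ 0) (r : Fin 3 → F) :
    ∃ c μ : F, c ≠ 0 ∧ (c * r 0 + μ) * μ - (c * r 1) * (c * r 2) = 1 ∧ c * r 0 + μ + μ ≠ 0 := by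
  obtain ⟨δ, hδ⟩ : ∃ δ : F, δ = r 0 ^ 2 / 4 + r 1 * r 2 := ⟨_, rfl⟩
  obtain ⟨t, ht0, ht1, ht2⟩ : ∃ t : F, t ≠ 0 ∧ 1 - δ * t ^ 2 ≠ 0 ∧ 1 + δ * t ^ 2 ≠ 0 := by
    open Polynomial in
    let f : F[X] := C (-(δ ^ 2)) * X ^ 5 + X
    have hd : f.natDegree ≤ 5 := by
      unfold f
      compute_degree
    have hne : f ≠ 0 := by
      intro h
      have h1 : f.coeff 1 = 0 := by rw [h, Polynomial.coeff_zero]
      unfold f at h1
      rw [Polynomial.coeff_add, Polynomial.coeff_C_mul, Polynomial.coeff_X_pow,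
        Polynomial.coeff_X_one, if_neg (by norm_num), mul_zero, zero_add] at h1
      exact one_ne_zero h1
    obtain ⟨t, ht⟩ := Polynomial.exists_eval_ne_zero_of_natDegree_lt_card f hne (by
      rw [Cardinal.mk_fintype]
      have : f.natDegree < Fintype.card F := by omega
      exact_mod_cast this)
    have hev : f.eval t = t * (1 - δ * t ^ 2) * (1 + δ * t ^ 2) := by
      simp only [f, Polynomial.eval_add, Polynomial.eval_mul, Polynomial.eval_pow,
        Polynomial.eval_X, Polynomial.eval_C]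
      ring
    rw [hev] at ht
    exact ⟨t, left_ne_zero_of_mul (left_ne_zero_of_mul ht),
      right_ne_zero_of_mul (left_ne_zero_of_mul ht), right_ne_zero_of_mul ht⟩
  have h4 : (4 : F) ≠ 0 := by
    have : (4 : F) = 2 * 2 := by norm_num
    rw [this]
    exact mul_ne_zero h2 h2
  obtain ⟨c, hc⟩ : ∃ c : F, c = 2 * t / (1 - δ * t ^ 2) := ⟨_, rfl⟩
  obtain ⟨α, hα⟩ : ∃ α : F, α = (1 + δ * t ^ 2) / (1 - δ * t ^ 2) := ⟨_, rfl⟩
  have hc0 : c ≠ 0 := by
    rw [hc]
    exact div_ne_zero (mul_ne_zero h2 ht0) ht1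
  have hα0 : α ≠ 0 := by
    rw [hα]
    exact div_ne_zero ht2 ht1
  have hconic : α ^ 2 - δ * c ^ 2 = 1 := by
    rw [hα, hc]
    field_simp
    ring
  refine ⟨c, α - c * r 0 / 2, hc0, ?_, ?_⟩
  · rw [← hconic, hδ]
    field_simp
    ring
  · have : c * r 0 + (α - c * r 0 / 2) + (α - c * r 0 / 2) = 2 * α := by
      field_simp
      ring
    rw [this]
    exact mul_ne_zero h2 hα0

lemma psl_comm_iff (a h : SpecialLinearGroup (Fin 2) F) (ht : a.1 0 0 + a.1 1 1 ≠ 0) :
    ((h : ProjectiveSpecialLinearGroup (Fin 2) F) * (a : ProjectiveSpecialLinearGroup (Fin 2) F) =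
      (a : ProjectiveSpecialLinearGroup (Fin 2) F) *
        (h : ProjectiveSpecialLinearGroup (Fin 2) F)) ↔ h.1 * a.1 = a.1 * h.1 := by
  constructor
  · intro hq
    have h1 : ((h * a : SpecialLinearGroup (Fin 2) F) : ProjectiveSpecialLinearGroup (Fin 2) F) =
        ((a * h : SpecialLinearGroup (Fin 2) F) : ProjectiveSpecialLinearGroup (Fin 2) F) := hq
    rw [QuotientGroup.eq, Matrix.SpecialLinearGroup.mem_center_iff] at h1
    obtain ⟨ζ, _, hz⟩ := h1
    -- a h = ζ h a
    have h2 : a.1 * h.1 = ζ • (h.1 * a.1) := by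
      have h3 : a * h = (h * a) * ((h * a)⁻¹ * (a * h)) := by group
      have h4 := congrArg Subtype.val h3
      have h5 : (a * h).1 = (h * a).1 * ((h * a)⁻¹ * (a * h)).1 := h4
      rw [← hz] at h5
      have h6 : (a * h).1 = a.1 * h.1 := rfl
      have h7 : (h * a).1 = h.1 * a.1 := rfl
      rw [h6, h7, scalar_apply, ← Matrix.smul_one_eq_diagonal, Matrix.mul_smul, Matrix.mul_one] at h5
      exact h5
    have h3 : a.1.trace = ζ * a.1.trace := by
      have h4 : (a.1 * h.1 * h.1.adjugate).trace = (ζ • (h.1 * a.1) * h.1.adjugate).trace := by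
        rw [h2]
      rw [Matrix.mul_assoc, Matrix.mul_adjugate, h.2, one_smul, Matrix.mul_one, Matrix.smul_mul,
        Matrix.trace_smul, Matrix.trace_mul_comm, ← Matrix.mul_assoc, Matrix.adjugate_mul, h.2,
        one_smul, Matrix.one_mul, smul_eq_mul] at h4
      exact h4
    rw [Matrix.trace_fin_two] at h3
    have h4 : ζ = 1 := by
      have h5 : (ζ - 1) * (a.1 0 0 + a.1 1 1) = 0 := by linear_combination -h3
      rcases mul_eq_zero.mp h5 with h6 | h6
      · exact sub_eq_zero.mp h6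
      · exact absurd h6 ht
    rw [h2, h4, one_smul]
  · intro hc
    have h1 : h * a = a * h := Subtype.ext hc
    exact congrArg (fun x : SpecialLinearGroup (Fin 2) F =>
      (x : ProjectiveSpecialLinearGroup (Fin 2) F)) h1

open scoped Classical in
theorem isPart_psl [Fintype F] (hF : 7 ≤ Fintype.card F) (h2 : (2 : F) ≠ 0) :
    ∃ (A : Finset (ProjectiveSpecialLinearGroup (Fin 2) F)),
      A.card = Fintype.card F ^ 2 + Fintype.card F + 1 ∧ IsPart 1 A := by
  choose c μ hc hdet htr using fun r : Fin 3 → F => exists_psl_rep hF h2 r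
  let b : Projectivization F (Fin 3 → F) → SpecialLinearGroup (Fin 2) F := fun v =>
    ⟨!![(c v.rep • v.rep) 0 + μ v.rep, (c v.rep • v.rep) 1; (c v.rep • v.rep) 2, μ v.rep], by
      rw [Matrix.det_fin_two]
      have := hdet v.rep
      simpa using this⟩
  have hbv : ∀ v, (b v).1 =
    !![(c v.rep • v.rep) 0 + μ v.rep, (c v.rep • v.rep) 1; (c v.rep • v.rep) 2, μ v.rep] :=
      fun v => rfl
  have hbt : ∀ v, (b v).1 0 0 + (b v).1 1 1 ≠ 0 := by
    intro v
    rw [hbv]
    have := htr v.rep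
    simpa using this
  let a : Projectivization F (Fin 3 → F) → ProjectiveSpecialLinearGroup (Fin 2) F :=
    fun v => ((b v : SpecialLinearGroup (Fin 2) F) : ProjectiveSpecialLinearGroup (Fin 2) F)
  have hrep : ∀ v : Projectivization F (Fin 3 → F), c v.rep • v.rep ≠ 0 :=
    fun v => smul_ne_zero (hc v.rep) v.rep_nonzero
  have hmkrep : ∀ v : Projectivization F (Fin 3 → F),
      Projectivization.mk F (c v.rep • v.rep) (hrep v) = v := by
    intro v
    conv_rhs => rw [← v.mk_rep]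
    rw [Projectivization.mk_eq_mk_iff']
    exact ⟨c v.rep, rfl⟩
  have hcomm : ∀ (v : Projectivization F (Fin 3 → F)) (h : SpecialLinearGroup (Fin 2) F),
      (h : ProjectiveSpecialLinearGroup (Fin 2) F) * a v = a v * h ↔ h.1 * (b v).1 = (b v).1 * h.1 :=
    fun v h => psl_comm_iff (b v) h (hbt v)
  have hZ : ∀ (h : SpecialLinearGroup (Fin 2) F) (v : Projectivization F (Fin 3 → F))
      (hs : (![h.1 0 0 - h.1 1 1, h.1 0 1, h.1 1 0] : Fin 3 → F) ≠ 0),
      h.1 * (b v).1 = (b v).1 * h.1 ↔ Projectivization.mk F _ hs = v := by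
    intro h v hs
    rw [hbv, two_comm_iff, cross_iff _ _ hs (hrep v), hmkrep]
  have hZ0 : ∀ (h : SpecialLinearGroup (Fin 2) F) (v : Projectivization F (Fin 3 → F)),
      (![h.1 0 0 - h.1 1 1, h.1 0 1, h.1 1 0] : Fin 3 → F) = 0 → h.1 * (b v).1 = (b v).1 * h.1 := by
    intro h v hs
    rw [hbv, two_comm_iff, hs]
    intro i j
    simp
  have hvec : ∀ v, (![(b v).1 0 0 - (b v).1 1 1, (b v).1 0 1, (b v).1 1 0] : Fin 3 → F) =
      c v.rep • v.rep := by
    intro v
    rw [hbv]
    funext i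
    fin_cases i <;> simp
  have hcc : ∀ v w : Projectivization F (Fin 3 → F), a v * a w = a w * a v ↔ v = w := by
    intro v w
    rw [hcomm w (b v)]
    have hgen : ∀ (s : Fin 3 → F) (hs : s ≠ 0), s = c v.rep • v.rep →
        Projectivization.mk F s hs = v := by
      rintro s hs rfl
      exact hmkrep v
    have hs : (![(b v).1 0 0 - (b v).1 1 1, (b v).1 0 1, (b v).1 1 0] : Fin 3 → F) ≠ 0 := by
      rw [hvec]
      exact hrep v
    rw [hZ _ w hs, hgen _ hs (hvec v)]
  have hinj : Function.Injective a := by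
    intro v w hvw
    rw [← hcc v w, hvw]
  let _ : Fintype (Projectivization F (Fin 3 → F)) := Fintype.ofFinite _
  have hcardP : Fintype.card (Projectivization F (Fin 3 → F)) =
      Fintype.card F ^ 2 + Fintype.card F + 1 := by
    rw [← Nat.card_eq_fintype_card, Projectivization.card_of_finrank F (Fin 3 → F) (n := 3)
      (by simp)]
    rw [Nat.card_eq_fintype_card]
    simp [Finset.sum_range_succ]
    ring
  refine ⟨Finset.univ.map ⟨a, hinj⟩, ?_, ?_, ?_, ?_, ?_⟩
  · rw [Finset.card_map, Finset.card_univ, hcardP]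
  · rw [Finset.map_nonempty, Finset.univ_nonempty_iff, ← Fintype.card_pos_iff, hcardP]
    omega
  · intro x _ h _
    rw [mul_one, one_mul]
  · intro x hx
    rw [Finset.mem_map] at hx
    obtain ⟨v, _, rfl⟩ := hx
    obtain ⟨w, hw⟩ : ∃ w, v ≠ w := by
      have : 1 < Fintype.card (Projectivization F (Fin 3 → F)) := by
        rw [hcardP]
        omega
      obtain ⟨w, hw⟩ := Fintype.exists_ne_of_one_lt_card this v
      exact ⟨w, hw.symm⟩
    refine ⟨a w, Finset.mem_map.mpr ⟨w, Finset.mem_univ _, rfl⟩, ?_⟩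
    intro h
    exact hw ((hcc v w).mp h)
  · intro hbar _
    obtain ⟨h, rfl⟩ := QuotientGroup.mk_surjective hbar
    by_cases hs : (![h.1 0 0 - h.1 1 1, h.1 0 1, h.1 1 0] : Fin 3 → F) = 0
    · left
      intro x hx
      rw [Finset.mem_map] at hx
      obtain ⟨v, _, rfl⟩ := hx
      exact (hcomm v h).mpr (hZ0 h v hs)
    · right
      refine ⟨a (Projectivization.mk F _ hs), ⟨Finset.mem_map.mpr ⟨_, Finset.mem_univ _, rfl⟩,
        (hcomm _ h).mpr ((hZ h _ hs).mpr rfl)⟩, ?_⟩
      rintro x ⟨hx, hxc⟩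
      rw [Finset.mem_map] at hx
      obtain ⟨v, _, rfl⟩ := hx
      have := (hZ h v hs).mp ((hcomm v h).mp hxc)
      rw [← this]
      rfl

theorem mem_Ccomm_PSL [Finite F] (hF : 7 ≤ Nat.card F) (hodd : Odd (Nat.card F)) {p : ℕ}
    (hp : p.Prime) (hpq : p ∣ Nat.card F * (Nat.card F + 1)) :
    p ∈ Ccomm (ProjectiveSpecialLinearGroup (Fin 2) F) := by
  classical
  have : Fintype F := Fintype.ofFinite F
  rw [Nat.card_eq_fintype_card] at hF hodd hpq
  have h2 : (2 : F) ≠ 0 := by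
    intro h2
    obtain ⟨k, hk⟩ := hodd
    have h0 : ((Fintype.card F : ℕ) : F) = 0 := Nat.cast_card_eq_zero F
    rw [hk] at h0
    push_cast at h0
    rw [h2, zero_mul, zero_add] at h0
    exact one_ne_zero h0
  obtain ⟨A, hA, hP⟩ := isPart_psl hF h2
  obtain ⟨h3, h4, h5, h6⟩ := hP
  apply mem_Ccomm_of_partition _ _ h3 h4 h5 h6 hp
  rw [hA]
  have : Fintype.card F ^ 2 + Fintype.card F + 1 - 1 = Fintype.card F * (Fintype.card F + 1) := by
    rw [Nat.add_sub_cancel]
    ring
  rw [this]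
  exact hpq

end MP5fbfc2
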