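import Mathlib
import Pool.Agent.Lib.MP_5fbfc2_al.LP.PSL

/-!
# Special linear and projective special linear groups over finite fields of odd order
-/

namespace MP5fbfc2

open Matrix

/-- Passage of a partition to a quotient by a central subgroup whose cosets are not linked by
conjugation with the members of the partition. -/
lemma IsPart.quotient {G : Type*} [Group G] {N : Subgroup G} [N.Normal] {g₀ : G} {A : Finset G}
    (h : IsPart g₀ A) (h₀ : ∀ x, (x * g₀)⁻¹ * (g₀ * x) ∈ N → x * g₀ = g₀ * x)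
    (hA : ∀ a ∈ A, ∀ x, (x * a)⁻¹ * (a * x) ∈ N → x * a = a * x) (hN : N ≤ Subgroup.center G) :
    ∃ B : Finset (G ⧸ N), B.card = A.card ∧ IsPart (g₀ : G ⧸ N) B := by
  classical
  obtain ⟨hne, h1, h2, h3⟩ := h
  have hcomm : ∀ a : G, (∀ x : G, (x * a)⁻¹ * (a * x) ∈ N → x * a = a * x) → ∀ x : G,
      ((x : G ⧸ N) * (a : G ⧸ N) = (a : G ⧸ N) * (x : G ⧸ N)) ↔ x * a = a * x := by
    intro a ha x
    constructor
    · intro hx
      apply ha
      have hx' : ((x * a : G) : G ⧸ N) = ((a * x : G) : G ⧸ N) := hx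
      exact QuotientGroup.eq.mp hx'
    · intro hx
      exact congrArg (fun y : G => (y : G ⧸ N)) hx
  -- two members with the same image agree
  have hinj : ∀ a ∈ A, ∀ b ∈ A, (a : G ⧸ N) = (b : G ⧸ N) → a = b := by
    intro a ha b hb hab
    by_contra hne'
    have hz := QuotientGroup.eq.mp hab
    have hzc := Subgroup.mem_center_iff.mp (hN hz)
    have hb' : b = a * (a⁻¹ * b) := by group
    have hab' : a * b = b * a := by
      conv_lhs => rw [hb']
      conv_rhs => rw [hb', mul_assoc, ← hzc a]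
    have hg : a * g₀ = g₀ * a := h1 a ha a rfl
    rcases h3 a hg with hall | ⟨c, _, huniq⟩
    · obtain ⟨d, hd, hne2⟩ := h2 a ha
      exact hne2 (hall d hd)
    · exact hne' ((huniq a ⟨ha, rfl⟩).trans (huniq b ⟨hb, hab'⟩).symm)
  refine ⟨A.image (fun a : G => (a : G ⧸ N)), ?_, ?_, ?_, ?_, ?_⟩
  · exact Finset.card_image_of_injOn (fun a ha b hb hab => hinj a ha b hb hab)
  · exact hne.image _
  · intro b hb y hy
    obtain ⟨a, ha, rfl⟩ := Finset.mem_image.mp hb
    obtain ⟨x, rfl⟩ := QuotientGroup.mk_surjective y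
    exact (hcomm g₀ h₀ x).mpr (h1 a ha x ((hcomm a (hA a ha) x).mp hy))
  · intro b hb
    obtain ⟨a, ha, rfl⟩ := Finset.mem_image.mp hb
    obtain ⟨c, hc, hac⟩ := h2 a ha
    refine ⟨(c : G ⧸ N), Finset.mem_image.mpr ⟨c, hc, rfl⟩, ?_⟩
    intro hx
    exact hac ((hcomm c (hA c hc) a).mp hx)
  · intro y hy
    obtain ⟨x, rfl⟩ := QuotientGroup.mk_surjective y
    rcases h3 x ((hcomm g₀ h₀ x).mp hy) with hall | ⟨a, ⟨ha, hax⟩, huniq⟩
    · left
      intro b hb
      obtain ⟨a, ha, rfl⟩ := Finset.mem_image.mp hb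
      exact (hcomm a (hA a ha) x).mpr (hall a ha)
    · right
      refine ⟨(a : G ⧸ N), ⟨Finset.mem_image.mpr ⟨a, ha, rfl⟩, (hcomm a (hA a ha) x).mpr hax⟩, ?_⟩
      rintro b ⟨hb, hbx⟩
      obtain ⟨c, hc, rfl⟩ := Finset.mem_image.mp hb
      rw [huniq c ⟨hc, (hcomm c (hA c hc) x).mp hbx⟩]

lemma IsPart.congr {G : Type*} [Group G] {g₀ g₁ : G} {A : Finset G} (h : IsPart g₀ A)
    (hg : ∀ x, x * g₀ = g₀ * x ↔ x * g₁ = g₁ * x) : IsPart g₁ A := by
  obtain ⟨h0, h1, h2, h3⟩ := h
  exact ⟨h0, fun a ha x hx => (hg x).mp (h1 a ha x hx), h2, fun x hx => h3 x ((hg x).mpr hx)⟩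

variable {F : Type*} [Field F]

/-- Every point of the plane is represented by a matrix of determinant one and trace not two. -/
lemma exists_sl_rep [Fintype F] (hF : 5 ≤ Fintype.card F) (h2 : (2 : F) ≠ 0) (r : Fin 3 → F) :
    ∃ c μ : F, c ≠ 0 ∧ (c * r 0 + μ) * μ - (c * r 1) * (c * r 2) = 1 ∧ c * r 0 + μ + μ ≠ 2 := by
  obtain ⟨δ, hδ⟩ : ∃ δ : F, δ = r 0 ^ 2 / 4 + r 1 * r 2 := ⟨_, rfl⟩
  have h4 : (4 : F) ≠ 0 := by
    have : (4 : F) = 2 * 2 := by norm_num
    rw [this]
    exact mul_ne_zero h2 h2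
  have key : ∀ c α : F, c ≠ 0 → α ^ 2 - δ * c ^ 2 = 1 → α ≠ 1 →
      ∃ c μ : F, c ≠ 0 ∧ (c * r 0 + μ) * μ - (c * r 1) * (c * r 2) = 1 ∧
        c * r 0 + μ + μ ≠ 2 := by
    intro c α hc hconic hα
    refine ⟨c, α - c * r 0 / 2, hc, ?_, ?_⟩
    · rw [← hconic, hδ]
      field_simp
      ring
    · have : c * r 0 + (α - c * r 0 / 2) + (α - c * r 0 / 2) = 2 * α := by
        field_simp
        ring
      rw [this]
      intro h
      apply hα
      have h5 : 2 * (α - 1) = 0 := by linear_combination h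
      rcases mul_eq_zero.mp h5 with h6 | h6
      · exact absurd h6 h2
      · exact sub_eq_zero.mp h6
  by_cases hδ0 : δ = 0
  · apply key 1 (-1) one_ne_zero
    · rw [hδ0]
      ring
    · intro h
      apply h2
      linear_combination -h
  · obtain ⟨t, ht0, ht1⟩ : ∃ t : F, t ≠ 0 ∧ 1 - δ * t ^ 2 ≠ 0 := by
      open Polynomial in
      let f : F[X] := C (-δ) * X ^ 3 + X
      have hd : f.natDegree ≤ 3 := by
        unfold f
        compute_degree
      have hne : f ≠ 0 := by
        intro h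
        have h1 : f.coeff 1 = 0 := by rw [h, Polynomial.coeff_zero]
        unfold f at h1
        rw [Polynomial.coeff_add, Polynomial.coeff_C_mul, Polynomial.coeff_X_pow,
          Polynomial.coeff_X_one, if_neg (by norm_num), mul_zero, zero_add] at h1
        exact one_ne_zero h1
      obtain ⟨t, ht⟩ := Polynomial.exists_eval_ne_zero_of_natDegree_lt_card f hne (by
        rw [Cardinal.mk_fintype]
        have : f.natDegree < Fintype.card F := by omega
        exact_mod_cast this)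
      have hev : f.eval t = t * (1 - δ * t ^ 2) := by
        simp only [f, Polynomial.eval_add, Polynomial.eval_mul, Polynomial.eval_pow,
          Polynomial.eval_X, Polynomial.eval_C]
        ring
      rw [hev] at ht
      exact ⟨t, left_ne_zero_of_mul ht, right_ne_zero_of_mul ht⟩
    apply key (2 * t / (1 - δ * t ^ 2)) ((1 + δ * t ^ 2) / (1 - δ * t ^ 2))
    · exact div_ne_zero (mul_ne_zero h2 ht0) ht1
    · field_simp
      ring
    · intro h
      rw [div_eq_one_iff_eq ht1] at h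
      have h5 : 2 * (δ * t ^ 2) = 0 := by linear_combination h
      rcases mul_eq_zero.mp h5 with h6 | h6
      · exact h2 h6
      · exact mul_ne_zero hδ0 (pow_ne_zero 2 ht0) h6

/-- Every point of the plane is represented by a matrix of determinant one and trace different
from `2` and `-1`. -/
lemma exists_sl_rep' [Fintype F] (hF : 7 ≤ Fintype.card F) (h2 : (2 : F) ≠ 0) (r : Fin 3 → F) :
    ∃ c μ : F, c ≠ 0 ∧ (c * r 0 + μ) * μ - (c * r 1) * (c * r 2) = 1 ∧ c * r 0 + μ + μ ≠ 2 ∧
      c * r 0 + μ + μ ≠ -1 := by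
  obtain ⟨δ, hδ⟩ : ∃ δ : F, δ = r 0 ^ 2 / 4 + r 1 * r 2 := ⟨_, rfl⟩
  have h4 : (4 : F) ≠ 0 := by
    have : (4 : F) = 2 * 2 := by norm_num
    rw [this]
    exact mul_ne_zero h2 h2
  have key : ∀ c α : F, c ≠ 0 → α ^ 2 - δ * c ^ 2 = 1 → α ≠ 1 → 2 * α ≠ -1 →
      ∃ c μ : F, c ≠ 0 ∧ (c * r 0 + μ) * μ - (c * r 1) * (c * r 2) = 1 ∧
        c * r 0 + μ + μ ≠ 2 ∧ c * r 0 + μ + μ ≠ -1 := by
    intro c α hc hconic hα hα'
    have htr : c * r 0 + (α - c * r 0 / 2) + (α - c * r 0 / 2) = 2 * α := by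
      field_simp
      ring
    refine ⟨c, α - c * r 0 / 2, hc, ?_, ?_, ?_⟩
    · rw [← hconic, hδ]
      field_simp
      ring
    · rw [htr]
      intro h
      apply hα
      have h5 : 2 * (α - 1) = 0 := by linear_combination h
      rcases mul_eq_zero.mp h5 with h6 | h6
      · exact absurd h6 h2
      · exact sub_eq_zero.mp h6
    · rw [htr]
      exact hα'
  by_cases hδ0 : δ = 0
  · apply key 1 (-1) one_ne_zero
    · rw [hδ0]
      ring
    · intro h
      apply h2
      linear_combination -h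
    · intro h
      have : (1 : F) = 0 := by linear_combination -h
      exact one_ne_zero this
  · obtain ⟨t, ht0, ht1, ht2⟩ : ∃ t : F, t ≠ 0 ∧ 1 - δ * t ^ 2 ≠ 0 ∧ 3 + δ * t ^ 2 ≠ 0 := by
      open Polynomial in
      let f : F[X] := C (-(δ ^ 2)) * X ^ 5 + C (-2 * δ) * X ^ 3 + C 3 * X
      have hd : f.natDegree ≤ 5 := by
        unfold f
        compute_degree
      have hne : f ≠ 0 := by
        intro h
        have h1 : f.coeff 5 = 0 := by rw [h, Polynomial.coeff_zero]
        unfold f at h1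
        rw [Polynomial.coeff_add, Polynomial.coeff_add, Polynomial.coeff_C_mul,
          Polynomial.coeff_C_mul, Polynomial.coeff_C_mul, Polynomial.coeff_X_pow,
          Polynomial.coeff_X_pow, Polynomial.coeff_X, if_pos rfl, if_neg (by norm_num),
          if_neg (by norm_num), mul_one, mul_zero, mul_zero, add_zero, add_zero,
          neg_eq_zero] at h1
        exact hδ0 (pow_eq_zero_iff (two_ne_zero) |>.mp h1)
      obtain ⟨t, ht⟩ := Polynomial.exists_eval_ne_zero_of_natDegree_lt_card f hne (by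
        rw [Cardinal.mk_fintype]
        have : f.natDegree < Fintype.card F := by omega
        exact_mod_cast this)
      have hev : f.eval t = t * (1 - δ * t ^ 2) * (3 + δ * t ^ 2) := by
        simp only [f, Polynomial.eval_add, Polynomial.eval_mul, Polynomial.eval_pow,
          Polynomial.eval_X, Polynomial.eval_C]
        ring
      rw [hev] at ht
      exact ⟨t, left_ne_zero_of_mul (left_ne_zero_of_mul ht),
        right_ne_zero_of_mul (left_ne_zero_of_mul ht), right_ne_zero_of_mul ht⟩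
    apply key (2 * t / (1 - δ * t ^ 2)) ((1 + δ * t ^ 2) / (1 - δ * t ^ 2))
    · exact div_ne_zero (mul_ne_zero h2 ht0) ht1
    · field_simp
      ring
    · intro h
      rw [div_eq_one_iff_eq ht1] at h
      have h5 : 2 * (δ * t ^ 2) = 0 := by linear_combination h
      rcases mul_eq_zero.mp h5 with h6 | h6
      · exact h2 h6
      · exact mul_ne_zero hδ0 (pow_ne_zero 2 ht0) h6
    · intro h
      apply ht2
      have h5 : 2 * (1 + δ * t ^ 2) = -1 * (1 - δ * t ^ 2) := by
        have h6 : 2 * ((1 + δ * t ^ 2) / (1 - δ * t ^ 2)) * (1 - δ * t ^ 2) =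
            2 * (1 + δ * t ^ 2) := by
          field_simp
        rw [← h6, h]
      linear_combination h5

/-- The block diagonal matrix with blocks `1` and `b`. -/
def blk (m : ℕ) (b : Matrix (Fin 2) (Fin 2) F) (hb : b.det = 1) :
    SpecialLinearGroup (Fin m ⊕ Fin 2) F :=
  ⟨fromBlocks ((1 : F) • (1 : Matrix (Fin m) (Fin m) F)) 0 0 b, by
    rw [Matrix.det_fromBlocks_zero₂₁, one_smul, Matrix.det_one, one_mul, hb]⟩

lemma exists_scalar {ι : Type*} [Fintype ι] [DecidableEq ι] (g h : SpecialLinearGroup ι F)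
    (hh : (h * g)⁻¹ * (g * h) ∈ Subgroup.center (SpecialLinearGroup ι F)) :
    ∃ ζ : F, g.1 * h.1 = ζ • (h.1 * g.1) := by
  rw [Matrix.SpecialLinearGroup.mem_center_iff] at hh
  obtain ⟨ζ, _, hz⟩ := hh
  refine ⟨ζ, ?_⟩
  have h3 : g * h = (h * g) * ((h * g)⁻¹ * (g * h)) := by group
  have h5 : (g * h).1 = (h * g).1 * ((h * g)⁻¹ * (g * h)).1 := congrArg Subtype.val h3
  rw [← hz] at h5
  have h6 : (g * h).1 = g.1 * h.1 := rfl
  have h7 : (h * g).1 = h.1 * g.1 := rfl
  rw [h6, h7, scalar_apply, ← Matrix.smul_one_eq_diagonal, Matrix.mul_smul, Matrix.mul_one] at h5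
  exact h5

/-- No nonzero vector is killed. -/
lemma mulVec_ne {ι : Type*} [Fintype ι] [DecidableEq ι] (h : SpecialLinearGroup ι F)
    {w : ι → F} (hw : h.1.mulVec w = 0) : w = 0 := by
  have h7 : (h.1.adjugate * h.1).mulVec w = 0 := by
    rw [← Matrix.mulVec_mulVec, hw, Matrix.mulVec_zero]
  rwa [Matrix.adjugate_mul, h.2, one_smul, Matrix.one_mulVec] at h7

/-- The block relations. -/
lemma block_rel {m : ℕ} {l : F} (hl : l ≠ 0) (b : Matrix (Fin 2) (Fin 2) F)
    (h : SpecialLinearGroup (Fin m ⊕ Fin 2) F) {ζ : F} (hζ : ζ ≠ 1)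
    (h2 : fromBlocks (l • (1 : Matrix (Fin m) (Fin m) F)) 0 0 b * h.1 =
      ζ • (h.1 * fromBlocks (l • (1 : Matrix (Fin m) (Fin m) F)) 0 0 b)) :
    h.1.toBlocks₁₁ = 0 ∧ l • h.1.toBlocks₁₂ = ζ • (h.1.toBlocks₁₂ * b) ∧
      b * h.1.toBlocks₂₁ = (ζ * l) • h.1.toBlocks₂₁ ∧
      b * h.1.toBlocks₂₂ = ζ • (h.1.toBlocks₂₂ * b) := by
  rw [← fromBlocks_toBlocks h.1, fromBlocks_multiply, fromBlocks_multiply,
    fromBlocks_smul, fromBlocks_inj] at h2
  obtain ⟨h11, h12, h21, h22⟩ := h2
  simp only [Matrix.smul_mul, Matrix.one_mul, Matrix.zero_mul, add_zero, zero_add,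
    Matrix.mul_smul, Matrix.mul_one, Matrix.mul_zero] at h11 h12 h21 h22
  refine ⟨?_, h12, ?_, h22⟩
  · have h6 : ((1 - ζ) * l) • h.1.toBlocks₁₁ = 0 := by
      rw [sub_mul, one_mul, sub_smul, sub_eq_zero, mul_smul]
      exact h11
    rcases smul_eq_zero.mp h6 with h7 | h7
    · rcases mul_eq_zero.mp h7 with h8 | h8
      · exact absurd (sub_eq_zero.mp h8).symm hζ
      · exact absurd h8 hl
    · exact h7
  · rw [h21, mul_smul]

/-- If the upper left block vanishes, the lower left block is injective. -/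
lemma toBlocks₂₁_injective {m : ℕ} (h : SpecialLinearGroup (Fin m ⊕ Fin 2) F)
    (h11 : h.1.toBlocks₁₁ = 0) {w : Fin m → F} (hw : h.1.toBlocks₂₁.mulVec w = 0) : w = 0 := by
  have h5 : h.1.mulVec (Sum.elim w 0) = 0 := by
    conv_lhs => rw [← fromBlocks_toBlocks h.1]
    rw [fromBlocks_mulVec]
    simp [h11, hw]
  funext i
  exact congrFun (mulVec_ne h h5) (Sum.inl i)

/-- If the lower right block vanishes, the upper right block is injective. -/
lemma toBlocks₁₂_injective {m : ℕ} (h : SpecialLinearGroup (Fin m ⊕ Fin 2) F)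
    (h22 : h.1.toBlocks₂₂ = 0) {w : Fin 2 → F} (hw : h.1.toBlocks₁₂.mulVec w = 0) : w = 0 := by
  have h5 : h.1.mulVec (Sum.elim 0 w) = 0 := by
    conv_lhs => rw [← fromBlocks_toBlocks h.1]
    rw [fromBlocks_mulVec]
    simp [h22, hw]
  funext i
  exact congrFun (mulVec_ne h h5) (Sum.inr i)

lemma blk_rigid_three {m : ℕ} (hm : 3 ≤ m) (b : Matrix (Fin 2) (Fin 2) F) (hb : b.det = 1)
    (h : SpecialLinearGroup (Fin m ⊕ Fin 2) F)
    (hh : (h * blk m b hb)⁻¹ * (blk m b hb * h) ∈
      Subgroup.center (SpecialLinearGroup (Fin m ⊕ Fin 2) F)) :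
    h * blk m b hb = blk m b hb * h := by
  obtain ⟨ζ, h2⟩ := exists_scalar _ _ hh
  by_cases hζ : ζ = 1
  · apply Subtype.ext
    show h.1 * (blk m b hb).1 = (blk m b hb).1 * h.1
    rw [h2, hζ, one_smul]
  · exfalso
    obtain ⟨h11, _, _, _⟩ := block_rel one_ne_zero b h hζ h2
    have h4 : LinearMap.ker (h.1.toBlocks₂₁.mulVecLin) ≠ ⊥ := by
      apply LinearMap.ker_ne_bot_of_finrank_lt
      simp
      omega
    obtain ⟨w, hw, hw0⟩ := Submodule.exists_mem_ne_zero_of_ne_bot h4
    exact hw0 (toBlocks₂₁_injective h h11 hw)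

lemma blk_rigid_two (b : Matrix (Fin 2) (Fin 2) F) (hb : b.det = 1)
    (hbn : ∀ x : F, b ≠ x • (1 : Matrix (Fin 2) (Fin 2) F))
    (h : SpecialLinearGroup (Fin 2 ⊕ Fin 2) F)
    (hh : (h * blk 2 b hb)⁻¹ * (blk 2 b hb * h) ∈
      Subgroup.center (SpecialLinearGroup (Fin 2 ⊕ Fin 2) F)) :
    h * blk 2 b hb = blk 2 b hb * h := by
  obtain ⟨ζ, h2⟩ := exists_scalar _ _ hh
  by_cases hζ : ζ = 1
  · apply Subtype.ext
    show h.1 * (blk 2 b hb).1 = (blk 2 b hb).1 * h.1
    rw [h2, hζ, one_smul]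
  · exfalso
    obtain ⟨h11, _, h21, _⟩ := block_rel one_ne_zero b h hζ h2
    have hdet : h.1.toBlocks₂₁.det ≠ 0 := by
      intro hd
      obtain ⟨w, hw0, hw⟩ := Matrix.exists_mulVec_eq_zero_iff.mpr hd
      exact hw0 (toBlocks₂₁_injective h h11 hw)
    apply hbn (ζ * 1)
    have h5 := congrArg (fun X => X * h.1.toBlocks₂₁.adjugate) h21
    simp only [Matrix.mul_assoc, Matrix.smul_mul, Matrix.mul_adjugate, Matrix.mul_smul,
      Matrix.mul_one] at h5
    rw [smul_comm] at h5
    exact smul_right_injective _ hdet h5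

lemma blk_rigid_one (b : Matrix (Fin 2) (Fin 2) F) (hb : b.det = 1)
    (hbt : b 0 0 + b 1 1 ≠ -1) (h : SpecialLinearGroup (Fin 1 ⊕ Fin 2) F)
    (hh : (h * blk 1 b hb)⁻¹ * (blk 1 b hb * h) ∈
      Subgroup.center (SpecialLinearGroup (Fin 1 ⊕ Fin 2) F)) :
    h * blk 1 b hb = blk 1 b hb * h := by
  obtain ⟨ζ, h2⟩ := exists_scalar _ _ hh
  have h3 : (blk 1 b hb).1.trace = ζ * (blk 1 b hb).1.trace := by
    have h4 : ((blk 1 b hb).1 * h.1 * h.1.adjugate).trace =
        (ζ • (h.1 * (blk 1 b hb).1) * h.1.adjugate).trace := by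
      rw [h2]
    rw [Matrix.mul_assoc, Matrix.mul_adjugate, h.2, one_smul, Matrix.mul_one, Matrix.smul_mul,
      Matrix.trace_smul, Matrix.trace_mul_comm, ← Matrix.mul_assoc, Matrix.adjugate_mul, h.2,
      one_smul, Matrix.one_mul, smul_eq_mul] at h4
    exact h4
  have h5 : (blk 1 b hb).1.trace = 1 + (b 0 0 + b 1 1) := by
    have h6 : (blk 1 b hb).1 = fromBlocks ((1 : F) • (1 : Matrix (Fin 1) (Fin 1) F)) 0 0 b := rfl
    rw [h6, Matrix.trace, Fintype.sum_sum_type]
    simp [Matrix.diag, Fin.sum_univ_two]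
  have h6 : (blk 1 b hb).1.trace ≠ 0 := by
    rw [h5]
    intro h7
    apply hbt
    linear_combination h7
  have hζ : ζ = 1 := by
    have h7 : (ζ - 1) * (blk 1 b hb).1.trace = 0 := by linear_combination -h3
    rcases mul_eq_zero.mp h7 with h8 | h8
    · exact sub_eq_zero.mp h8
    · exact absurd h8 h6
  apply Subtype.ext
  show h.1 * (blk 1 b hb).1 = (blk 1 b hb).1 * h.1
  rw [h2, hζ, one_smul]

open scoped Classical in
theorem isPart_sl [Fintype F] (h2 : (2 : F) ≠ 0) (m : ℕ) (T : F → Prop)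
    (hT : ∀ r : Fin 3 → F, ∃ c μ : F, c ≠ 0 ∧ (c * r 0 + μ) * μ - (c * r 1) * (c * r 2) = 1 ∧
      c * r 0 + μ + μ ≠ 2 ∧ T (c * r 0 + μ + μ)) :
    ∃ (hb₀ : (-1 : Matrix (Fin 2) (Fin 2) F).det = 1)
      (A : Finset (SpecialLinearGroup (Fin m ⊕ Fin 2) F)),
      A.card = Fintype.card F ^ 2 + Fintype.card F + 1 ∧ IsPart (blk m (-1) hb₀) A ∧
      ∀ a ∈ A, ∃ b hb, a = blk m b hb ∧ T (b 0 0 + b 1 1) ∧
        ∀ x : F, b ≠ x • (1 : Matrix (Fin 2) (Fin 2) F) := by
  have h4 : (4 : F) ≠ 0 := by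
    have : (4 : F) = 2 * 2 := by norm_num
    rw [this]
    exact mul_ne_zero h2 h2
  choose c μ hc hdet htr hTr using hT
  let bm : Projectivization F (Fin 3 → F) → Matrix (Fin 2) (Fin 2) F := fun v =>
    !![(c v.rep • v.rep) 0 + μ v.rep, (c v.rep • v.rep) 1; (c v.rep • v.rep) 2, μ v.rep]
  have hbmd : ∀ v, (bm v).det = 1 := by
    intro v
    rw [Matrix.det_fin_two]
    have := hdet v.rep
    simpa [bm] using this
  have hdet1 : ∀ b : Matrix (Fin 2) (Fin 2) F, b.det = 1 → b 0 0 + b 1 1 ≠ 2 →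
      (b - (1 : F) • (1 : Matrix (Fin 2) (Fin 2) F)).det ≠ 0 := by
    intro b hb htr h
    apply htr
    rw [Matrix.det_fin_two] at hb h
    simp at h
    linear_combination hb - h
  have hbm1 : ∀ v, (bm v - (1 : F) • (1 : Matrix (Fin 2) (Fin 2) F)).det ≠ 0 := by
    intro v
    apply hdet1 _ (hbmd v)
    have := htr v.rep
    simpa [bm] using this
  have hb₀ : (-1 : Matrix (Fin 2) (Fin 2) F).det = 1 := by
    rw [Matrix.det_fin_two]
    simp
  have hb₀1 : ((-1 : Matrix (Fin 2) (Fin 2) F) - (1 : F) • (1 : Matrix (Fin 2) (Fin 2) F)).det ≠ 0 := by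
    apply hdet1 _ hb₀
    simp only [Matrix.neg_apply, Matrix.one_apply_eq]
    intro h
    apply h4
    linear_combination -h
  have hrep : ∀ v : Projectivization F (Fin 3 → F), c v.rep • v.rep ≠ 0 :=
    fun v => smul_ne_zero (hc v.rep) v.rep_nonzero
  have hmkrep : ∀ v : Projectivization F (Fin 3 → F),
      Projectivization.mk F (c v.rep • v.rep) (hrep v) = v := by
    intro v
    conv_rhs => rw [← v.mk_rep]
    rw [Projectivization.mk_eq_mk_iff']
    exact ⟨c v.rep, rfl⟩
  have hcomm : ∀ (h g : SpecialLinearGroup (Fin m ⊕ Fin 2) F), h * g = g * h ↔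
      h.1 * g.1 = g.1 * h.1 := by
    intro h g
    exact ⟨fun h' => congrArg Subtype.val h', fun h' => Subtype.ext h'⟩
  let a : Projectivization F (Fin 3 → F) → SpecialLinearGroup (Fin m ⊕ Fin 2) F :=
    fun v => blk m (bm v) (hbmd v)
  have hcomma : ∀ (v : Projectivization F (Fin 3 → F)) (h : SpecialLinearGroup (Fin m ⊕ Fin 2) F),
      h * a v = a v * h ↔ ∃ (U : Matrix (Fin m) (Fin m) F) (Z : Matrix (Fin 2) (Fin 2) F),
        h.1 = fromBlocks U 0 0 Z ∧ Z * bm v = bm v * Z := by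
    intro v h
    rw [hcomm]
    exact block_comm_iff 1 (bm v) (hbm1 v) h.1
  have hcomm0 : ∀ (h : SpecialLinearGroup (Fin m ⊕ Fin 2) F),
      h * blk m (-1) hb₀ = blk m (-1) hb₀ * h ↔
        ∃ (U : Matrix (Fin m) (Fin m) F) (Z : Matrix (Fin 2) (Fin 2) F),
        h.1 = fromBlocks U 0 0 Z := by
    intro h
    rw [hcomm]
    have h5 := block_comm_iff 1 (-1 : Matrix (Fin 2) (Fin 2) F) hb₀1 h.1
    constructor
    · intro h6
      obtain ⟨U, Z, hUZ, _⟩ := h5.mp h6
      exact ⟨U, Z, hUZ⟩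
    · rintro ⟨U, Z, hUZ⟩
      exact h5.mpr ⟨U, Z, hUZ, by simp⟩
  have hZ : ∀ (Z : Matrix (Fin 2) (Fin 2) F) (v : Projectivization F (Fin 3 → F))
      (hs : (![Z 0 0 - Z 1 1, Z 0 1, Z 1 0] : Fin 3 → F) ≠ 0),
      Z * bm v = bm v * Z ↔ Projectivization.mk F _ hs = v := by
    intro Z v hs
    rw [two_comm_iff, cross_iff _ _ hs (hrep v), hmkrep]
  have hZ0 : ∀ (Z : Matrix (Fin 2) (Fin 2) F) (v : Projectivization F (Fin 3 → F)),
      (![Z 0 0 - Z 1 1, Z 0 1, Z 1 0] : Fin 3 → F) = 0 → Z * bm v = bm v * Z := by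
    intro Z v hs
    rw [two_comm_iff, hs]
    intro i j
    simp
  have hvec : ∀ v, (![bm v 0 0 - bm v 1 1, bm v 0 1, bm v 1 0] : Fin 3 → F) =
      c v.rep • v.rep := by
    intro v
    funext i
    fin_cases i <;> simp [bm]
  have hcc : ∀ v w : Projectivization F (Fin 3 → F), a v * a w = a w * a v ↔ v = w := by
    intro v w
    rw [hcomma w (a v)]
    constructor
    · rintro ⟨U, Z, hUZ, hZb⟩
      have h1 : (a v).1 = fromBlocks ((1 : F) • (1 : Matrix (Fin m) (Fin m) F)) 0 0 (bm v) := rfl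
      rw [h1, fromBlocks_inj] at hUZ
      rw [← hUZ.2.2.2] at hZb
      have hgen : ∀ (s : Fin 3 → F) (hs : s ≠ 0), s = c v.rep • v.rep →
          Projectivization.mk F s hs = v := by
        rintro s hs rfl
        exact hmkrep v
      have hs : (![bm v 0 0 - bm v 1 1, bm v 0 1, bm v 1 0] : Fin 3 → F) ≠ 0 := by
        rw [hvec]
        exact hrep v
      rw [hZ _ w hs, hgen _ hs (hvec v)] at hZb
      exact hZb
    · rintro rfl
      exact ⟨_, _, rfl, rfl⟩
  have hinj : Function.Injective a := by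
    intro v w hvw
    rw [← hcc v w, hvw]
  let _ : Fintype (Projectivization F (Fin 3 → F)) := Fintype.ofFinite _
  have hcardP : Fintype.card (Projectivization F (Fin 3 → F)) =
      Fintype.card F ^ 2 + Fintype.card F + 1 := by
    rw [← Nat.card_eq_fintype_card, Projectivization.card_of_finrank F (Fin 3 → F) (n := 3)
      (by simp)]
    rw [Nat.card_eq_fintype_card]
    simp [Finset.sum_range_succ]
    ring
  have hq : 0 < Fintype.card F := Fintype.card_pos
  refine ⟨hb₀, Finset.univ.map ⟨a, hinj⟩, ?_, ⟨?_, ?_, ?_, ?_⟩, ?_⟩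
  · rw [Finset.card_map, Finset.card_univ, hcardP]
  · rw [Finset.map_nonempty, Finset.univ_nonempty_iff, ← Fintype.card_pos_iff, hcardP]
    omega
  · intro b hb h hc
    rw [Finset.mem_map] at hb
    obtain ⟨v, _, rfl⟩ := hb
    obtain ⟨U, Z, hUZ, _⟩ := (hcomma v h).mp hc
    exact (hcomm0 h).mpr ⟨U, Z, hUZ⟩
  · intro b hb
    rw [Finset.mem_map] at hb
    obtain ⟨v, _, rfl⟩ := hb
    obtain ⟨w, hw⟩ : ∃ w, v ≠ w := by
      have : 1 < Fintype.card (Projectivization F (Fin 3 → F)) := by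
        rw [hcardP]
        omega
      obtain ⟨w, hw⟩ := Fintype.exists_ne_of_one_lt_card this v
      exact ⟨w, hw.symm⟩
    refine ⟨a w, Finset.mem_map.mpr ⟨w, Finset.mem_univ _, rfl⟩, ?_⟩
    intro h
    exact hw ((hcc v w).mp h)
  · intro h hc
    obtain ⟨U, Z, hUZ⟩ := (hcomm0 h).mp hc
    have hac : ∀ v, h * a v = a v * h ↔ Z * bm v = bm v * Z := by
      intro v
      rw [hcomma]
      constructor
      · rintro ⟨U', Z', h1, h2⟩
        rw [hUZ, fromBlocks_inj] at h1
        rw [h1.2.2.2]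
        exact h2
      · intro h2
        exact ⟨U, Z, hUZ, h2⟩
    by_cases hs : (![Z 0 0 - Z 1 1, Z 0 1, Z 1 0] : Fin 3 → F) = 0
    · left
      intro b hb
      rw [Finset.mem_map] at hb
      obtain ⟨v, _, rfl⟩ := hb
      exact (hac v).mpr (hZ0 Z v hs)
    · right
      refine ⟨a (Projectivization.mk F _ hs), ⟨Finset.mem_map.mpr ⟨_, Finset.mem_univ _, rfl⟩,
        (hac _).mpr ((hZ Z _ hs).mpr rfl)⟩, ?_⟩
      rintro b ⟨hb, hbc⟩
      rw [Finset.mem_map] at hb
      obtain ⟨v, _, rfl⟩ := hb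
      have := (hZ Z v hs).mp ((hac v).mp hbc)
      rw [← this]
      rfl
  · intro b hb
    rw [Finset.mem_map] at hb
    obtain ⟨v, _, rfl⟩ := hb
    refine ⟨bm v, hbmd v, rfl, ?_, ?_⟩
    · have := hTr v.rep
      simpa [bm] using this
    · intro x hx
      apply hrep v
      rw [← hvec v, hx]
      funext i
      fin_cases i <;> simp

/-- Change of the index set of a special linear group. -/
def slEquiv {ι κ : Type*} [Fintype ι] [DecidableEq ι] [Fintype κ] [DecidableEq κ] (e : ι ≃ κ) :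
    SpecialLinearGroup ι F ≃* SpecialLinearGroup κ F where
  toFun A := ⟨Matrix.reindex e e A.1, by rw [Matrix.det_reindex_self]; exact A.2⟩
  invFun A := ⟨Matrix.reindex e.symm e.symm A.1, by rw [Matrix.det_reindex_self]; exact A.2⟩
  left_inv A := by
    apply Subtype.ext
    ext i j
    simp
  right_inv A := by
    apply Subtype.ext
    ext i j
    simp
  map_mul' A B := by
    apply Subtype.ext
    show Matrix.reindex e e (A.1 * B.1) = Matrix.reindex e e A.1 * Matrix.reindex e e B.1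
    rw [Matrix.reindex_apply, Matrix.reindex_apply, Matrix.reindex_apply,
      Matrix.submatrix_mul_equiv]

lemma two_ne_zero_of_odd [Fintype F] (hodd : Odd (Fintype.card F)) : (2 : F) ≠ 0 := by
  intro h2
  obtain ⟨k, hk⟩ := hodd
  have h0 : ((Fintype.card F : ℕ) : F) = 0 := Nat.cast_card_eq_zero F
  rw [hk] at h0
  push_cast at h0
  rw [h2, zero_mul, zero_add] at h0
  exact one_ne_zero h0

theorem mem_Ccomm_SL [Finite F] (hF : 5 ≤ Nat.card F) (hodd : Odd (Nat.card F)) {n : ℕ}
    (hn : 2 ≤ n) {p : ℕ} (hp : p.Prime) (hpq : p ∣ Nat.card F * (Nat.card F + 1)) :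
    p ∈ Ccomm (SpecialLinearGroup (Fin n) F) := by
  classical
  have : Fintype F := Fintype.ofFinite F
  rw [Nat.card_eq_fintype_card] at hF hodd hpq
  obtain ⟨m, rfl⟩ : ∃ m, n = m + 2 := ⟨n - 2, by omega⟩
  obtain ⟨hb₀, A, hA, hP, _⟩ := isPart_sl (two_ne_zero_of_odd hodd) m (fun _ => True)
    (fun r => by
      obtain ⟨c, μ, h1, h2, h3⟩ := exists_sl_rep hF (two_ne_zero_of_odd hodd) r
      exact ⟨c, μ, h1, h2, h3, trivial⟩)
  obtain ⟨h3, h4, h5, h6⟩ := hP.map (slEquiv (F := F) (finSumFinEquiv (m := m) (n := 2)))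
  apply mem_Ccomm_of_partition _ _ h3 h4 h5 h6 hp
  rw [Finset.card_map, hA]
  have : Fintype.card F ^ 2 + Fintype.card F + 1 - 1 = Fintype.card F * (Fintype.card F + 1) := by
    rw [Nat.add_sub_cancel]
    ring
  rw [this]
  exact hpq

/-- The partition in the projective special linear group, for block size `m ≥ 1`. -/
theorem exists_isPart_psln [Fintype F] (hF : 7 ≤ Fintype.card F) (h2 : (2 : F) ≠ 0) {m : ℕ}
    (hm : 1 ≤ m) : ∃ (g₀ : ProjectiveSpecialLinearGroup (Fin m ⊕ Fin 2) F)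
      (B : Finset (ProjectiveSpecialLinearGroup (Fin m ⊕ Fin 2) F)),
      B.card = Fintype.card F ^ 2 + Fintype.card F + 1 ∧ IsPart g₀ B := by
  classical
  obtain ⟨hb₀, A, hA, hP, hAb⟩ := isPart_sl h2 m (fun x => x ≠ -1)
    (fun r => exists_sl_rep' hF h2 r)
  have hrigA : ∀ a ∈ A, ∀ x, (x * a)⁻¹ * (a * x) ∈
      Subgroup.center (SpecialLinearGroup (Fin m ⊕ Fin 2) F) → x * a = a * x := by
    intro a ha x hx
    obtain ⟨b, hb, rfl, hbt, hbn⟩ := hAb a ha
    by_cases h1 : m = 1
    · subst h1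
      exact blk_rigid_one b hb hbt x hx
    · by_cases h2 : m = 2
      · subst h2
        exact blk_rigid_two b hb hbn x hx
      · exact blk_rigid_three (by omega) b hb x hx
  -- the element g₀
  obtain ⟨g₁, hg₁, hrig⟩ : ∃ g₁ : SpecialLinearGroup (Fin m ⊕ Fin 2) F,
      (∀ x, x * blk m (-1) hb₀ = blk m (-1) hb₀ * x ↔ x * g₁ = g₁ * x) ∧
      ∀ x, (x * g₁)⁻¹ * (g₁ * x) ∈
        Subgroup.center (SpecialLinearGroup (Fin m ⊕ Fin 2) F) → x * g₁ = g₁ * x := by
    by_cases hm2 : m = 2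
    · subst hm2
      obtain ⟨y, hy0, hy4⟩ : ∃ y : F, y ≠ 0 ∧ y ^ 4 ≠ 1 := by
        open Polynomial in
        let f : F[X] := X ^ 5 + C (-1) * X
        have hd : f.natDegree ≤ 5 := by
          unfold f
          compute_degree
        have hne : f ≠ 0 := by
          intro h
          have h1 : f.coeff 1 = 0 := by rw [h, Polynomial.coeff_zero]
          unfold f at h1
          rw [Polynomial.coeff_add, Polynomial.coeff_C_mul, Polynomial.coeff_X_pow,
            Polynomial.coeff_X_one, if_neg (by norm_num), zero_add, mul_one] at h1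
          exact one_ne_zero (neg_eq_zero.mp h1)
        obtain ⟨t, ht⟩ := Polynomial.exists_eval_ne_zero_of_natDegree_lt_card f hne (by
          rw [Cardinal.mk_fintype]
          have : f.natDegree < Fintype.card F := by omega
          exact_mod_cast this)
        have hev : f.eval t = t * (t ^ 4 - 1) := by
          simp only [f, Polynomial.eval_add, Polynomial.eval_mul, Polynomial.eval_pow,
            Polynomial.eval_X, Polynomial.eval_C]
          ring
        rw [hev] at ht
        exact ⟨t, left_ne_zero_of_mul ht, sub_ne_zero.mp (right_ne_zero_of_mul ht)⟩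
      have hdet : (fromBlocks (y⁻¹ • (1 : Matrix (Fin 2) (Fin 2) F)) 0 0
          (y • (1 : Matrix (Fin 2) (Fin 2) F))).det = 1 := by
        rw [Matrix.det_fromBlocks_zero₂₁, Matrix.det_smul, Matrix.det_smul, Matrix.det_one,
          mul_one, mul_one, ← mul_pow, inv_mul_cancel₀ hy0, one_pow]
      have hyy : y⁻¹ ≠ y := by
        intro h
        apply hy4
        have h3 : y ^ 2 = 1 := by
          have : y * y⁻¹ = 1 := mul_inv_cancel₀ hy0
          rw [h] at this
          rw [pow_two]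
          exact this
        calc y ^ 4 = (y ^ 2) ^ 2 := by ring
          _ = 1 := by rw [h3, one_pow]
      have hdy : ((y • (1 : Matrix (Fin 2) (Fin 2) F)) - y⁻¹ • (1 : Matrix (Fin 2) (Fin 2) F)).det
          ≠ 0 := by
        rw [← sub_smul, Matrix.det_smul, Matrix.det_one, mul_one]
        exact pow_ne_zero _ (sub_ne_zero.mpr hyy.symm)
      have hdm : ((-1 : Matrix (Fin 2) (Fin 2) F) - (1 : F) • (1 : Matrix (Fin 2) (Fin 2) F)).det
          ≠ 0 := by
        rw [Matrix.det_fin_two]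
        simp
        intro h
        apply h2
        linear_combination -h
      refine ⟨⟨_, hdet⟩, ?_, ?_⟩
      · intro x
        have e1 : x * blk 2 (-1) hb₀ = blk 2 (-1) hb₀ * x ↔ ∃ (U : Matrix (Fin 2) (Fin 2) F)
            (Z : Matrix (Fin 2) (Fin 2) F), x.1 = fromBlocks U 0 0 Z := by
          have h5 := block_comm_iff 1 (-1 : Matrix (Fin 2) (Fin 2) F) hdm x.1
          constructor
          · intro h6
            obtain ⟨U, Z, hUZ, _⟩ := h5.mp (congrArg Subtype.val h6)
            exact ⟨U, Z, hUZ⟩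
          · rintro ⟨U, Z, hUZ⟩
            exact Subtype.ext (h5.mpr ⟨U, Z, hUZ, by simp⟩)
        rw [e1]
        have h5 := block_comm_iff y⁻¹ (y • (1 : Matrix (Fin 2) (Fin 2) F)) hdy x.1
        constructor
        · rintro ⟨U, Z, hUZ⟩
          exact Subtype.ext (h5.mpr ⟨U, Z, hUZ, by simp⟩)
        · intro h6
          obtain ⟨U, Z, hUZ, _⟩ := h5.mp (congrArg Subtype.val h6)
          exact ⟨U, Z, hUZ⟩
      · intro x hx
        obtain ⟨ζ, h3⟩ := exists_scalar _ _ hx
        by_cases hζ : ζ = 1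
        · apply Subtype.ext
          rw [hζ, one_smul] at h3
          exact h3.symm
        · exfalso
          obtain ⟨h11, h12, h21, h22⟩ := block_rel (inv_ne_zero hy0) _ x hζ h3
          rw [Matrix.mul_smul, Matrix.mul_one, smul_smul] at h12
          rw [Matrix.smul_mul, Matrix.one_mul] at h21 h22
          rw [Matrix.mul_smul, Matrix.mul_one, smul_smul] at h22
          have h22' : x.1.toBlocks₂₂ = 0 := by
            have h6 : (y - ζ * y) • x.1.toBlocks₂₂ = 0 := by
              rw [sub_smul, sub_eq_zero]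
              exact h22
            rcases smul_eq_zero.mp h6 with h7 | h7
            · exfalso
              apply hζ
              have h8 : (1 - ζ) * y = 0 := by linear_combination h7
              rcases mul_eq_zero.mp h8 with h9 | h9
              · exact (sub_eq_zero.mp h9).symm
              · exact absurd h9 hy0
            · exact h7
          have h12n : x.1.toBlocks₁₂ ≠ 0 := by
            intro h6
            have h7 := toBlocks₁₂_injective x h22' (w := fun _ => 1) (by rw [h6]; simp)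
            exact one_ne_zero (congrFun h7 0)
          have h21n : x.1.toBlocks₂₁ ≠ 0 := by
            intro h6
            have h7 := toBlocks₂₁_injective x h11 (w := fun _ => 1) (by rw [h6]; simp)
            exact one_ne_zero (congrFun h7 0)
          have e1 : y⁻¹ = ζ * y := by
            have h6 : (y⁻¹ - ζ * y) • x.1.toBlocks₁₂ = 0 := by
              rw [sub_smul, sub_eq_zero]
              exact h12
            rcases smul_eq_zero.mp h6 with h7 | h7
            · exact sub_eq_zero.mp h7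
            · exact absurd h7 h12n
          have e2 : y = ζ * y⁻¹ := by
            have h6 : (y - ζ * y⁻¹) • x.1.toBlocks₂₁ = 0 := by
              rw [sub_smul, sub_eq_zero]
              exact h21
            rcases smul_eq_zero.mp h6 with h7 | h7
            · exact sub_eq_zero.mp h7
            · exact absurd h7 h21n
          apply hy4
          have hyi : y * y⁻¹ = 1 := mul_inv_cancel₀ hy0
          have e3 : ζ * y ^ 2 = 1 := by
            calc ζ * y ^ 2 = y * (ζ * y) := by ring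
              _ = 1 := by rw [← e1, hyi]
          have e4 : ζ = y ^ 2 := by
            calc ζ = ζ * y⁻¹ * y := by
                  rw [mul_assoc, inv_mul_cancel₀ hy0, mul_one]
              _ = y ^ 2 := by rw [← e2]; ring
          calc y ^ 4 = y ^ 2 * y ^ 2 := by ring
            _ = ζ * y ^ 2 := by rw [← e4]
            _ = 1 := e3
    · refine ⟨blk m (-1) hb₀, fun x => Iff.rfl, ?_⟩
      intro x hx
      by_cases h1 : m = 1
      · subst h1
        apply blk_rigid_one (-1) hb₀ _ x hx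
        simp only [Matrix.neg_apply, Matrix.one_apply_eq]
        intro h
        have : (1 : F) = 0 := by linear_combination -h
        exact one_ne_zero this
      · exact blk_rigid_three (by omega) (-1) hb₀ x hx
  obtain ⟨B, hB, hPB⟩ := (hP.congr hg₁).quotient
    (N := Subgroup.center (SpecialLinearGroup (Fin m ⊕ Fin 2) F)) hrig hrigA le_rfl
  exact ⟨_, B, hB.trans hA, hPB⟩

theorem mem_Ccomm_PSLn [Finite F] (hF : 7 ≤ Nat.card F) (hodd : Odd (Nat.card F)) {n : ℕ}
    (hn : 2 ≤ n) {p : ℕ} (hp : p.Prime) (hpq : p ∣ Nat.card F * (Nat.card F + 1)) :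
    p ∈ Ccomm (ProjectiveSpecialLinearGroup (Fin n) F) := by
  classical
  by_cases hn2 : n = 2
  · subst hn2
    exact mem_Ccomm_PSL hF hodd hp hpq
  have : Fintype F := Fintype.ofFinite F
  rw [Nat.card_eq_fintype_card] at hF hodd hpq
  obtain ⟨m, rfl⟩ : ∃ m, n = m + 2 := ⟨n - 2, by omega⟩
  obtain ⟨g₀, B, hB, hPB⟩ := exists_isPart_psln hF (two_ne_zero_of_odd hodd) (m := m) (by omega)
  let e := slEquiv (F := F) (finSumFinEquiv (m := m) (n := 2))
  have he : (Subgroup.center (SpecialLinearGroup (Fin m ⊕ Fin 2) F)).map (e : _ →* _) =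
      Subgroup.center (SpecialLinearGroup (Fin (m + 2)) F) := by
    ext x
    rw [Subgroup.mem_map, Subgroup.mem_center_iff]
    constructor
    · rintro ⟨y, hy, rfl⟩ g
      obtain ⟨g', rfl⟩ := e.surjective g
      have := congrArg e (Subgroup.mem_center_iff.mp hy g')
      rw [map_mul, map_mul] at this
      exact this
    · intro hx
      obtain ⟨y, rfl⟩ := e.surjective x
      refine ⟨y, ?_, rfl⟩
      rw [Subgroup.mem_center_iff]
      intro g
      apply e.injective
      rw [map_mul, map_mul]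
      exact hx (e g)
  obtain ⟨h3, h4, h5, h6⟩ := hPB.map (QuotientGroup.congr _ _ e he)
  apply mem_Ccomm_of_partition _ _ h3 h4 h5 h6 hp
  rw [Finset.card_map, hB]
  have : Fintype.card F ^ 2 + Fintype.card F + 1 - 1 = Fintype.card F * (Fintype.card F + 1) := by
    rw [Nat.add_sub_cancel]
    ring
  rw [this]
  exact hpq

end MP5fbfc2
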