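import Mathlib
import Pool.Agent.Lib.MP_5fbfc2_al.LP.NormalPMain

/-!
# Nontrivial finite solvable groups have a nontrivial normal `p`-subgroup
-/

namespace MP5fbfc2

open scoped commutatorElement

lemma exists_normal_pSubgroup (H : Type*) [Group H] [Finite H] [Nontrivial H] [Group.IsSolvable H] :
    ∃ p : ℕ, p.Prime ∧ ∃ N : Subgroup H, N.Normal ∧ IsPGroup p N ∧ N ≠ ⊥ := by
  classical
  have hsol : ∃ n, derivedSeries H n = ⊥ := (Group.isSolvable_def H).mp inferInstance
  set n := Nat.find hsol with hn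
  have hn0 : n ≠ 0 := by
    intro h0
    have h1 := Nat.find_spec hsol
    rw [← hn, h0, derivedSeries_zero] at h1
    exact top_ne_bot h1
  obtain ⟨m, hm⟩ := Nat.exists_eq_succ_of_ne_zero hn0
  set A := derivedSeries H m with hA
  have hAne : A ≠ ⊥ := by
    intro h1
    exact Nat.find_min hsol (m := m) (by rw [← hn, hm]; exact Nat.lt_succ_self m) h1
  have hcomm0 : ⁅A, A⁆ = ⊥ := by
    have h1 := Nat.find_spec hsol
    rw [← hn, hm, Nat.succ_eq_add_one, derivedSeries_succ] at h1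
    exact h1
  have hcomm : ∀ x ∈ A, ∀ y ∈ A, x * y = y * x := by
    intro x hx y hy
    have h1 : ⁅x, y⁆ ∈ ⁅A, A⁆ := Subgroup.commutator_mem_commutator hx hy
    rw [hcomm0, Subgroup.mem_bot, commutatorElement_eq_one_iff_mul_comm] at h1
    exact h1
  have hAn : A.Normal := by
    rw [hA]
    infer_instance
  have hcard : Nat.card A ≠ 1 := by
    intro h1
    exact hAne (Subgroup.card_eq_one.mp h1)
  obtain ⟨p, hp, hpd⟩ := Nat.exists_prime_and_dvd hcard
  have : Fact p.Prime := ⟨hp⟩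
  obtain ⟨a, ha⟩ := exists_prime_orderOf_dvd_card' (G := A) p hpd
  let N : Subgroup H :=
    { carrier := {x | x ∈ A ∧ ∃ k : ℕ, x ^ (p ^ k) = 1}
      mul_mem' := by
        rintro x y ⟨hx, k, hk⟩ ⟨hy, l, hl⟩
        refine ⟨A.mul_mem hx hy, k + l, ?_⟩
        have h1 : Commute x y := hcomm x hx y hy
        rw [h1.mul_pow, pow_add, pow_mul, hk, one_pow, mul_comm (p ^ k), pow_mul, hl, one_pow,
          one_mul]
      one_mem' := ⟨A.one_mem, 0, by simp⟩
      inv_mem' := by
        rintro x ⟨hx, k, hk⟩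
        refine ⟨A.inv_mem hx, k, ?_⟩
        rw [inv_pow, hk, inv_one] }
  refine ⟨p, hp, N, ?_, ?_, ?_⟩
  · constructor
    rintro x ⟨hx, k, hk⟩ g
    refine ⟨hAn.conj_mem x hx g, k, ?_⟩
    rw [conj_pow, hk]
    simp
  · rintro ⟨x, hx, k, hk⟩
    exact ⟨k, Subtype.ext hk⟩
  · intro hbot
    have h1 : (a : H) ∈ N := by
      refine ⟨a.2, 1, ?_⟩
      have h2 : a ^ p = 1 := by rw [← ha]; exact pow_orderOf_eq_one a
      rw [pow_one, ← Subgroup.coe_pow, h2]
      rfl
    rw [hbot, Subgroup.mem_bot] at h1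
    have h3 : a = 1 := Subtype.ext h1
    rw [h3, orderOf_one] at ha
    exact hp.one_lt.ne ha

theorem nonempty_of_solvable {G : Type*} [Group G] [Finite G] (hind : IndepRows G)
    (hs : Group.IsSolvable G) (hna : ∃ x y : G, x * y ≠ y * x) : (Ccomm G).Nonempty := by
  have h1 : Nontrivial (G ⧸ Subgroup.center G) := by
    rw [QuotientGroup.nontrivial_iff]
    intro htop
    obtain ⟨x, y, hxy⟩ := hna
    apply hxy
    have : y ∈ Subgroup.center G := by rw [htop]; trivial
    exact Subgroup.mem_center_iff.mp this x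
  obtain ⟨p, hp, N, hN1, hN2, hN3⟩ := exists_normal_pSubgroup (G ⧸ Subgroup.center G)
  exact ⟨p, mem_Ccomm_of_normal hind hp N hN2 hN3⟩

end MP5fbfc2
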