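import Mathlib
import Pool.Agent.Lib.MP_5fbfc2_al.LP.Basic

/-!
# Symmetric groups of degree three to six
-/

namespace MP5fbfc2

open Equiv Equiv.Perm

open scoped Classical in
/-- The sum of the signs of the elements commuting with `g`. -/
lemma sum_sign {n : ℕ} (g : Perm (Fin n)) :
    ∑ x : Perm (Fin n), ((sign x : ℤˣ) : ℤ) * commMatrix (Perm (Fin n)) x g =
      if Subgroup.centralizer {g} ≤ alternatingGroup (Fin n) then
        (Nat.card (Subgroup.centralizer {g}) : ℤ) else 0 := by
  classical
  split_ifs with h
  · have h1 : ∀ x : Perm (Fin n), ((sign x : ℤˣ) : ℤ) * commMatrix (Perm (Fin n)) x g =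
        if x ∈ Subgroup.centralizer {g} then 1 else 0 := by
      intro x
      unfold commMatrix
      by_cases hx : x * g = g * x
      · have hx' : x ∈ Subgroup.centralizer {g} := Subgroup.mem_centralizer_singleton_iff.mpr hx
        have h2 : sign x = 1 := by
          have := h hx'
          rwa [mem_alternatingGroup] at this
        rw [if_pos hx, if_pos hx', h2]
        simp
      · have hx' : x ∉ Subgroup.centralizer {g} :=
          fun h3 => hx (Subgroup.mem_centralizer_singleton_iff.mp h3)
        rw [if_neg hx, if_neg hx', mul_zero]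
    rw [Finset.sum_congr rfl (fun x _ => h1 x), Finset.sum_ite, Finset.sum_const_zero, add_zero,
      Finset.sum_const, nsmul_eq_mul, mul_one]
    congr 1
    rw [Nat.card_eq_fintype_card, Fintype.card_subtype]
  · rw [SetLike.le_def] at h
    push Not at h
    obtain ⟨τ, hτ, hτ'⟩ := h
    have hτc : τ * g = g * τ := Subgroup.mem_centralizer_singleton_iff.mp hτ
    have hs : sign τ = -1 := by
      rw [mem_alternatingGroup] at hτ'
      rcases Int.units_eq_one_or (sign τ) with h1 | h1
      · exact absurd h1 hτ'
      · exact h1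
    have h2 : ∑ x : Perm (Fin n), ((sign x : ℤˣ) : ℤ) * commMatrix (Perm (Fin n)) x g =
        - ∑ x : Perm (Fin n), ((sign x : ℤˣ) : ℤ) * commMatrix (Perm (Fin n)) x g := by
      conv_lhs => rw [← Equiv.sum_comp (Equiv.mulRight τ)]
      rw [← Finset.sum_neg_distrib]
      apply Finset.sum_congr rfl
      intro x _
      rw [Equiv.coe_mulRight, map_mul, hs]
      have h3 : commMatrix (Perm (Fin n)) (x * τ) g = commMatrix (Perm (Fin n)) x g := by
        unfold commMatrix
        have : (x * τ * g = g * (x * τ)) ↔ (x * g = g * x) := by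
          rw [mul_assoc, hτc, ← mul_assoc, ← mul_assoc, mul_left_inj]
        by_cases h4 : x * g = g * x
        · rw [if_pos h4, if_pos (this.mpr h4)]
        · rw [if_neg h4, if_neg (fun h5 => h4 (this.mp h5))]
      rw [h3]
      push_cast
      ring
    omega

lemma cycleType_small {n p : ℕ} (hn : (n = 3 ∧ p = 3) ∨ (n = 4 ∧ p = 3) ∨ (n = 5 ∧ p = 5) ∨
    (n = 6 ∧ p = 5)) (g : Perm (Fin n)) :
    Subgroup.centralizer {g} ≤ alternatingGroup (Fin n) ↔ g.cycleType = {p} := by
  rw [centralizer_le_alternating_iff, Fintype.card_fin]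
  constructor
  · rintro ⟨h1, h2, h3⟩
    have h4 : g.cycleType.sum ≤ n := by
      have := g.sum_cycleType_le
      rwa [Fintype.card_fin] at this
    have h5 : ∀ a ∈ g.cycleType, 2 ≤ a := fun a ha => two_le_of_mem_cycleType ha
    have h6 : ∀ a ∈ g.cycleType, 3 ≤ a := by
      intro a ha
      have h7 := h5 a ha
      have h8 := h1 a ha
      rcases Nat.lt_or_ge a 3 with h9 | h9
      · have : a = 2 := by omega
        rw [this] at h8
        exact absurd h8 (by decide)
      · exact h9
    generalize g.cycleType = c at *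
    clear g
    induction c using Multiset.induction_on with
    | empty =>
      simp at h2
      omega
    | cons a c _ =>
      induction c using Multiset.induction_on with
      | empty =>
        have h8 := h1 a (by simp)
        have h9 := h6 a (by simp)
        simp only [Multiset.cons_zero, Multiset.sum_singleton] at h2 h4
        have : a = p := by
          rcases h8 with ⟨k, hk⟩
          omega
        rw [this]
        rfl
      | cons b c _ =>
        exfalso
        have ha := h6 a (by simp)
        have hb := h6 b (by simp)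
        have ha' := h1 a (by simp)
        have hb' := h1 b (by simp)
        have hne : a ≠ b := by
          rintro rfl
          have := h3 a
          rw [Multiset.count_cons_self, Multiset.count_cons_self] at this
          omega
        simp only [Multiset.sum_cons] at h4
        rcases ha' with ⟨k, hk⟩
        rcases hb' with ⟨l, hl⟩
        omega
  · intro h
    rw [h]
    refine ⟨?_, ?_, ?_⟩
    · intro c hc
      rw [Multiset.mem_singleton] at hc
      rw [hc]
      rcases hn with ⟨_, h⟩ | ⟨_, h⟩ | ⟨_, h⟩ | ⟨_, h⟩ <;> rw [h] <;> decide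
    · rw [Multiset.sum_singleton]
      omega
    · intro i
      rw [Multiset.count_singleton]
      split_ifs <;> omega

theorem mem_Ccomm_small {n p : ℕ} (hn : (n = 3 ∧ p = 3) ∨ (n = 4 ∧ p = 3) ∨ (n = 5 ∧ p = 5) ∨
    (n = 6 ∧ p = 5)) : p ∈ Ccomm (Perm (Fin n)) := by
  classical
  have hp : p.Prime := by
    rcases hn with ⟨_, h⟩ | ⟨_, h⟩ | ⟨_, h⟩ | ⟨_, h⟩ <;> rw [h] <;> norm_num
  have hcard : ∀ g : Perm (Fin n), g.cycleType = {p} → Nat.card (Subgroup.centralizer {g}) = p := by
    intro g hg
    rw [nat_card_centralizer, hg, Fintype.card_fin]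
    simp only [Multiset.sum_singleton, Multiset.prod_singleton, Multiset.toFinset_singleton,
      Finset.prod_singleton, Multiset.count_singleton_self, Nat.factorial_one, mul_one]
    rcases hn with ⟨h, h'⟩ | ⟨h, h'⟩ | ⟨h, h'⟩ | ⟨h, h'⟩ <;> rw [h, h'] <;> decide
  let t : Perm (Fin n) → ℤ := fun g => if g.cycleType = {p} then 1 else 0
  have hrow : ∀ g : Perm (Fin n),
      ∑ x : Perm (Fin n), ((sign x : ℤˣ) : ℤ) * commMatrix (Perm (Fin n)) x g = (p : ℤ) * t g := by
    intro g
    rw [sum_sign]
    simp only [t]
    by_cases h : g.cycleType = {p}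
    · rw [if_pos h, if_pos ((cycleType_small hn g).mpr h), hcard g h, mul_one]
    · rw [if_neg h, if_neg (fun h2 => h ((cycleType_small hn g).mp h2)), mul_zero]
  have hp0 : (p : ℤ) ≠ 0 := by exact_mod_cast hp.ne_zero
  apply mem_Ccomm hp (fun x => ((sign x : ℤˣ) : ℤ)) (fun x => ((sign x : ℤˣ) : ℤ)) t p hp0
  · intro g
    rw [hrow g]
    exact dvd_mul_right _ _
  · exact hrow
  · have h1 : ∀ x : Perm (Fin n), ((sign x : ℤˣ) : ℤ) * t x = t x := by
      intro x
      simp only [t]
      by_cases h : x.cycleType = {p}
      · have h2 := (cycleType_small hn x).mpr h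
        have h3 : x ∈ Subgroup.centralizer {x} := Subgroup.mem_centralizer_singleton_iff.mpr rfl
        have h4 := h2 h3
        rw [mem_alternatingGroup] at h4
        rw [if_pos h, h4]
        simp
      · rw [if_neg h, mul_zero]
    rw [Finset.sum_congr rfl (fun x _ => h1 x)]
    have h2 : ∑ x : Perm (Fin n), t x =
        ((Finset.univ.filter (fun g : Perm (Fin n) => g.cycleType = {p})).card : ℤ) := by
      simp only [t, Finset.sum_boole]
    rw [h2, card_of_cycleType_singleton hp.two_le (by rw [Fintype.card_fin]; omega),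
      Fintype.card_fin]
    rcases hn with ⟨h, h'⟩ | ⟨h, h'⟩ | ⟨h, h'⟩ | ⟨h, h'⟩ <;> rw [h, h'] <;> decide

end MP5fbfc2
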